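import Pool.Agent.Lib.MP_72e2e6_nt.W2.E.Spec

/-!
# MP_72e2e6_nt, theorem T3, E/Cov: change of variables
-/

namespace Pool.Agent.MP72W

open Polynomial IntermediateField WeierstrassCurve

open scoped Classical

/-- The relations between the coefficients for the change `x = u ^ 2 x' + r`,
`y = u ^ 3 y' + u ^ 2 s x' + t` from `W₁` to `W₂`. -/
private structure CovRel {L : Type} [Field L] (W₁ W₂ : WeierstrassCurve.Affine L)
    (u r s t : L) : Prop where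
  hu : u ≠ 0
  h1 : u * W₁.a₁ = W₂.a₁ + 2 * s
  h2 : u ^ 2 * W₁.a₂ = W₂.a₂ - s * W₂.a₁ + 3 * r - s ^ 2
  h3 : u ^ 3 * W₁.a₃ = W₂.a₃ + r * W₂.a₁ + 2 * t
  h4 : u ^ 4 * W₁.a₄ = W₂.a₄ - s * W₂.a₃ + 2 * r * W₂.a₂ - (t + r * s) * W₂.a₁ + 3 * r ^ 2 -
    2 * s * t
  h6 : u ^ 6 * W₁.a₆ = W₂.a₆ + r * W₂.a₄ + r ^ 2 * W₂.a₂ + r ^ 3 - t * W₂.a₃ - t ^ 2 -
    r * t * W₂.a₁

private theorem CovRel.eqn {L : Type} [Field L] {W₁ W₂ : WeierstrassCurve.Affine L}
    {u r s t : L} (h : CovRel W₁ W₂ u r s t) (x y : L) :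
    W₂.Equation (u ^ 2 * x + r) (u ^ 3 * y + u ^ 2 * s * x + t) ↔ W₁.Equation x y := by
  obtain ⟨hu, h1, h2, h3, h4, h6⟩ := h
  rw [Affine.equation_iff, Affine.equation_iff]
  have key : (u ^ 3 * y + u ^ 2 * s * x + t) ^ 2 + W₂.a₁ * (u ^ 2 * x + r) *
      (u ^ 3 * y + u ^ 2 * s * x + t) + W₂.a₃ * (u ^ 3 * y + u ^ 2 * s * x + t) -
      ((u ^ 2 * x + r) ^ 3 + W₂.a₂ * (u ^ 2 * x + r) ^ 2 + W₂.a₄ * (u ^ 2 * x + r) + W₂.a₆) =
      u ^ 6 * (y ^ 2 + W₁.a₁ * x * y + W₁.a₃ * y -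
        (x ^ 3 + W₁.a₂ * x ^ 2 + W₁.a₄ * x + W₁.a₆)) := by
    linear_combination (-(u ^ 5 * x * y)) * h1 + (u ^ 4 * x ^ 2) * h2 - (u ^ 3 * y) * h3 +
      (u ^ 2 * x) * h4 + h6
  rw [← sub_eq_zero, key, mul_eq_zero, sub_eq_zero]
  exact or_iff_right (pow_ne_zero 6 hu)

private theorem CovRel.dy {L : Type} [Field L] {W₁ W₂ : WeierstrassCurve.Affine L}
    {u r s t : L} (h : CovRel W₁ W₂ u r s t) (x y : L) :
    (u ^ 3 * y + u ^ 2 * s * x + t) -
      (-(u ^ 3 * y + u ^ 2 * s * x + t) - W₂.a₁ * (u ^ 2 * x + r) - W₂.a₃) =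
      u ^ 3 * (y - (-y - W₁.a₁ * x - W₁.a₃)) := by
  obtain ⟨hu, h1, h2, h3, h4, h6⟩ := h
  linear_combination (-(u ^ 2 * x)) * h1 - h3

private theorem CovRel.dx {L : Type} [Field L] {W₁ W₂ : WeierstrassCurve.Affine L}
    {u r s t : L} (h : CovRel W₁ W₂ u r s t) (x y : L) :
    u ^ 4 * (W₁.a₁ * y - (3 * x ^ 2 + 2 * W₁.a₂ * x + W₁.a₄)) =
      (W₂.a₁ * (u ^ 3 * y + u ^ 2 * s * x + t) -
        (3 * (u ^ 2 * x + r) ^ 2 + 2 * W₂.a₂ * (u ^ 2 * x + r) + W₂.a₄)) +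
      s * (u ^ 3 * (y - (-y - W₁.a₁ * x - W₁.a₃))) := by
  rw [← h.dy]
  obtain ⟨hu, h1, h2, h3, h4, h6⟩ := h
  linear_combination (u ^ 3 * y) * h1 - 2 * u ^ 2 * x * h2 - h4

private theorem CovRel.ns {L : Type} [Field L] {W₁ W₂ : WeierstrassCurve.Affine L}
    {u r s t : L} (h : CovRel W₁ W₂ u r s t) (x y : L) :
    W₂.Nonsingular (u ^ 2 * x + r) (u ^ 3 * y + u ^ 2 * s * x + t) ↔ W₁.Nonsingular x y := by
  rw [Affine.nonsingular_iff, Affine.nonsingular_iff, h.eqn]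
  have e1 := h.dy x y
  have e2 := h.dx x y
  have hu := h.hu
  have hu3 : u ^ 3 ≠ 0 := pow_ne_zero 3 hu
  have hu4 : u ^ 4 ≠ 0 := pow_ne_zero 4 hu
  set Q₂ := (u ^ 3 * y + u ^ 2 * s * x + t) -
      (-(u ^ 3 * y + u ^ 2 * s * x + t) - W₂.a₁ * (u ^ 2 * x + r) - W₂.a₃) with hQ₂
  set Q₁ := y - (-y - W₁.a₁ * x - W₁.a₃) with hQ₁
  set P₁ := W₁.a₁ * y - (3 * x ^ 2 + 2 * W₁.a₂ * x + W₁.a₄) with hP₁
  set P₂ := (W₂.a₁ * (u ^ 3 * y + u ^ 2 * s * x + t) -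
        (3 * (u ^ 2 * x + r) ^ 2 + 2 * W₂.a₂ * (u ^ 2 * x + r) + W₂.a₄)) with hP₂
  have f1 : (P₂ ≠ 0 ∨ Q₂ ≠ 0) ↔ (P₁ ≠ 0 ∨ Q₁ ≠ 0) := by
    constructor
    · intro h0
      by_contra h5
      push Not at h5
      rw [h5.2, mul_zero] at e1
      rw [h5.1, h5.2, mul_zero, mul_zero, mul_zero, add_zero] at e2
      rcases h0 with h0 | h0
      · exact h0 e2.symm
      · exact h0 e1
    · intro h0
      by_contra h5
      push Not at h5
      rw [h5.2] at e1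
      rw [← e1, h5.1, mul_zero, zero_add] at e2
      rcases h0 with h0 | h0
      · exact h0 ((mul_eq_zero.1 e2).resolve_left hu4)
      · exact h0 ((mul_eq_zero.1 e1.symm).resolve_left hu3)
  have g1 : (W₂.a₁ * (u ^ 3 * y + u ^ 2 * s * x + t) ≠
        3 * (u ^ 2 * x + r) ^ 2 + 2 * W₂.a₂ * (u ^ 2 * x + r) + W₂.a₄) ↔ P₂ ≠ 0 := by
    rw [hP₂, sub_ne_zero]
  have g2 : ((u ^ 3 * y + u ^ 2 * s * x + t) ≠
      -(u ^ 3 * y + u ^ 2 * s * x + t) - W₂.a₁ * (u ^ 2 * x + r) - W₂.a₃) ↔ Q₂ ≠ 0 := by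
    rw [hQ₂, sub_ne_zero]
  have g3 : (W₁.a₁ * y ≠ 3 * x ^ 2 + 2 * W₁.a₂ * x + W₁.a₄) ↔ P₁ ≠ 0 := by
    rw [hP₁, sub_ne_zero]
  have g4 : (y ≠ -y - W₁.a₁ * x - W₁.a₃) ↔ Q₁ ≠ 0 := by
    rw [hQ₁, sub_ne_zero]
  rw [g1, g2, g3, g4, f1]

private theorem CovRel.negY {L : Type} [Field L] {W₁ W₂ : WeierstrassCurve.Affine L}
    {u r s t : L} (h : CovRel W₁ W₂ u r s t) (x y : L) :
    W₂.negY (u ^ 2 * x + r) (u ^ 3 * y + u ^ 2 * s * x + t) =
      u ^ 3 * W₁.negY x y + u ^ 2 * s * x + t := by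
  obtain ⟨hu, h1, h2, h3, h4, h6⟩ := h
  rw [Affine.negY, Affine.negY]
  linear_combination (u ^ 2 * x) * h1 + h3

private theorem CovRel.addX {L : Type} [Field L] {W₁ W₂ : WeierstrassCurve.Affine L}
    {u r s t : L} (h : CovRel W₁ W₂ u r s t) (x₁ x₂ ℓ : L) :
    W₂.addX (u ^ 2 * x₁ + r) (u ^ 2 * x₂ + r) (u * ℓ + s) = u ^ 2 * W₁.addX x₁ x₂ ℓ + r := by
  obtain ⟨hu, h1, h2, h3, h4, h6⟩ := h
  rw [Affine.addX, Affine.addX]
  linear_combination (-(u * ℓ)) * h1 + h2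

private theorem CovRel.addY {L : Type} [Field L] {W₁ W₂ : WeierstrassCurve.Affine L}
    {u r s t : L} (h : CovRel W₁ W₂ u r s t) (x₁ x₂ y₁ ℓ : L) :
    W₂.addY (u ^ 2 * x₁ + r) (u ^ 2 * x₂ + r) (u ^ 3 * y₁ + u ^ 2 * s * x₁ + t) (u * ℓ + s) =
      u ^ 3 * W₁.addY x₁ x₂ y₁ ℓ + u ^ 2 * s * W₁.addX x₁ x₂ ℓ + t := by
  have h1 : W₂.negAddY (u ^ 2 * x₁ + r) (u ^ 2 * x₂ + r) (u ^ 3 * y₁ + u ^ 2 * s * x₁ + t)
      (u * ℓ + s) = u ^ 3 * W₁.negAddY x₁ x₂ y₁ ℓ + u ^ 2 * s * W₁.addX x₁ x₂ ℓ + t := by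
    rw [Affine.negAddY, Affine.negAddY, h.addX]
    ring
  rw [Affine.addY, h1, h.addX, h.negY, Affine.addY]

private theorem CovRel.slope {L : Type} [Field L] {W₁ W₂ : WeierstrassCurve.Affine L}
    {u r s t : L} (h : CovRel W₁ W₂ u r s t) {x₁ x₂ y₁ y₂ : L} (e₁ : W₁.Equation x₁ y₁)
    (e₂ : W₁.Equation x₂ y₂) (hxy : ¬(x₁ = x₂ ∧ y₁ = W₁.negY x₂ y₂)) :
    W₂.slope (u ^ 2 * x₁ + r) (u ^ 2 * x₂ + r) (u ^ 3 * y₁ + u ^ 2 * s * x₁ + t)
      (u ^ 3 * y₂ + u ^ 2 * s * x₂ + t) = u * W₁.slope x₁ x₂ y₁ y₂ + s := by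
  have hu := h.hu
  by_cases hx : x₁ = x₂
  · have hy : y₁ ≠ W₁.negY x₂ y₂ := fun h0 => hxy ⟨hx, h0⟩
    have hyy : y₁ = y₂ := Affine.Y_eq_of_Y_ne e₁ e₂ hx hy
    subst hx hyy
    have hy' : u ^ 3 * y₁ + u ^ 2 * s * x₁ + t ≠
        W₂.negY (u ^ 2 * x₁ + r) (u ^ 3 * y₁ + u ^ 2 * s * x₁ + t) := by
      rw [h.negY]
      intro h0
      apply hy
      have h5 : u ^ 3 * y₁ = u ^ 3 * W₁.negY x₁ y₁ := by linear_combination h0
      exact mul_left_cancel₀ (pow_ne_zero 3 hu) h5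
    rw [Affine.slope_of_Y_ne rfl hy, Affine.slope_of_Y_ne rfl hy']
    have e1 := h.dy x₁ y₁
    have e2 := h.dx x₁ y₁
    have n1 : y₁ - W₁.negY x₁ y₁ = y₁ - (-y₁ - W₁.a₁ * x₁ - W₁.a₃) := rfl
    have n2 : u ^ 3 * y₁ + u ^ 2 * s * x₁ + t -
        W₂.negY (u ^ 2 * x₁ + r) (u ^ 3 * y₁ + u ^ 2 * s * x₁ + t) =
        u ^ 3 * (y₁ - (-y₁ - W₁.a₁ * x₁ - W₁.a₃)) := by rw [← e1]; rfl
    have hQ : y₁ - (-y₁ - W₁.a₁ * x₁ - W₁.a₃) ≠ 0 := by
      rw [← n1]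
      exact sub_ne_zero.2 hy
    rw [n1, n2]
    set Q := y₁ - (-y₁ - W₁.a₁ * x₁ - W₁.a₃) with hQd
    have hu3 : u ^ 3 ≠ 0 := pow_ne_zero 3 hu
    rw [div_eq_iff (mul_ne_zero hu3 hQ), add_mul]
    have e3 : u * ((3 * x₁ ^ 2 + 2 * W₁.a₂ * x₁ + W₁.a₄ - W₁.a₁ * y₁) / Q) * (u ^ 3 * Q) =
        u ^ 4 * (3 * x₁ ^ 2 + 2 * W₁.a₂ * x₁ + W₁.a₄ - W₁.a₁ * y₁) := by
      field_simp
    rw [e3]
    linear_combination e2
  · have hx' : u ^ 2 * x₁ + r ≠ u ^ 2 * x₂ + r := by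
      intro h0
      apply hx
      have h5 : u ^ 2 * x₁ = u ^ 2 * x₂ := by linear_combination h0
      exact mul_left_cancel₀ (pow_ne_zero 2 hu) h5
    rw [Affine.slope_of_X_ne hx, Affine.slope_of_X_ne hx']
    have h1 : x₁ - x₂ ≠ 0 := sub_ne_zero.2 hx
    have h2 : u ^ 2 * x₁ + r - (u ^ 2 * x₂ + r) = u ^ 2 * (x₁ - x₂) := by ring
    rw [h2, div_eq_iff (mul_ne_zero (pow_ne_zero 2 hu) h1), add_mul]
    have e3 : u * ((y₁ - y₂) / (x₁ - x₂)) * (u ^ 2 * (x₁ - x₂)) = u ^ 3 * (y₁ - y₂) := by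
      field_simp
    rw [e3]
    ring

private theorem cov_some {L : Type} [Field L] {W : WeierstrassCurve.Affine L} {x y x' y' : L}
    (hx : x = x') (hy : y = y') (h : W.Nonsingular x y) (h' : W.Nonsingular x' y') :
    Affine.Point.some x y h = Affine.Point.some x' y' h' := by
  subst hx hy
  rfl

/-- The map on points. -/
private def covMap {L : Type} [Field L] {W₁ W₂ : WeierstrassCurve.Affine L} {u r s t : L}
    (h : CovRel W₁ W₂ u r s t) : W₁.Point → W₂.Point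
  | .zero => .zero
  | .some x y hxy => .some _ _ ((h.ns x y).2 hxy)

private theorem covMap_add {L : Type} [Field L] {W₁ W₂ : WeierstrassCurve.Affine L} {u r s t : L}
    (h : CovRel W₁ W₂ u r s t) (P Q : W₁.Point) :
    covMap h (P + Q) = covMap h P + covMap h Q := by
  rcases P with _ | ⟨x₁, y₁, h₁⟩
  · change covMap h (0 + Q) = 0 + covMap h Q
    rw [zero_add, zero_add]
  rcases Q with _ | ⟨x₂, y₂, h₂⟩
  · change covMap h (_ + 0) = _ + 0
    rw [add_zero, add_zero]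
  have hu := h.hu
  by_cases hxy : x₁ = x₂ ∧ y₁ = W₁.negY x₂ y₂
  · have h1 : covMap h (.some x₁ y₁ h₁) + covMap h (.some x₂ y₂ h₂) = 0 := by
      change Affine.Point.some _ _ ((h.ns x₁ y₁).2 h₁) +
        Affine.Point.some _ _ ((h.ns x₂ y₂).2 h₂) = 0
      refine Affine.Point.add_of_Y_eq ?_ ?_
      · rw [hxy.1]
      · rw [h.negY, ← hxy.2, hxy.1]
    rw [h1, Affine.Point.add_of_Y_eq hxy.1 hxy.2]
    rfl
  · have hxy' : ¬(u ^ 2 * x₁ + r = u ^ 2 * x₂ + r ∧ u ^ 3 * y₁ + u ^ 2 * s * x₁ + t =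
        W₂.negY (u ^ 2 * x₂ + r) (u ^ 3 * y₂ + u ^ 2 * s * x₂ + t)) := by
      rintro ⟨i1, i2⟩
      apply hxy
      have h5 : u ^ 2 * x₁ = u ^ 2 * x₂ := by linear_combination i1
      have h6 : x₁ = x₂ := mul_left_cancel₀ (pow_ne_zero 2 hu) h5
      refine ⟨h6, ?_⟩
      rw [h.negY] at i2
      have h7 : u ^ 3 * y₁ = u ^ 3 * W₁.negY x₂ y₂ := by
        rw [h6] at i2
        linear_combination i2
      exact mul_left_cancel₀ (pow_ne_zero 3 hu) h7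
    rw [Affine.Point.add_some hxy]
    change Affine.Point.some _ _ _ = Affine.Point.some _ _ ((h.ns x₁ y₁).2 h₁) +
        Affine.Point.some _ _ ((h.ns x₂ y₂).2 h₂)
    rw [Affine.Point.add_some hxy']
    refine cov_some ?_ ?_ _ _
    · rw [h.slope h₁.1 h₂.1 hxy, h.addX]
    · rw [h.slope h₁.1 h₂.1 hxy, h.addY]

private theorem cov_equiv {L : Type} [Field L] {W₁ W₂ : WeierstrassCurve.Affine L} {u r s t : L}
    (h : CovRel W₁ W₂ u r s t) : ∃ e : W₁.Point ≃+ W₂.Point, ∀ (x y : L)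
      (hxy : W₁.Nonsingular x y), e (.some x y hxy) = .some _ _ ((h.ns x y).2 hxy) := by
  have hu := h.hu
  let f : W₁.Point →+ W₂.Point := AddMonoidHom.mk' (covMap h) (covMap_add h)
  have hb : Function.Bijective f := by
    constructor
    · rintro (_ | ⟨x₁, y₁, h₁⟩) (_ | ⟨x₂, y₂, h₂⟩) h0
      · rfl
      · exact absurd h0.symm (Affine.Point.some_ne_zero _)
      · exact absurd h0 (Affine.Point.some_ne_zero _)
      · change Affine.Point.some _ _ ((h.ns x₁ y₁).2 h₁) =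
          Affine.Point.some _ _ ((h.ns x₂ y₂).2 h₂) at h0
        have h1 := (Affine.Point.some.inj h0).1
        have h2 := (Affine.Point.some.inj h0).2
        have h5 : u ^ 2 * x₁ = u ^ 2 * x₂ := by linear_combination h1
        have h6 : x₁ = x₂ := mul_left_cancel₀ (pow_ne_zero 2 hu) h5
        have h7 : u ^ 3 * y₁ = u ^ 3 * y₂ := by
          rw [h6] at h2
          linear_combination h2
        exact cov_some h6 (mul_left_cancel₀ (pow_ne_zero 3 hu) h7) _ _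
    · rintro (_ | ⟨X, Y, hXY⟩)
      · exact ⟨.zero, rfl⟩
      · have hX : u ^ 2 * ((X - r) / u ^ 2) + r = X := by
          field_simp
          ring
        have hY : u ^ 3 * ((Y - u ^ 2 * s * ((X - r) / u ^ 2) - t) / u ^ 3) +
            u ^ 2 * s * ((X - r) / u ^ 2) + t = Y := by
          rw [mul_div_cancel₀ _ (pow_ne_zero 3 hu)]
          ring
        have hns : W₁.Nonsingular ((X - r) / u ^ 2)
            ((Y - u ^ 2 * s * ((X - r) / u ^ 2) - t) / u ^ 3) := by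
          rw [← h.ns, hX, hY]
          exact hXY
        exact ⟨.some _ _ hns, cov_some hX hY _ _⟩
  exact ⟨AddEquiv.ofBijective f hb, fun x y hxy => rfl⟩

theorem tCov : S_Cov := by
  intro K _ W C
  have hrel : ∀ (L : Type) [Field L] [Algebra K L], CovRel ((C • W)⁄L).toAffine (W⁄L).toAffine
      (algebraMap K L C.u) (algebraMap K L C.r) (algebraMap K L C.s) (algebraMap K L C.t) := by
    intro L _ _
    have hu : (C.u : K) ≠ 0 := C.u.ne_zero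
    have hui : ((C.u⁻¹ : Kˣ) : K) = (C.u : K)⁻¹ := Units.val_inv_eq_inv_val _
    refine ⟨?_, ?_, ?_, ?_, ?_, ?_⟩
    · intro h0
      exact hu ((map_eq_zero_iff _ (algebraMap K L).injective).1 h0)
    · change algebraMap K L C.u * algebraMap K L (C • W).a₁ =
        algebraMap K L W.a₁ + 2 * algebraMap K L C.s
      have h5 : (C.u : K) * (C • W).a₁ = W.a₁ + 2 * C.s := by
        rw [variableChange_a₁, hui]
        field_simp
      rw [← map_mul, h5]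
      simp only [map_add, map_mul, map_ofNat]
    · change algebraMap K L C.u ^ 2 * algebraMap K L (C • W).a₂ =
        algebraMap K L W.a₂ - algebraMap K L C.s * algebraMap K L W.a₁ + 3 * algebraMap K L C.r -
          algebraMap K L C.s ^ 2
      have h5 : (C.u : K) ^ 2 * (C • W).a₂ = W.a₂ - C.s * W.a₁ + 3 * C.r - C.s ^ 2 := by
        rw [variableChange_a₂, hui]
        field_simp
      rw [← map_pow, ← map_mul, h5]
      simp only [map_add, map_sub, map_mul, map_pow, map_ofNat]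
    · change algebraMap K L C.u ^ 3 * algebraMap K L (C • W).a₃ =
        algebraMap K L W.a₃ + algebraMap K L C.r * algebraMap K L W.a₁ + 2 * algebraMap K L C.t
      have h5 : (C.u : K) ^ 3 * (C • W).a₃ = W.a₃ + C.r * W.a₁ + 2 * C.t := by
        rw [variableChange_a₃, hui]
        field_simp
      rw [← map_pow, ← map_mul, h5]
      simp only [map_add, map_mul, map_ofNat]
    · change algebraMap K L C.u ^ 4 * algebraMap K L (C • W).a₄ =
        algebraMap K L W.a₄ - algebraMap K L C.s * algebraMap K L W.a₃ +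
          2 * algebraMap K L C.r * algebraMap K L W.a₂ -
          (algebraMap K L C.t + algebraMap K L C.r * algebraMap K L C.s) * algebraMap K L W.a₁ +
          3 * algebraMap K L C.r ^ 2 - 2 * algebraMap K L C.s * algebraMap K L C.t
      have h5 : (C.u : K) ^ 4 * (C • W).a₄ = W.a₄ - C.s * W.a₃ + 2 * C.r * W.a₂ -
          (C.t + C.r * C.s) * W.a₁ + 3 * C.r ^ 2 - 2 * C.s * C.t := by
        rw [variableChange_a₄, hui]
        field_simp
      rw [← map_pow, ← map_mul, h5]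
      simp only [map_add, map_sub, map_mul, map_pow, map_ofNat]
    · change algebraMap K L C.u ^ 6 * algebraMap K L (C • W).a₆ =
        algebraMap K L W.a₆ + algebraMap K L C.r * algebraMap K L W.a₄ +
          algebraMap K L C.r ^ 2 * algebraMap K L W.a₂ + algebraMap K L C.r ^ 3 -
          algebraMap K L C.t * algebraMap K L W.a₃ - algebraMap K L C.t ^ 2 -
          algebraMap K L C.r * algebraMap K L C.t * algebraMap K L W.a₁
      have h5 : (C.u : K) ^ 6 * (C • W).a₆ = W.a₆ + C.r * W.a₄ + C.r ^ 2 * W.a₂ + C.r ^ 3 -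
          C.t * W.a₃ - C.t ^ 2 - C.r * C.t * W.a₁ := by
        rw [variableChange_a₆, hui]
        field_simp
      rw [← map_pow, ← map_mul, h5]
      simp only [map_add, map_sub, map_mul, map_pow]
  refine ⟨fun L _ _ => Classical.choose (cov_equiv (hrel L)), ?_⟩
  intro S L M _ _ _ _ _ _ _ _ _ _ f P
  have hf : ∀ c : K, f (algebraMap K L c) = algebraMap K M c := by
    intro c
    rw [IsScalarTower.algebraMap_apply K S L, f.commutes, ← IsScalarTower.algebraMap_apply K S M]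
  have hL := Classical.choose_spec (cov_equiv (hrel L))
  have hM := Classical.choose_spec (cov_equiv (hrel M))
  rcases P with _ | ⟨x, y, h⟩
  · change Classical.choose (cov_equiv (hrel M)) (pmap (C • W) f 0) =
      pmap W f (Classical.choose (cov_equiv (hrel L)) 0)
    rw [map_zero, map_zero, map_zero, map_zero]
  · rw [hL]
    change Classical.choose (cov_equiv (hrel M)) (Affine.Point.some (f x) (f y) _) =
      Affine.Point.some _ _ _
    rw [hM]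
    refine cov_some ?_ ?_ _ _
    · rw [map_add, map_mul, map_pow, hf, hf]
    · rw [map_add, map_add, map_mul, map_mul, map_mul, map_pow, map_pow, hf, hf, hf]

end Pool.Agent.MP72W
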