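import Pool.Agent.Lib.MP_72e2e6_nt.W2.E.Spec
import Pool.Agent.Lib.MP_72e2e6_nt.W2.R.Sqe

/-!
# MP_72e2e6_nt, theorem T3, E/Ad1: finitely many classes modulo squares
-/

set_option autoImplicit false

namespace Pool.Agent.MP72W

open Polynomial IntermediateField

private theorem ad1_sq_inj {L : Type} [Field L] (h2 : (2 : L) = 0) {x y : L} (h : x ^ 2 = y ^ 2) :
    x = y := by
  have h1 : (x - y) ^ 2 = 0 := by linear_combination h + (y ^ 2 - x * y) * h2
  exact sub_eq_zero.1 (pow_eq_zero_iff two_ne_zero |>.1 h1)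

private theorem ad1_locc {K L : Type} [Field K] [Field L] [Algebra K L] [Algebra.IsAlgebraic K L]
    (x : L) : IsLocallyConstant (fun σ : Gal(L/K) => σ x) := by
  rw [IsLocallyConstant.iff_exists_open]
  intro σ
  have hfd : FiniteDimensional K K⟮x⟯ :=
    IntermediateField.adjoin.finiteDimensional (Algebra.IsIntegral.isIntegral x)
  have hop : IsOpen ((K⟮x⟯.fixingSubgroup : Subgroup Gal(L/K)) : Set Gal(L/K)) :=
    IntermediateField.fixingSubgroup_isOpen _
  refine ⟨(fun τ => σ * τ) '' (K⟮x⟯.fixingSubgroup : Set Gal(L/K)), (isOpenMap_mul_left σ) _ hop,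
    ⟨1, one_mem _, mul_one σ⟩, ?_⟩
  rintro _ ⟨τ, hτ, rfl⟩
  have h1 : τ x = x := (IntermediateField.mem_fixingSubgroup_iff _ _).1 hτ x
    (IntermediateField.mem_adjoin_simple_self K x)
  show σ (τ x) = σ x
  rw [h1]

open Classical in
private noncomputable def ad1_sq {L : Type} [Field L] (x : L) : L :=
  if h : ∃ s : L, s ^ 2 = x then h.choose else 0

private theorem ad1_sq_spec {L : Type} [Field L] {x : L} (h : ∃ s : L, s ^ 2 = x) :
    ad1_sq x ^ 2 = x := by
  unfold ad1_sq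
  rw [dif_pos h]
  exact h.choose_spec

private theorem ad1_fix (hH90 : S_H90) (F : Type) [Field F] [Finite F] [CharP F 2]
    (h2 : (2 : Kgs F) = 0) (u : Kgs F) (hu : u ≠ 0)
    (h : ∀ σ : Gal(Kgs F/RatFunc F), ∃ s : Kgs F, σ u = u * s ^ 2) :
    ∃ (g : RatFunc F) (y : Kgs F), g ≠ 0 ∧ y ≠ 0 ∧ u = algebraMap (RatFunc F) (Kgs F) g * y ^ 2 := by
  have hs : ∀ σ : Gal(Kgs F/RatFunc F), ad1_sq (σ u / u) ^ 2 = σ u / u := by
    intro σ
    refine ad1_sq_spec ?_
    obtain ⟨s, hs⟩ := h σ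
    exact ⟨s, by rw [hs, mul_div_cancel_left₀ _ hu]⟩
  have hsu : ∀ σ : Gal(Kgs F/RatFunc F), σ u = u * ad1_sq (σ u / u) ^ 2 := by
    intro σ
    rw [hs σ, mul_div_cancel₀ _ hu]
  have hσu : ∀ σ : Gal(Kgs F/RatFunc F), σ u ≠ 0 := by
    intro σ
    rw [Ne, map_eq_zero]
    exact hu
  have hloc : IsLocallyConstant (fun σ : Gal(Kgs F/RatFunc F) => ad1_sq (σ u / u)) :=
    (ad1_locc u).comp (fun x => ad1_sq (x / u))
  obtain ⟨y, hy, hsy⟩ := (hH90 (RatFunc F) (Kgs F) ⊥).1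
    (fun σ => ad1_sq ((σ : Gal(Kgs F/RatFunc F)) u / u))
    (hloc.comp_continuous continuous_subtype_val)
    (by
      intro σ h0
      have h1 := hs (σ : Gal(Kgs F/RatFunc F))
      rw [h0, zero_pow two_ne_zero] at h1
      exact div_ne_zero (hσu σ) hu h1.symm)
    (by
      intro σ τ
      apply ad1_sq_inj h2
      show ad1_sq (((σ : Gal(Kgs F/RatFunc F)) * (τ : Gal(Kgs F/RatFunc F))) u / u) ^ 2 =
        (ad1_sq ((σ : Gal(Kgs F/RatFunc F)) u / u) *
          (σ : Gal(Kgs F/RatFunc F)) (ad1_sq ((τ : Gal(Kgs F/RatFunc F)) u / u))) ^ 2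
      rw [hs, mul_pow, hs, ← map_pow, hs, map_div₀]
      show (σ : Gal(Kgs F/RatFunc F)) ((τ : Gal(Kgs F/RatFunc F)) u) / u = _
      have h3 := hσu (σ : Gal(Kgs F/RatFunc F))
      field_simp)
  have hall : ∀ σ : Gal(Kgs F/RatFunc F), ad1_sq (σ u / u) = σ y / y := by
    intro σ
    have hmem : σ ∈ (⊥ : IntermediateField (RatFunc F) (Kgs F)).fixingSubgroup := by
      rw [IntermediateField.fixingSubgroup_bot]
      exact Subgroup.mem_top σ
    exact hsy ⟨σ, hmem⟩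
  have hfix : ∀ σ : Gal(Kgs F/RatFunc F), σ (u / y ^ 2) = u / y ^ 2 := by
    intro σ
    have h1 := hsu σ
    rw [hall σ] at h1
    have h4 : σ y ≠ 0 := by
      rw [Ne, map_eq_zero]
      exact hy
    rw [map_div₀, map_pow, h1]
    field_simp
  have hbot : u / y ^ 2 ∈ (⊥ : IntermediateField (RatFunc F) (Kgs F)) :=
    (InfiniteGalois.mem_bot_iff_fixed _).2 hfix
  rw [IntermediateField.mem_bot] at hbot
  obtain ⟨g, hg⟩ := hbot
  refine ⟨g, y, ?_, hy, ?_⟩
  · rintro rfl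
    rw [map_zero] at hg
    exact div_ne_zero hu (pow_ne_zero 2 hy) hg.symm
  · rw [hg]
    field_simp

private theorem ad1_nm (hLc1 : S_Lc1) (hLc2 : S_Lc2) {F : Type} [Field F] [Finite F] [CharP F 2]
    {v : AbsoluteValue (RatFunc F) ℝ} {d : ℕ} {ϖ : RatFunc F} {R : Finset (RatFunc F)}
    (hR : LF v d ϖ R) (ι : Kgs F →ₐ[RatFunc F] Kvs v) (g : RatFunc F) :
    nm v (ι (algebraMap (RatFunc F) (Kgs F) g)) = v g ∧
      ι (algebraMap (RatFunc F) (Kgs F) g) ∈ Knr v := by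
  have h1 : ι (algebraMap (RatFunc F) (Kgs F) g) =
      algebraMap v.Completion (Kvs v) (algebraMap (RatFunc F) v.Completion g) := by
    rw [AlgHom.commutes, IsScalarTower.algebraMap_apply (RatFunc F) v.Completion (Kvs v)]
  constructor
  · rw [h1, (hLc2 F v d ϖ R hR).2.2.2.2.1, (hLc1 F v d ϖ R hR).1]
  · rw [h1]
    exact (Knr v).algebraMap_mem _

private theorem ad1_av_eq {F : Type} [Field F] {P : F[X]} {v v' : AbsoluteValue (RatFunc F) ℝ}
    (h : IsPl (some P) v) (h' : IsPl (some P) v') (f : RatFunc F) : v f = v' f := by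
  obtain ⟨-, -, h1⟩ := h
  obtain ⟨-, -, h1'⟩ := h'
  have key : ∀ p : F[X], v (algebraMap F[X] (RatFunc F) p) = v' (algebraMap F[X] (RatFunc F) p) := by
    intro p
    by_cases hp : p = 0
    · rw [hp, map_zero, map_zero, map_zero]
    · rw [h1 p hp, h1' p hp]
  rw [← RatFunc.num_div_denom f, map_div₀, map_div₀, key, key]


private theorem ad1_other {F : Type} [Field F] {P Q : F[X]} (hP : P.Monic) (hPi : Irreducible P)
    (hQ : Q.Monic) (hQi : Irreducible Q) (hPQ : P ≠ Q) {v : AbsoluteValue (RatFunc F) ℝ}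
    (hv : IsPl (some P) v) : v (algebraMap F[X] (RatFunc F) Q) = 1 := by
  obtain ⟨-, -, h1⟩ := hv
  have h2 : ¬ P ∣ Q := fun h => hPQ (Polynomial.eq_of_monic_of_associated hP hQ
    ((hPi.dvd_irreducible_iff_associated hQi).1 h))
  rw [h1 Q hQi.ne_zero, multiplicity_eq_zero.2 h2, pow_zero]

open scoped Classical in
theorem tAd1 (hAv : S_Av) (hLfP : S_LfP) (hLc1 : S_Lc1) (hLc2 : S_Lc2) (hNr : S_Nr)
    (hH90 : S_H90) : S_Ad1 := by
  intro F _ _ _ PP hPP
  have hchar : CharP (RatFunc F) 2 := charP_of_injective_algebraMap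
    (algebraMap F (RatFunc F)).injective 2
  have h2K : (2 : RatFunc F) = 0 := CharTwo.two_eq_zero
  have h2 : (2 : Kgs F) = 0 := by
    have := congrArg (algebraMap (RatFunc F) (Kgs F)) h2K
    rwa [map_ofNat, map_zero] at this
  set T : Finset F[X] → Kgs F := fun I =>
    algebraMap (RatFunc F) (Kgs F) (algebraMap F[X] (RatFunc F) (∏ P ∈ I, P)) with hT
  refine ⟨T '' (PP.powerset : Set (Finset F[X])), (PP.powerset.finite_toSet).image T, ?_⟩
  intro u hu
  obtain ⟨g, y, hg, hy, huy⟩ := ad1_fix hH90 F h2 u hu.ne (by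
    intro σ
    obtain ⟨s, -, hs⟩ := hu.gal σ
    refine ⟨s, ?_⟩
    rw [hs, pow_one, ZMod.val_one'' (by norm_num), pow_one])
  -- the places outside `PP`
  have hval : ∀ (P : F[X]) (v : AbsoluteValue (RatFunc F) ℝ), P ∉ PP → IsPl (some P) v →
      ∃ n : ℤ, v g = v (algebraMap F[X] (RatFunc F) P) ^ (2 * n) := by
    intro P v hP hv
    obtain ⟨hPm, hPi, -⟩ := id hv
    obtain ⟨R, hR⟩ := hLfP F P v hv
    set ι : Kgs F →ₐ[RatFunc F] Kvs v := IsSepClosed.lift with hι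
    obtain ⟨r, hrn, hr0, ⟨s, hs0, hs⟩, x, hx, hxd⟩ := hu.unr P hPm hPi hP v hv ι
    obtain ⟨hnmg, hgnr⟩ := ad1_nm hLc1 hLc2 hR ι g
    have hιy : ι y ≠ 0 := by
      rw [Ne, map_eq_zero]
      exact hy
    have hιuy : ι u = ι (algebraMap (RatFunc F) (Kgs F) g) * ι y ^ 2 := by
      conv_lhs => rw [huy]
      rw [map_mul, map_pow]
    have hge : ι (algebraMap (RatFunc F) (Kgs F) g) = r * (s / ι y) ^ 2 := by
      have h3 : ι (algebraMap (RatFunc F) (Kgs F) g) * ι y ^ 2 = r * s ^ 2 := by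
        rw [← hιuy, hs, pow_one]
      rw [div_pow, ← mul_div_assoc, ← h3]
      field_simp
    have he0 : s / ι y ≠ 0 := div_ne_zero hs0 hιy
    have hmem : s / ι y ∈ Knr v := by
      refine (hNr F v _ _ R hR).2.2.2.2.1 _ 1 ?_
      have h4 : (s / ι y) ^ 2 ^ 1 = ι (algebraMap (RatFunc F) (Kgs F) g) / r := by
        rw [hge, pow_one]
        field_simp
      rw [h4]
      exact (Knr v).div_mem hgnr hrn
    obtain ⟨n, hn⟩ := (hNr F v _ _ R hR).1 _ hmem he0
    have hmul := (hLc2 F v _ _ R hR).2.2.1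
    have hp0 : v (algebraMap F[X] (RatFunc F) P) ≠ 0 := hR.pi0.ne'
    obtain ⟨m, hm⟩ : ∃ m : ℤ, x = 2 * m := by
      rw [pow_one] at hxd
      exact hxd
    refine ⟨m + n, ?_⟩
    rw [← hnmg, hge, hmul, sq, hmul, hn, hx, hm, ← zpow_add₀ hp0, ← zpow_add₀ hp0]
    congr 1
    ring
  -- the valuations at the places of `PP`
  set ev : F[X] → Prop := fun P => ∃ v : AbsoluteValue (RatFunc F) ℝ, IsPl (some P) v ∧
    ∃ n : ℤ, v g = v (algebraMap F[X] (RatFunc F) P) ^ (2 * n) with hev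
  set I : Finset F[X] := PP.filter fun P => ¬ ev P with hI
  have hIm : ∀ Q ∈ I, Q.Monic ∧ Irreducible Q := fun Q hQ => hPP Q (Finset.mem_filter.1 hQ).1
  set p : RatFunc F := algebraMap F[X] (RatFunc F) (∏ P ∈ I, P) with hp
  have hp0 : p ≠ 0 := by
    rw [hp, Ne, map_eq_zero_iff _ (RatFunc.algebraMap_injective F), Finset.prod_eq_zero_iff]
    rintro ⟨Q, hQ, h0⟩
    exact (hIm Q hQ).2.ne_zero h0
  obtain ⟨h, hh⟩ := tSqe hAv F (g * p) (mul_ne_zero hg hp0) (by
    intro P v hv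
    obtain ⟨hPm, hPi, -⟩ := id hv
    obtain ⟨R, hR⟩ := hLfP F P v hv
    have hv0 : v (algebraMap F[X] (RatFunc F) P) ≠ 0 := hR.pi0.ne'
    have hvp : v p = if P ∈ I then v (algebraMap F[X] (RatFunc F) P) else 1 := by
      rw [hp, map_prod, map_prod]
      by_cases hPI : P ∈ I
      · rw [if_pos hPI, ← Finset.mul_prod_erase I _ hPI, Finset.prod_eq_one, mul_one]
        intro Q hQ
        obtain ⟨h3, h4⟩ := Finset.mem_erase.1 hQ
        exact ad1_other hPm hPi (hIm Q h4).1 (hIm Q h4).2 (Ne.symm h3) hv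
      · rw [if_neg hPI, Finset.prod_eq_one]
        intro Q hQ
        exact ad1_other hPm hPi (hIm Q hQ).1 (hIm Q hQ).2 (fun h3 => hPI (h3 ▸ hQ)) hv
    rw [map_mul, hvp]
    by_cases hPI : P ∈ I
    · rw [if_pos hPI]
      obtain ⟨n, hn⟩ := hR.disc g hg
      rcases Int.even_or_odd' n with ⟨m, hm | hm⟩
      · exact absurd ⟨v, hv, m, by rw [hn, hm]⟩ (Finset.mem_filter.1 hPI).2
      · refine ⟨m + 1, ?_⟩
        rw [hn, hm, ← zpow_add_one₀ hv0]
        congr 1
        ring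
    · rw [if_neg hPI, mul_one]
      by_cases hPP' : P ∈ PP
      · have h3 : ev P := by
          by_contra h4
          exact hPI (Finset.mem_filter.2 ⟨hPP', h4⟩)
        obtain ⟨v', hv', n, hn⟩ := h3
        refine ⟨n, ?_⟩
        rw [ad1_av_eq hv hv' g, ad1_av_eq hv hv', hn]
      · exact hval P v hPP' hv)
  have hpa : algebraMap (RatFunc F) (Kgs F) p ≠ 0 := by
    rw [Ne, map_eq_zero]
    exact hp0
  have hh0 : h ≠ 0 := by
    rintro rfl
    rw [zero_pow two_ne_zero] at hh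
    exact mul_ne_zero hg hp0 hh
  refine ⟨T I, ⟨I, ?_, rfl⟩, algebraMap (RatFunc F) (Kgs F) h * y / algebraMap (RatFunc F) (Kgs F) p,
    div_ne_zero (mul_ne_zero ?_ hy) hpa, ?_⟩
  · rw [Finset.mem_coe, Finset.mem_powerset]
    exact Finset.filter_subset _ _
  · rw [Ne, map_eq_zero]
    exact hh0
  · have h5 : algebraMap (RatFunc F) (Kgs F) g * algebraMap (RatFunc F) (Kgs F) p =
        algebraMap (RatFunc F) (Kgs F) h ^ 2 := by
      rw [← map_mul, hh, map_pow]
    show u = algebraMap (RatFunc F) (Kgs F) p * _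
    rw [div_pow, mul_pow, ← h5]
    conv_lhs => rw [huy]
    field_simp

end Pool.Agent.MP72W
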