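import Pool.Agent.Lib.MP_72e2e6_nt.W2.E.Spec

/-!
# MP_72e2e6_nt, theorem T3, E/Dpp: deep twists
-/

set_option autoImplicit false

namespace Pool.Agent.MP72W

open Polynomial IntermediateField

open scoped Classical

private theorem dpp_two {F : Type} [Field F] [CharP F 2] : (2 : RatFunc F) = 0 := by
  have hchar : CharP (RatFunc F) 2 := charP_of_injective_algebraMap
    (algebraMap F (RatFunc F)).injective 2
  exact CharTwo.two_eq_zero

/-- the sets `Dw` are increasing groups -/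
private theorem dpp_dw (hDgr : S_Dgr) {F : Type} [Field F] [Finite F] [CharP F 2] (κ : F)
    {PP : Finset F[X]} (hPP : ∀ P ∈ PP, P.Monic ∧ Irreducible P) (w : Option PP) :
    (∀ e, (0 : RatFunc F) ∈ Dw κ w e) ∧
    (∀ e, ∀ f ∈ Dw κ w e, ∀ g ∈ Dw κ w e, f + g ∈ Dw κ w e) ∧
    ∀ e e', e ≤ e' → Dw κ w e ⊆ Dw κ w e' := by
  rcases w with _ | P
  · have h := hDgr F κ X monic_X irreducible_X
    exact ⟨fun e => (h.1 e).2.1, fun e => (h.1 e).2.2.1, fun e e' hee => (h.2.1 e e' hee).2⟩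
  · have h := hDgr F κ P.1 (hPP _ P.2).1 (hPP _ P.2).2
    exact ⟨fun e => (h.1 e).1.1, fun e => (h.1 e).1.2.1, fun e e' hee => (h.2.1 e e' hee).1⟩

private theorem dpp_off (hDrg : S_Drg) {F : Type} [Field F] [Finite F] [CharP F 2] (κ : F)
    {PP : Finset F[X]} (hPP : ∀ P ∈ PP, P.Monic ∧ Irreducible P) (w w' : Option PP)
    (v : AbsoluteValue (RatFunc F) ℝ) (hv : IsPl (w.map Subtype.val) v) (hw : w ≠ w') (e : ℕ)
    (D : RatFunc F) (hD : D ∈ Dw κ w' e) : v D ≤ 1 := by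
  rcases w' with _ | P
  · refine ((hDrg F κ X monic_X irreducible_X _ v hv e).2 D hD).2 ?_
    intro h
    rcases w with _ | P
    · exact hw rfl
    · exact absurd h (by simp)
  · refine ((hDrg F κ P.1 (hPP _ P.2).1 (hPP _ P.2).2 _ v hv e).1 D hD).2.1 ?_
    intro h
    rcases w with _ | Q
    · exact absurd h (by simp)
    · rw [Option.map_some, Option.some_inj] at h
      exact hw (by rw [Subtype.ext h])

private theorem dpp_on (hDrg : S_Drg) {F : Type} [Field F] [Finite F] [CharP F 2] (κ : F)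
    {PP : Finset F[X]} (hPP : ∀ P ∈ PP, P.Monic ∧ Irreducible P) (w : Option PP)
    (v : AbsoluteValue (RatFunc F) ℝ) (hv : IsPl (w.map Subtype.val) v) (e : ℕ)
    (D : RatFunc F) (hD : D ∈ Dw κ w e) (h0 : D ≠ 0) :
    ∃ i : ℕ, 2 * i + 1 ≤ e ∧ v D = 2 ^ (2 * i + 1) := by
  rcases w with _ | P
  · exact ((hDrg F κ X monic_X irreducible_X _ v hv e).2 D hD).1 rfl h0
  · exact ((hDrg F κ P.1 (hPP _ P.2).1 (hPP _ P.2).2 _ v hv e).1 D hD).1 rfl h0

/-- the last step of `dpp_big` -/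
private theorem dpp_fin {K : Type} [Field K] (v : AbsoluteValue K ℝ) (hna : IsNonarchimedean v)
    {D L H : K} (h : D = L + H) {B : ℝ} (hL : v L ≤ B) (hH : B < v H) : B < v D := by
  have h1 : H = D + -L := by rw [h]; ring
  have h2 := hna D (-L)
  rw [← h1, map_neg_eq_map] at h2
  rcases le_max_iff.1 h2 with h3 | h3
  · exact hH.trans_le h3
  · exact absurd (hH.trans_le (h3.trans hL)) (lt_irrefl _)

/-- an element of `Dw κ w e` outside `Dw κ w m` is large -/
private theorem dpp_big (hLfP : S_LfP) (hLfI : S_LfI) (hDgr : S_Dgr) (hDrg : S_Drg) {F : Type}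
    [Field F] [Finite F] [CharP F 2] (κ : F) {PP : Finset F[X]}
    (hPP : ∀ P ∈ PP, P.Monic ∧ Irreducible P) (w : Option PP)
    (v : AbsoluteValue (RatFunc F) ℝ) (hv : IsPl (w.map Subtype.val) v) (e m : ℕ) (hm : 1 ≤ m)
    (D : RatFunc F) (hD : D ∈ Dw κ w e) (hDm : D ∉ Dw κ w m) : (2 : ℝ) ^ m < v D := by
  obtain ⟨h0, -, hmono⟩ := dpp_dw hDgr κ hPP w
  have hme : m < e := by
    by_contra h
    exact hDm (hmono e m (by omega) hD)
  obtain ⟨r, hr⟩ : ∃ r, (e + 1) / 2 = (m + 1) / 2 + r := ⟨(e + 1) / 2 - (m + 1) / 2, by omega⟩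
  have hpow : (2 : ℝ) ^ m < 2 ^ (2 * ((m + 1) / 2) + 1) := by
    apply pow_lt_pow_right₀ (by norm_num)
    omega
  have hlow : ∀ L ∈ Dw κ w m, v L ≤ 2 ^ m := by
    intro L hL
    by_cases hL0 : L = 0
    · rw [hL0, map_zero]
      positivity
    · obtain ⟨i, hi, hvi⟩ := dpp_on hDrg κ hPP w v hv m L hL hL0
      rw [hvi]
      exact pow_le_pow_right₀ (by norm_num) hi
  rcases w with _ | P
  · obtain ⟨R, hR⟩ := hLfI F v hv
    obtain ⟨c, hc⟩ := hD
    have hL : (∑ i ∈ Finset.range ((m + 1) / 2), RatFunc.C (c i) * RatFunc.X ^ (2 * i + 1)) +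
        (if 1 ≤ m ∧ eps (c 0) ≠ 0 then RatFunc.C κ else 0) ∈ Dw (PP := PP) κ none m := ⟨c, rfl⟩
    set q : F[X] := ∑ i ∈ Finset.range r, C (c ((m + 1) / 2 + i)) * X ^ (2 * i) with hq
    have hDE : D = ((∑ i ∈ Finset.range ((m + 1) / 2), RatFunc.C (c i) * RatFunc.X ^ (2 * i + 1)) +
        (if 1 ≤ m ∧ eps (c 0) ≠ 0 then RatFunc.C κ else 0)) +
        RatFunc.X ^ (2 * ((m + 1) / 2)) * algebraMap F[X] (RatFunc F) (X * q) := by
      rw [hc, hr, Finset.sum_range_add]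
      have h1 : (1 ≤ e ∧ eps (c 0) ≠ 0) ↔ (1 ≤ m ∧ eps (c 0) ≠ 0) :=
        and_congr_left fun _ => ⟨fun _ => hm, fun _ => by omega⟩
      have h2 : ∑ i ∈ Finset.range r, RatFunc.C (c ((m + 1) / 2 + i)) *
          RatFunc.X ^ (2 * ((m + 1) / 2 + i) + 1) =
          RatFunc.X ^ (2 * ((m + 1) / 2)) * algebraMap F[X] (RatFunc F) (X * q) := by
        rw [hq, map_mul, map_sum, Finset.mul_sum, Finset.mul_sum]
        refine Finset.sum_congr rfl fun i _ => ?_
        rw [map_mul, map_pow, RatFunc.algebraMap_C, RatFunc.algebraMap_X]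
        ring
      rw [h2]
      simp only [h1]
      ring
    have hE : q ≠ 0 := by
      intro h
      rw [h, mul_zero, map_zero, mul_zero, add_zero] at hDE
      exact hDm (hDE ▸ hL)
    refine dpp_fin v hR.na hDE (hlow _ hL) ?_
    have hX : v RatFunc.X = 2 := by
      have h1 : v (RatFunc.X : RatFunc F) = 2 ^ (RatFunc.X : RatFunc F).intDegree :=
        hv _ RatFunc.X_ne_zero
      rw [h1, RatFunc.intDegree_X, zpow_one]
    have hXq : (X * q : F[X]) ≠ 0 := mul_ne_zero X_ne_zero hE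
    have hvE : 2 ≤ v (algebraMap F[X] (RatFunc F) (X * q)) := by
      have h1 : v (algebraMap F[X] (RatFunc F) (X * q)) =
          2 ^ (algebraMap F[X] (RatFunc F) (X * q)).intDegree :=
        hv _ (by rwa [Ne, map_eq_zero_iff _ (RatFunc.algebraMap_injective F)])
      rw [h1, RatFunc.intDegree_polynomial, natDegree_X_mul hE, zpow_natCast, pow_succ]
      have h2 : (1 : ℝ) ≤ 2 ^ q.natDegree := one_le_pow₀ (by norm_num)
      linarith
    rw [map_mul, map_pow, hX]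
    refine hpow.trans_le ?_
    rw [pow_succ]
    exact mul_le_mul_of_nonneg_left hvE (by positivity)
  · obtain ⟨R, hR⟩ := hLfP F P.1 v hv
    obtain ⟨a, ha, hc⟩ := hD
    have hL : (∑ i ∈ Finset.range ((m + 1) / 2), algebraMap F[X] (RatFunc F) (a i) /
        algebraMap F[X] (RatFunc F) P.1 ^ (2 * i + 1)) ∈ Dw κ (some P) m := ⟨a, ha, rfl⟩
    have hP0 : algebraMap F[X] (RatFunc F) P.1 ≠ 0 := by
      rw [Ne, map_eq_zero_iff _ (RatFunc.algebraMap_injective F)]
      exact (hPP _ P.2).2.ne_zero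
    set E : RatFunc F := ∑ i ∈ Finset.range r, algebraMap F[X] (RatFunc F) (a ((m + 1) / 2 + i)) /
      algebraMap F[X] (RatFunc F) P.1 ^ (2 * i + 1) with hE
    have hEm : E ∈ Dw κ (some P) (2 * r) := by
      refine ⟨fun i => a ((m + 1) / 2 + i), fun i => ha _, ?_⟩
      rw [show (2 * r + 1) / 2 = r by omega]
    have hDE : D = (∑ i ∈ Finset.range ((m + 1) / 2), algebraMap F[X] (RatFunc F) (a i) /
        algebraMap F[X] (RatFunc F) P.1 ^ (2 * i + 1)) +
        E / algebraMap F[X] (RatFunc F) P.1 ^ (2 * ((m + 1) / 2)) := by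
      rw [hc, hr, Finset.sum_range_add, hE, Finset.sum_div]
      congr 1
      refine Finset.sum_congr rfl fun i _ => ?_
      rw [div_div, ← pow_add]
      congr 2
      ring
    have hE0 : E ≠ 0 := by
      intro h
      rw [h, zero_div, add_zero] at hDE
      exact hDm (hDE ▸ hL)
    refine dpp_fin v hR.na hDE (hlow _ hL) ?_
    obtain ⟨i, -, hi⟩ := dpp_on hDrg κ hPP (some P) v hv (2 * r) E hEm hE0
    have hvP : v (algebraMap F[X] (RatFunc F) P.1) = 1 / 2 := by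
      obtain ⟨-, -, h1⟩ := hv
      rw [h1 _ (hPP _ P.2).2.ne_zero, multiplicity_self, pow_one]
    rw [map_div₀, map_pow, hvP, hi, one_div, inv_pow, div_inv_eq_mul, ← pow_add]
    refine hpow.trans_le ?_
    apply pow_le_pow_right₀ (by norm_num)
    omega

/-- the completion -/
private theorem dpp_loc (hLfP : S_LfP) (hLfI : S_LfI) (hLc1 : S_Lc1) {F : Type}
    [Field F] [Finite F] [CharP F 2] {PP : Finset F[X]}
    (hPP : ∀ P ∈ PP, P.Monic ∧ Irreducible P) (w : Option PP)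
    (v : AbsoluteValue (RatFunc F) ℝ) (hv : IsPl (w.map Subtype.val) v) :
    (∀ x : RatFunc F, ‖algebraMap (RatFunc F) v.Completion x‖ = v x) ∧
    IsUltrametricDist v.Completion ∧ (∀ x : v.Completion, x ≠ 0 → ∃ n : ℤ, ‖x‖ = 2 ^ n) ∧
    CharP v.Completion 2 ∧
    (∀ y : v.Completion, 1 < ‖y ^ 2 + y‖ → 1 < ‖y‖ ∧ ‖y ^ 2 + y‖ = ‖y‖ ^ 2) ∧
    IsNonarchimedean v ∧ ∀ c : F, v (RatFunc.C c) ≤ 1 := by
  obtain ⟨d, ϖ, R, hR, j, hϖ⟩ : ∃ (d : ℕ) (ϖ : RatFunc F) (R : Finset (RatFunc F)),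
      LF v d ϖ R ∧ ∃ j : ℤ, v ϖ = 2 ^ j := by
    rcases w with _ | P
    · obtain ⟨R, hR⟩ := hLfI F v hv
      refine ⟨_, _, R, hR, -1, ?_⟩
      have h1 : v RatFunc.X = 2 ^ (RatFunc.X : RatFunc F).intDegree := hv _ RatFunc.X_ne_zero
      rw [map_inv₀, h1, RatFunc.intDegree_X, zpow_one, zpow_neg_one]
    · obtain ⟨R, hR⟩ := hLfP F P.1 v hv
      refine ⟨_, _, R, hR, -1, ?_⟩
      obtain ⟨-, -, h1⟩ := hv
      rw [h1 _ (hPP _ P.2).2.ne_zero, multiplicity_self, pow_one, zpow_neg_one, one_div]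
  obtain ⟨h1, -, h3, h4, -, -, h7, -, -, h10⟩ := hLc1 F v d ϖ R hR
  refine ⟨h1, h3, fun x hx => ?_, h7, h10, hR.na, fun c => ?_⟩
  · obtain ⟨n, hn⟩ := h4 x hx
    exact ⟨j * n, by rw [hn, hϖ, zpow_mul]⟩
  · by_cases hc : c = 0
    · rw [hc, map_zero, map_zero]
      exact zero_le_one
    · rw [hR.one c hc]

private theorem dpp_sum {K ι : Type} [Field K] (v : AbsoluteValue K ℝ) (hna : IsNonarchimedean v)
    (s : Finset ι) (f : ι → K) (h : ∀ i ∈ s, v (f i) ≤ 1) : v (∑ i ∈ s, f i) ≤ 1 := by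
  induction s using Finset.induction_on with
  | empty => rw [Finset.sum_empty, map_zero]; exact zero_le_one
  | insert a s ha ih =>
    rw [Finset.sum_insert ha]
    exact (hna _ _).trans (max_le (h a (Finset.mem_insert_self ..))
      (ih fun i hi => h i (Finset.mem_insert_of_mem hi)))

theorem tDpp (hLfP : S_LfP) (hLfI : S_LfI) (hLc1 : S_Lc1) (hDgr : S_Dgr) (hDrg : S_Drg)
    (hPfs : S_Pfs) : S_Dpp := by
  intro F _ _ _ κ hκ PP hPP A hA a₀ ha₀ M
  obtain ⟨e₀, B, hB, c₀, y₀, -, hay⟩ := hPfs F κ hκ PP hPP a₀ ha₀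
  obtain ⟨m₀, hm₀⟩ := pow_unbounded_of_one_lt M (one_lt_two : (1 : ℝ) < 2)
  set m : ℕ := max (max (Finset.univ.sup e₀) m₀) 1 with hm
  refine ⟨m, fun e D hD hDm c w y => ?_⟩
  have h2 : (2 : RatFunc F) = 0 := dpp_two
  have hBm : ∀ w, B w ∈ Dw κ w m := by
    intro w
    refine (dpp_dw hDgr κ hPP w).2.2 (e₀ w) m ?_ (hB w)
    exact (Finset.le_sup (f := e₀) (Finset.mem_univ w)).trans
      ((le_max_left _ _).trans (le_max_left _ _))
  have hv := hA.pl w
  obtain ⟨l1, l2, l3, l4, l5, l6, l7⟩ := dpp_loc hLfP hLfI hLc1 hPP w (A.av w) hv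
  -- the main term
  have hSe : ∀ w, B w + D w ∈ Dw κ w (max m e) := fun w =>
    (dpp_dw hDgr κ hPP w).2.1 _ _ ((dpp_dw hDgr κ hPP w).2.2 m _ (le_max_left _ _) (hBm w)) _
      ((dpp_dw hDgr κ hPP w).2.2 e _ (le_max_right _ _) (hD w))
  have hSm : B w + D w ∉ Dw κ w m := by
    intro h
    have h3 := (dpp_dw hDgr κ hPP w).2.1 m _ (hBm w) _ h
    rw [show B w + (B w + D w) = D w by linear_combination B w * h2] at h3
    exact hDm w h3
  have hS0 : B w + D w ≠ 0 := by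
    intro h
    rw [h] at hSm
    exact hSm ((dpp_dw hDgr κ hPP w).1 m)
  have hbig := dpp_big hLfP hLfI hDgr hDrg κ hPP w (A.av w) hv (max m e) m (le_max_right _ _)
    _ (hSe w) hSm
  obtain ⟨i, -, hi⟩ := dpp_on hDrg κ hPP w (A.av w) hv _ _ (hSe w) hS0
  -- the other terms
  set T : RatFunc F := (∑ w' ∈ Finset.univ.erase w, (B w' + D w')) +
    ((if c₀ = 0 then 0 else RatFunc.C κ) + (if c = 0 then 0 else RatFunc.C κ)) with hT
  have hκ1 : ∀ b : ZMod 2, A.av w (if b = 0 then 0 else RatFunc.C κ) ≤ 1 := by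
    intro b
    by_cases hb : b = 0
    · rw [if_pos hb, map_zero]
      exact zero_le_one
    · rw [if_neg hb]
      exact l7 κ
  have hTn : A.av w T ≤ 1 := by
    refine (l6 _ _).trans (max_le ?_ ((l6 _ _).trans (max_le (hκ1 _) (hκ1 _))))
    refine dpp_sum _ l6 _ _ fun w' hw' => ?_
    exact dpp_off hDrg κ hPP w w' (A.av w) hv (Finset.ne_of_mem_erase hw').symm _ _ (hSe w')
  have htot : a₀ + ((∑ w, D w) + (if c = 0 then 0 else RatFunc.C κ)) =
      (B w + D w) + T + (y₀ ^ 2 + y₀) := by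
    rw [hay, hT]
    have h3 : ∑ w, B w + ∑ w, D w = (B w + D w) + ∑ w' ∈ Finset.univ.erase w, (B w' + D w') := by
      rw [← Finset.sum_add_distrib, Finset.add_sum_erase Finset.univ (fun w => B w + D w)
        (Finset.mem_univ w)]
    linear_combination h3
  rw [htot]
  set al := algebraMap (RatFunc F) (A.av w).Completion with hal
  set z : (A.av w).Completion := al y₀ + y with hz
  have h2c : (2 : (A.av w).Completion) = 0 := CharTwo.two_eq_zero
  have hsum : al ((B w + D w) + T + (y₀ ^ 2 + y₀)) + (y ^ 2 + y) =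
      (al (B w + D w) + (z ^ 2 + z)) + al T := by
    rw [map_add, map_add, map_add _ (y₀ ^ 2), map_pow, hz]
    linear_combination (-(al y₀ * y)) * h2c
  rw [hsum]
  have hSn : ‖al (B w + D w)‖ = 2 ^ (2 * i + 1) := by rw [l1, hi]
  have hS1 : 1 < ‖al (B w + D w)‖ := by
    rw [hSn]
    exact one_lt_pow₀ (by norm_num) (by omega)
  have hne : ‖al (B w + D w)‖ ≠ ‖z ^ 2 + z‖ := by
    intro h
    have h3 : 1 < ‖z ^ 2 + z‖ := h ▸ hS1
    obtain ⟨h4, h5⟩ := l5 z h3
    have hz0 : z ≠ 0 := by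
      rintro h6
      rw [h6, norm_zero] at h4
      exact absurd h4 (by norm_num)
    obtain ⟨n, hn⟩ := l3 z hz0
    rw [h5, hSn, hn, ← zpow_natCast, ← zpow_natCast, ← zpow_mul] at h
    have h6 := zpow_right_injective₀ (by norm_num : (0 : ℝ) < 2) (by norm_num) h
    push_cast at h6
    omega
  have h3 : ‖al (B w + D w)‖ ≤ ‖al (B w + D w) + (z ^ 2 + z)‖ := by
    rw [IsUltrametricDist.norm_add_eq_max_of_norm_ne_norm hne]
    exact le_max_left _ _
  have hT1 : ‖al T‖ ≤ 1 := by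
    rw [l1]
    exact hTn
  have h4 : ‖al (B w + D w) + (z ^ 2 + z)‖ ≠ ‖al T‖ := by
    intro h
    linarith
  rw [IsUltrametricDist.norm_add_eq_max_of_norm_ne_norm h4]
  refine le_trans ?_ (h3.trans (le_max_left _ _))
  rw [l1]
  refine le_trans ?_ hbig.le
  refine hm₀.le.trans (pow_le_pow_right₀ (by norm_num) ?_)
  exact (le_max_right _ _).trans (le_max_left _ _)

end Pool.Agent.MP72W
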