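import Pool.Agent.Lib.MP_72e2e6_nt.W2.E.Spec

/-!
# MP_72e2e6_nt, theorem T3, part E: Dsc, the descent (helper53)
-/

namespace Pool.Agent.MP72W

open Polynomial IntermediateField WeierstrassCurve

open scoped Classical

section pm

variable {K S L M : Type} [Field K] (W : WeierstrassCurve K) [Field S] [Field L] [Field M]
  [Algebra K S] [Algebra K L] [Algebra K M] [Algebra S L] [Algebra S M]
  [IsScalarTower K S L] [IsScalarTower K S M]

private theorem dm_add (I : DecidableEq L) (J : DecidableEq M) (f : L →ₐ[S] M)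
    (P Q : (W⁄L).toAffine.Point) : pmap W f (P + Q) = pmap W f P + pmap W f Q := by
  obtain rfl : I = fun a b => Classical.propDecidable (a = b) := Subsingleton.elim _ _
  obtain rfl : J = fun a b => Classical.propDecidable (a = b) := Subsingleton.elim _ _
  exact map_add (pmap W f) P Q

private theorem dm_sub (I : DecidableEq L) (J : DecidableEq M) (f : L →ₐ[S] M)
    (P Q : (W⁄L).toAffine.Point) : pmap W f (P - Q) = pmap W f P - pmap W f Q := by
  obtain rfl : I = fun a b => Classical.propDecidable (a = b) := Subsingleton.elim _ _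
  obtain rfl : J = fun a b => Classical.propDecidable (a = b) := Subsingleton.elim _ _
  exact map_sub (pmap W f) P Q

private theorem dm_nsmul (I : DecidableEq L) (J : DecidableEq M) (f : L →ₐ[S] M) (n : ℕ)
    (P : (W⁄L).toAffine.Point) : pmap W f (n • P) = n • pmap W f P := by
  obtain rfl : I = fun a b => Classical.propDecidable (a = b) := Subsingleton.elim _ _
  obtain rfl : J = fun a b => Classical.propDecidable (a = b) := Subsingleton.elim _ _
  exact map_nsmul (pmap W f) n P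

private theorem dm_congr (f g : L →ₐ[K] M) {x y : L} (h : (W⁄L).toAffine.Nonsingular x y)
    (hx : f x = g x) (hy : f y = g y) :
    pmap W f (Affine.Point.some x y h) = pmap W g (Affine.Point.some x y h) := by
  unfold pmap
  rw [Affine.Point.map_some, Affine.Point.map_some, Affine.Point.some.injEq]
  exact ⟨hx, hy⟩

omit [Algebra S L] [IsScalarTower K S L] in
private theorem dm_sq (f : L →ₐ[K] M) (s : L →ₐ[K] L) (t : M →ₐ[S] M)
    (hst : ∀ x, t (f x) = f (s x)) (P : (W⁄L).toAffine.Point) :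
    pmap W f (pmap W s P) = pmap W t (pmap W f P) := by
  cases P with
  | zero => rfl
  | some x y h =>
    unfold pmap
    rw [Affine.Point.map_some, Affine.Point.map_some, Affine.Point.map_some,
      Affine.Point.map_some, Affine.Point.some.injEq]
    exact ⟨(hst x).symm, (hst y).symm⟩

end pm

private theorem dloc_pt {K : Type} [Field K] (W : WeierstrassCurve K)
    (P : (W⁄(SeparableClosure K)).toAffine.Point) :
    IsLocallyConstant fun σ : Gal(SeparableClosure K/K) =>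
      pmap W (σ : SeparableClosure K →ₐ[K] SeparableClosure K) P := by
  have hop : ∀ (σ : Gal(SeparableClosure K/K)) (x : SeparableClosure K),
      IsOpen {τ : Gal(SeparableClosure K/K) | τ x = σ x} := by
    intro σ x
    have h1 : IsOpen (MulAction.stabilizer Gal(SeparableClosure K/K) x :
        Set Gal(SeparableClosure K/K)) := stabilizer_isOpen_of_isIntegral x
    have h2 := h1.preimage (continuous_const_mul σ⁻¹)
    have h3 : {τ : Gal(SeparableClosure K/K) | τ x = σ x} = (fun τ => σ⁻¹ * τ) ⁻¹'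
        (MulAction.stabilizer Gal(SeparableClosure K/K) x : Set Gal(SeparableClosure K/K)) := by
      ext τ
      rw [Set.mem_preimage, SetLike.mem_coe, MulAction.mem_stabilizer_iff, mul_smul,
        inv_smul_eq_iff]
      exact Iff.rfl
    rw [h3]
    exact h2
  rw [IsLocallyConstant.iff_exists_open]
  intro σ
  cases P with
  | zero => exact ⟨Set.univ, isOpen_univ, trivial, fun τ _ => rfl⟩
  | some x y h =>
    refine ⟨{τ | τ x = σ x} ∩ {τ | τ y = σ y}, (hop σ x).inter (hop σ y), ⟨rfl, rfl⟩, ?_⟩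
    rintro τ ⟨hx, hy⟩
    have hx' : τ x = σ x := hx
    have hy' : τ y = σ y := hy
    exact dm_congr W (τ : SeparableClosure K →ₐ[K] SeparableClosure K)
      (σ : SeparableClosure K →ₐ[K] SeparableClosure K) h hx' hy'

section fv

variable {K : Type} [Field K] [CharP K 2] {D γ : K} {L : Type} [Field L] [Algebra K L]

private theorem d_fadd (h : S_FVn) (hγ : γ ≠ 0) (I : DecidableEq L) (n : ℕ) (P Q : Pt D γ 0 L) :
    Fn D γ n (P + Q) = Fn D γ n P + Fn D γ n Q := by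
  obtain rfl : I = fun a b => Classical.propDecidable (a = b) := Subsingleton.elim _ _
  exact (h K D γ hγ L).1 n P Q

private theorem d_fsub (h : S_FVn) (hγ : γ ≠ 0) (I : DecidableEq L) (n : ℕ) (P Q : Pt D γ 0 L) :
    Fn D γ n (P - Q) = Fn D γ n P - Fn D γ n Q := by
  obtain rfl : I = fun a b => Classical.propDecidable (a = b) := Subsingleton.elim _ _
  exact map_sub (AddMonoidHom.mk' (Fn D γ n (L := L)) ((h K D γ hγ L).1 n)) P Q

private theorem d_vadd (h : S_FVn) (hγ : γ ≠ 0) (I : DecidableEq L) (n : ℕ) (P Q : Pt D γ n L) :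
    Vn D γ n (P + Q) = Vn D γ n P + Vn D γ n Q := by
  obtain rfl : I = fun a b => Classical.propDecidable (a = b) := Subsingleton.elim _ _
  exact (h K D γ hγ L).2.1 n P Q

private theorem d_vsub (h : S_FVn) (hγ : γ ≠ 0) (I : DecidableEq L) (n : ℕ) (P Q : Pt D γ n L) :
    Vn D γ n (P - Q) = Vn D γ n P - Vn D γ n Q := by
  obtain rfl : I = fun a b => Classical.propDecidable (a = b) := Subsingleton.elim _ _
  exact map_sub (AddMonoidHom.mk' (Vn D γ n (L := L)) ((h K D γ hγ L).2.1 n)) P Q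

private theorem d_vnsmul (h : S_FVn) (hγ : γ ≠ 0) (I : DecidableEq L) (n m : ℕ)
    (P : Pt D γ n L) : Vn D γ n (m • P) = m • Vn D γ n P := by
  obtain rfl : I = fun a b => Classical.propDecidable (a = b) := Subsingleton.elim _ _
  exact map_nsmul (AddMonoidHom.mk' (Vn D γ n (L := L)) ((h K D γ hγ L).2.1 n)) m P

private theorem d_vf (h : S_FVn) (hγ : γ ≠ 0) (I : DecidableEq L) (n : ℕ) (P : Pt D γ 0 L) :
    Vn D γ n (Fn D γ n P) = 2 ^ n • P := by
  obtain rfl : I = fun a b => Classical.propDecidable (a = b) := Subsingleton.elim _ _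
  exact (h K D γ hγ L).2.2.1 n P

private theorem d_R (h : S_FVn) (hγ : γ ≠ 0) (I : DecidableEq L) (k : ℕ) (R : Pt D γ k L)
    (hR : IsR D γ k R) :
    addOrderOf R = 2 ^ k ∧ ∀ P : Pt D γ k L, Vn D γ k P = 0 ↔ ∃ m : ℕ, P = m • R := by
  obtain rfl : I = fun a b => Classical.propDecidable (a = b) := Subsingleton.elim _ _
  exact (h K D γ hγ L).2.2.2.2.2.2.2.1 k R hR

end fv

section loc

variable {K S L M : Type} [Field K] [CharP K 2] {D γ : K} [Field S] [Field L] [Field M]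
  [Algebra K S] [Algebra K L] [Algebra K M] [Algebra S M] [IsScalarTower K S M]

private theorem selV_loc (h : S_FVn) (hγ : γ ≠ 0) (I : DecidableEq L) (J : DecidableEq M)
    (ι : L →ₐ[K] M) (σ : L →ₐ[K] L) (g : M →ₐ[S] M) (hσ : ∀ x, g (ι x) = ι (σ x)) (k c : ℕ)
    (R p : Pt D γ k L) (z : Pt D γ 0 L) (Q : Pt D γ 0 M)
    (hc : Fn D γ k z - (pmap (EE D γ k) σ p - p) = c • R)
    (hQ : pmap (EE D γ 0) ι z = pmap (EE D γ 0) g Q - Q) :
    c • pmap (EE D γ k) ι R = pmap (EE D γ k) g (Fn D γ k Q - pmap (EE D γ k) ι p) -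
      (Fn D γ k Q - pmap (EE D γ k) ι p) := by
  obtain rfl : I = fun a b => Classical.propDecidable (a = b) := Subsingleton.elim _ _
  obtain rfl : J = fun a b => Classical.propDecidable (a = b) := Subsingleton.elim _ _
  have n1 := ((h K D γ hγ L).2.2.2.2.2.1 k K M ι).1 z
  have n2 := ((h K D γ hγ M).2.2.2.2.2.1 k S M g).1 Q
  rw [← map_nsmul (pmap (EE D γ k) ι) c R, ← hc, map_sub, map_sub, map_sub, n1, hQ, n2,
    d_fsub h hγ, dm_sq (EE D γ k) ι σ g hσ]
  abel

private theorem selF_loc (h : S_FVn) (hγ : γ ≠ 0) (I : DecidableEq L) (J : DecidableEq M)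
    (ι : L →ₐ[K] M) (σ : L →ₐ[K] L) (g : M →ₐ[S] M) (hσ : ∀ x, g (ι x) = ι (σ x)) (k : ℕ)
    (s : Pt D γ k L) (z z₀ : Pt D γ 0 L) (Q Q₀ : Pt D γ 0 M)
    (hs : Fn D γ k (z - z₀) = pmap (EE D γ k) σ s - s)
    (hQ : pmap (EE D γ 0) ι z = pmap (EE D γ 0) g Q - Q)
    (hQ₀ : pmap (EE D γ 0) ι z₀ = pmap (EE D γ 0) g Q₀ - Q₀) :
    pmap (EE D γ k) g (pmap (EE D γ k) ι s - Fn D γ k (Q - Q₀)) =
      pmap (EE D γ k) ι s - Fn D γ k (Q - Q₀) := by
  obtain rfl : I = fun a b => Classical.propDecidable (a = b) := Subsingleton.elim _ _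
  obtain rfl : J = fun a b => Classical.propDecidable (a = b) := Subsingleton.elim _ _
  have n1 := ((h K D γ hγ L).2.2.2.2.2.1 k K M ι).1 (z - z₀)
  have n2 := ((h K D γ hγ M).2.2.2.2.2.1 k S M g).1 (Q - Q₀)
  have e1 : pmap (EE D γ k) σ s = s + Fn D γ k (z - z₀) := by rw [hs]; abel
  rw [map_sub, ← dm_sq (EE D γ k) ι σ g hσ, e1, map_add, n1, n2, map_sub (pmap (EE D γ 0) ι),
    hQ, hQ₀, map_sub (pmap (EE D γ 0) g)]
  have e2 : pmap (EE D γ 0) g Q - Q - (pmap (EE D γ 0) g Q₀ - Q₀) =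
      (pmap (EE D γ 0) g Q - pmap (EE D γ 0) g Q₀) - (Q - Q₀) := by abel
  rw [e2, d_fsub h hγ _ k (pmap (EE D γ 0) g Q - pmap (EE D γ 0) g Q₀)]
  abel

end loc

section rho

variable {G : Type} [AddCommGroup G] {k : ℕ} {R : G}

private theorem rho_mod (hR : addOrderOf R = 2 ^ k) (m : ℕ) : (m % 2 ^ k) • R = m • R := by
  rw [← hR]
  exact mod_addOrderOf_nsmul R m

private theorem rho_add (hR : addOrderOf R = 2 ^ k) (a b : ZMod (2 ^ k)) :
    (a + b).val • R = a.val • R + b.val • R := by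
  rw [ZMod.val_add, rho_mod hR, add_smul]

private theorem rho_mul (hR : addOrderOf R = 2 ^ k) (a b : ZMod (2 ^ k)) :
    (a * b).val • R = a.val • (b.val • R) := by
  rw [ZMod.val_mul, rho_mod hR, mul_smul]

private theorem rho_sub (hR : addOrderOf R = 2 ^ k) (a b : ZMod (2 ^ k)) :
    (a - b).val • R = a.val • R - b.val • R := by
  have h := rho_add hR (a - b) b
  rw [sub_add_cancel] at h
  rw [h, add_sub_cancel_right]

private theorem rho_inj (hR : addOrderOf R = 2 ^ k) {a b : ZMod (2 ^ k)}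
    (h : a.val • R = b.val • R) : a = b := by
  have h1 := (nsmul_eq_nsmul_iff_modEq).1 h
  rw [hR] at h1
  have h2 : a.val % 2 ^ k = b.val % 2 ^ k := h1
  rw [Nat.mod_eq_of_lt (ZMod.val_lt a), Nat.mod_eq_of_lt (ZMod.val_lt b)] at h2
  exact ZMod.val_injective _ h2

private theorem rho_cast (hR : addOrderOf R = 2 ^ k) (m : ℕ) :
    ((m : ZMod (2 ^ k))).val • R = m • R := by
  rw [ZMod.val_natCast, rho_mod hR]

private theorem alg3 {FZ FZ0 sp p sp0 p0 cR c0R mχR mR : G} (h1 : FZ - (sp - p) = cR)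
    (h2 : FZ0 - (sp0 - p0) = c0R) (h3 : cR - c0R = mχR - mR) :
    FZ - FZ0 = (sp - sp0 + mχR) - (p - p0 + mR) := by
  have e1 : FZ = cR + (sp - p) := by rw [← h1]; abel
  have e2 : FZ0 = c0R + (sp0 - p0) := by rw [← h2]; abel
  have e3 : cR = c0R + (mχR - mR) := by rw [← h3]; abel
  rw [e1, e2, e3]
  abel

private theorem alg4 {FZ sFT csR cR' sp p sq : G} (h1 : FZ - (sp - p) = cR')
    (h2 : sFT - (sq - sp) = csR) : (FZ + sFT) - (sq - p) = cR' + csR := by
  rw [← h1, ← h2]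
  abel

end rho

/-- counting with classes -/
private theorem dcount {n a b X : ℕ} (r : Setoid (Fin n))
    (h1 : Fintype.card (Quotient r) * a ≤ X)
    (h2 : ∀ q : Quotient r, Fintype.card {i : Fin n // (⟦i⟧ : Quotient r) = q} * b ≤ X) :
    n * (a * b) ≤ X ^ 2 := by
  have e : n = ∑ q : Quotient r, Fintype.card {i : Fin n // (⟦i⟧ : Quotient r) = q} := by
    have h3 := Fintype.card_congr (Equiv.sigmaFiberEquiv (fun i : Fin n => (⟦i⟧ : Quotient r)))
    rw [Fintype.card_sigma, Fintype.card_fin] at h3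
    exact h3.symm
  have h4 : n * b ≤ Fintype.card (Quotient r) * X := by
    calc n * b = ∑ q : Quotient r, Fintype.card {i : Fin n // (⟦i⟧ : Quotient r) = q} * b := by
          rw [← Finset.sum_mul, ← e]
      _ ≤ ∑ _q : Quotient r, X := Finset.sum_le_sum fun q _ => h2 q
      _ = Fintype.card (Quotient r) * X := by
          rw [Finset.sum_const, Finset.card_univ, smul_eq_mul]
  calc n * (a * b) = (n * b) * a := by ring
    _ ≤ Fintype.card (Quotient r) * X * a := Nat.mul_le_mul_right a h4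
    _ = (Fintype.card (Quotient r) * a) * X := by ring
    _ ≤ X * X := Nat.mul_le_mul_right X h1
    _ = X ^ 2 := by ring

theorem tDsc (hSep : S_Sep) (hRes : S_Res) (_ : S_Pts) (_ : S_Map) (_ : S_FV) (_ : S_FVh)
    (hFVn : S_FVn) (hVsu : S_Vsu) : S_Dsc := by
  intro F _ _ _ PP hPP D γ hγ k R hR χ hχl hχR a b X hV hF n z p hzp hne
  obtain ⟨-, -, -, -, finj, nat, -, -, -, -⟩ := hFVn (RatFunc F) D γ hγ (Kgs F)
  obtain ⟨oR, kR⟩ := d_R hFVn hγ inferInstance k R hR
  have hASC : ASC (Kgs F) := (hSep (RatFunc F)).2.1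
  have hsub : ∀ (σ : Gal(Kgs F/RatFunc F)) (j : ℕ) (P Q : Pt D γ j (Kgs F)),
      pmap (EE D γ j) (σ : Kgs F →ₐ[RatFunc F] Kgs F) (P - Q) =
        pmap (EE D γ j) (σ : Kgs F →ₐ[RatFunc F] Kgs F) P -
          pmap (EE D γ j) (σ : Kgs F →ₐ[RatFunc F] Kgs F) Q := fun σ j P Q =>
    dm_sub (EE D γ j) _ _ _ P Q
  have hadd : ∀ (σ : Gal(Kgs F/RatFunc F)) (j : ℕ) (P Q : Pt D γ j (Kgs F)),
      pmap (EE D γ j) (σ : Kgs F →ₐ[RatFunc F] Kgs F) (P + Q) =
        pmap (EE D γ j) (σ : Kgs F →ₐ[RatFunc F] Kgs F) P +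
          pmap (EE D γ j) (σ : Kgs F →ₐ[RatFunc F] Kgs F) Q := fun σ j P Q =>
    dm_add (EE D γ j) _ _ _ P Q
  have hnsmul : ∀ (σ : Gal(Kgs F/RatFunc F)) (j t : ℕ) (P : Pt D γ j (Kgs F)),
      pmap (EE D γ j) (σ : Kgs F →ₐ[RatFunc F] Kgs F) (t • P) =
        t • pmap (EE D γ j) (σ : Kgs F →ₐ[RatFunc F] Kgs F) P := fun σ j t P =>
    dm_nsmul (EE D γ j) _ _ _ t P
  -- (i)
  have hp' : ∀ i, ∃ Q, Vn D γ k Q = p i := fun i =>
    (hVsu (RatFunc F) D γ hγ (Kgs F)).2.2.2.1 hASC k (p i)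
  choose p' hp' using hp'
  have natF : ∀ (σ : Gal(Kgs F/RatFunc F)) (P : Pt D γ 0 (Kgs F)),
      pmap (EE D γ k) (σ : Kgs F →ₐ[RatFunc F] Kgs F) (Fn D γ k P) =
        Fn D γ k (pmap (EE D γ 0) (σ : Kgs F →ₐ[RatFunc F] Kgs F) P) := fun σ P =>
    (nat k (RatFunc F) (Kgs F) (σ : Kgs F →ₐ[RatFunc F] Kgs F)).1 P
  have natV : ∀ (σ : Gal(Kgs F/RatFunc F)) (P : Pt D γ k (Kgs F)),
      pmap (EE D γ 0) (σ : Kgs F →ₐ[RatFunc F] Kgs F) (Vn D γ k P) =
        Vn D γ k (pmap (EE D γ k) (σ : Kgs F →ₐ[RatFunc F] Kgs F) P) := fun σ P =>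
    (nat k (RatFunc F) (Kgs F) (σ : Kgs F →ₐ[RatFunc F] Kgs F)).2 P
  have hc : ∀ i σ, ∃ c : ZMod (2 ^ k), Fn D γ k (z i σ) -
      (pmap (EE D γ k) (σ : Kgs F →ₐ[RatFunc F] Kgs F) (p' i) - p' i) = c.val • R := by
    intro i σ
    have h1 : Vn D γ k (Fn D γ k (z i σ) -
        (pmap (EE D γ k) (σ : Kgs F →ₐ[RatFunc F] Kgs F) (p' i) - p' i)) = 0 := by
      rw [d_vsub hFVn hγ, d_vsub hFVn hγ, d_vf hFVn hγ, ← natV, hp', (hzp i).mul σ, sub_self]
    obtain ⟨m, hm⟩ := (kR _).1 h1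
    exact ⟨m, by rw [hm, rho_cast oR]⟩
  choose c hc using hc
  -- the crossed homomorphism
  have hχR' : ∀ (σ : Gal(Kgs F/RatFunc F)) (t : ℕ),
      pmap (EE D γ k) (σ : Kgs F →ₐ[RatFunc F] Kgs F) (t • R) = t • ((χ (rG PP σ)).val • R) := by
    intro σ t
    rw [hnsmul, hχR]
  have cmul : ∀ i σ τ, c i (σ * τ) = c i σ + χ (rG PP σ) * c i τ := by
    intro i σ τ
    apply rho_inj oR
    have e : pmap (EE D γ k) ((σ * τ : Gal(Kgs F/RatFunc F)) : Kgs F →ₐ[RatFunc F] Kgs F) (p' i) =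
        pmap (EE D γ k) (σ : Kgs F →ₐ[RatFunc F] Kgs F)
          (pmap (EE D γ k) (τ : Kgs F →ₐ[RatFunc F] Kgs F) (p' i)) := by
      cases p' i <;> rfl
    have h2 : Fn D γ k (pmap (EE D γ 0) (σ : Kgs F →ₐ[RatFunc F] Kgs F) (z i τ)) -
        (pmap (EE D γ k) (σ : Kgs F →ₐ[RatFunc F] Kgs F)
          (pmap (EE D γ k) (τ : Kgs F →ₐ[RatFunc F] Kgs F) (p' i)) -
          pmap (EE D γ k) (σ : Kgs F →ₐ[RatFunc F] Kgs F) (p' i)) =
        (χ (rG PP σ) * c i τ).val • R := by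
      rw [mul_comm (χ (rG PP σ)), rho_mul oR, ← hχR', ← hc, hsub, hsub, natF]
    rw [rho_add oR, ← hc, (hzp i).sha.1.mul σ τ, d_fadd hFVn hγ, e]
    exact alg4 (hc i σ) h2
  have cloc : ∀ i, IsLocallyConstant (c i) := by
    intro i
    rw [IsLocallyConstant.iff_exists_open]
    intro σ
    obtain ⟨U, hU, hσU, hUz⟩ := (IsLocallyConstant.iff_exists_open _).1 (hzp i).sha.1.loc σ
    obtain ⟨U', hU', hσU', hUp⟩ :=
      (IsLocallyConstant.iff_exists_open _).1 (dloc_pt (EE D γ k) (p' i)) σ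
    refine ⟨U ∩ U', hU.inter hU', ⟨hσU, hσU'⟩, ?_⟩
    rintro τ ⟨h1, h2⟩
    apply rho_inj oR
    rw [← hc, ← hc, hUz τ h1, hUp τ h2]
  -- the local points
  have hloc : ∀ i (v : AbsoluteValue (RatFunc F) ℝ), v.IsNontrivial →
      ∀ ι : Kgs F →ₐ[RatFunc F] Kvs v, ∃ Q : Pt D γ 0 (Kvs v),
        ∀ (σ : Gal(Kgs F/RatFunc F)) (g : Gal(Kvs v/v.Completion)),
          (∀ x, g (ι x) = ι (σ x)) → pmap (EE D γ 0) ι (z i σ) =
          pmap (EE D γ 0) (g : Kvs v →ₐ[v.Completion] Kvs v) Q - Q :=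
    fun i v hv ι => (hzp i).sha.2 v hv ι
  choose! Q hQ using hloc
  have hSelV : ∀ i, SelV D γ k R χ (c i) := by
    intro i
    refine ⟨cloc i, cmul i, ?_⟩
    intro v hv ι
    refine ⟨Fn D γ k (Q i v ι) - pmap (EE D γ k) ι (p' i), fun g => ?_⟩
    have hr : ∀ x, g (ι x) = ι (rsH (M := v.Completion) ι g x) :=
      (hRes (RatFunc F) (Kgs F) v.Completion (Kvs v) ι).2.1 g
    generalize rsH (M := v.Completion) ι g = σ at hr
    exact selV_loc hFVn hγ _ _ ι (σ : Kgs F →ₐ[RatFunc F] Kgs F)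
      (g : Kvs v →ₐ[v.Completion] Kvs v) hr k _ R (p' i) (z i σ) (Q i v ι) (hc i σ)
      (hQ i v hv ι σ g hr)
  -- (ii) the equivalence relation
  let r : Setoid (Fin n) :=
    { r := fun i j => ∃ m, ∀ σ, c i σ - c j σ = m * (χ (rG PP σ) - 1)
      iseqv := by
        refine ⟨fun i => ⟨0, fun σ => by rw [sub_self, zero_mul]⟩, ?_, ?_⟩
        · rintro i j ⟨m, hm⟩
          exact ⟨-m, fun σ => by rw [← neg_sub, hm σ, neg_mul]⟩
        · rintro i j l ⟨m, hm⟩ ⟨m', hm'⟩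
          exact ⟨m + m', fun σ => by rw [← sub_add_sub_cancel (c i σ) (c j σ), hm σ, hm' σ, add_mul]⟩ }
  have hrel : ∀ i j, (⟦i⟧ : Quotient r) = ⟦j⟧ →
      ∃ m, ∀ σ, c i σ - c j σ = m * (χ (rG PP σ) - 1) := fun i j h => Quotient.exact h
  refine dcount r ?_ ?_
  · refine hV _ (fun t => c (((Fintype.equivFin (Quotient r)).symm t).out)) (fun t => hSelV _) ?_
    intro t t' htt' hm
    apply htt'
    have h1 : (((Fintype.equivFin (Quotient r)).symm t).out) ≈
        (((Fintype.equivFin (Quotient r)).symm t').out) := hm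
    have h2 := Quotient.sound h1
    rw [Quotient.out_eq, Quotient.out_eq] at h2
    exact (Fintype.equivFin (Quotient r)).symm.injective h2
  · intro q
    -- (iii)
    let i₀ : Fin n := q.out
    have hi₀ : (⟦i₀⟧ : Quotient r) = q := Quotient.out_eq q
    have hm : ∀ i : {i : Fin n // (⟦i⟧ : Quotient r) = q},
        ∃ m, ∀ σ, c i σ - c i₀ σ = m * (χ (rG PP σ) - 1) := fun i =>
      hrel i.1 i₀ (i.2.trans hi₀.symm)
    choose m hm using hm
    let s : {i : Fin n // (⟦i⟧ : Quotient r) = q} → Pt D γ k (Kgs F) := fun i =>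
      p' i - p' i₀ + (m i).val • R
    have hs : ∀ i, s i = p' i - p' i₀ + (m i).val • R := fun _ => rfl
    have hs1 : ∀ (i : {i : Fin n // (⟦i⟧ : Quotient r) = q}) (σ : Gal(Kgs F/RatFunc F)),
        Fn D γ k (z i.1 σ - z i₀ σ) =
        pmap (EE D γ k) (σ : Kgs F →ₐ[RatFunc F] Kgs F) (s i) - s i := by
      intro i σ
      have h3 : (c i.1 σ).val • R - (c i₀ σ).val • R =
          (m i).val • ((χ (rG PP σ)).val • R) - (m i).val • R := by
        rw [← rho_sub oR, hm i σ, mul_sub, mul_one, rho_sub oR, rho_mul oR]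
      rw [d_fsub hFVn hγ, hs, hadd, hsub, hχR']
      exact alg3 (hc i.1 σ) (hc i₀ σ) h3
    have hVR : Vn D γ k R = 0 := hR.1
    have hs2 : ∀ i, Vn D γ k (s i) = p i - p i₀ := by
      intro i
      rw [hs, d_vadd hFVn hγ, d_vsub hFVn hγ, d_vnsmul hFVn hγ, hVR, smul_zero, add_zero, hp',
        hp']
    clear_value s
    have hSelF : ∀ i, SelF D γ k (s i) := by
      intro i
      refine ⟨fun σ => ⟨z i σ - z i₀ σ, ?_⟩, ?_⟩
      · rw [hs1]
        abel
      · intro v hv ι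
        refine ⟨Q i v ι - Q i₀ v ι, fun g => ?_⟩
        have hr : ∀ x, g (ι x) = ι (rsH (M := v.Completion) ι g x) :=
          (hRes (RatFunc F) (Kgs F) v.Completion (Kvs v) ι).2.1 g
        generalize rsH (M := v.Completion) ι g = σ at hr
        exact selF_loc hFVn hγ _ _ ι (σ : Kgs F →ₐ[RatFunc F] Kgs F)
          (g : Kvs v →ₐ[v.Completion] Kvs v) hr k (s i) (z i σ) (z i₀ σ) (Q i v ι) (Q i₀ v ι)
          (hs1 i σ) (hQ i v hv ι σ g hr) (hQ i₀ v hv ι σ g hr)
    have hfin := hF (Fintype.card {i : Fin n // (⟦i⟧ : Quotient r) = q})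
      (fun t => s ((Fintype.equivFin {i : Fin n // (⟦i⟧ : Quotient r) = q}).symm t))
      (fun t => hSelF _) ?_
    · exact hfin
    · rintro t t' htt' ⟨u, hu⟩
      obtain ⟨j, hj⟩ : ∃ j, j = (Fintype.equivFin {i : Fin n // (⟦i⟧ : Quotient r) = q}).symm t :=
        ⟨_, rfl⟩
      obtain ⟨j', hj'⟩ :
          ∃ j, j = (Fintype.equivFin {i : Fin n // (⟦i⟧ : Quotient r) = q}).symm t' := ⟨_, rfl⟩
      have hne' : (j : Fin n) ≠ (j' : Fin n) := by
        intro h
        have h1 : j = j' := Subtype.ext h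
        rw [hj, hj'] at h1
        exact htt' ((Fintype.equivFin _).symm.injective h1)
      have hu' : s j - s j' = Fn D γ k u := by
        rw [hj, hj']
        exact hu
      refine hne _ _ hne' ⟨u, fun σ => ?_, ?_⟩
      · apply finj k
        have e1 : z j σ - z j' σ = (z j σ - z i₀ σ) - (z j' σ - z i₀ σ) :=
          (sub_sub_sub_cancel_right _ _ _).symm
        rw [e1, d_fsub hFVn hγ, hs1, hs1, d_fsub hFVn hγ, ← natF, ← hu', hsub]
        exact sub_sub_sub_comm _ _ _ _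
      · have e1 : p j - p j' = (p j - p i₀) - (p j' - p i₀) :=
          (sub_sub_sub_cancel_right _ _ _).symm
        rw [e1, ← hs2, ← hs2, ← d_vsub hFVn hγ, hu', d_vf hFVn hγ]

end Pool.Agent.MP72W
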