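import Pool.Agent.Lib.MP_72e2e6_nt.W2.E.Spec

/-!
# MP_72e2e6_nt, theorem T3, module Fib: the functions with bounded poles and the family
-/

namespace Pool.Agent.MP72W

open Polynomial IntermediateField WeierstrassCurve

open scoped Classical

private lemma fib_two {F : Type} [Field F] [CharP F 2] : (2 : RatFunc F) = 0 := by
  have h : (2 : F) = 0 := CharTwo.two_eq_zero
  calc (2 : RatFunc F) = RatFunc.C (2 : F) := (map_ofNat _ 2).symm
    _ = 0 := by rw [h, map_zero]

/-- The map `y ↦ y ^ 2 + y`. -/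
private noncomputable def fib_wp (F : Type) [Field F] [CharP F 2] : RatFunc F →+ RatFunc F where
  toFun y := y ^ 2 + y
  map_zero' := by simp
  map_add' y y' := by
    linear_combination (y * y') * (fib_two (F := F))

private lemma fib_wp_apply {F : Type} [Field F] [CharP F 2] (y : RatFunc F) :
    fib_wp F y = y ^ 2 + y := rfl

section

variable {F : Type} [Field F] {PP : Finset F[X]} (hPP : ∀ P ∈ PP, P.Monic ∧ Irreducible P)
  (e : F[X] → ℕ) (n : ℕ)

include hPP

private lemma fib_N0 : algebraMap F[X] (RatFunc F) (∏ P ∈ PP, P ^ e P) ≠ 0 := by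
  rw [Ne, FaithfulSMul.algebraMap_eq_zero_iff]
  exact Finset.prod_ne_zero_iff.2 fun P hP => pow_ne_zero _ (hPP P hP).2.ne_zero

private lemma fib_deg : (∏ P ∈ PP, P ^ e P).natDegree = ∑ P ∈ PP, e P * P.natDegree := by
  rw [Polynomial.natDegree_prod_of_monic _ _ fun P hP => (hPP P hP).1.pow _]
  exact Finset.sum_congr rfl fun P hP => (hPP P hP).1.natDegree_pow _

omit hPP in
private lemma fib_zero : (0 : RatFunc F) ∈ Tw PP e n := ⟨0, by simp, by simp⟩

omit hPP in
private lemma fib_add {a b : RatFunc F} (ha : a ∈ Tw PP e n) (hb : b ∈ Tw PP e n) :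
    a + b ∈ Tw PP e n := by
  obtain ⟨g, hg, rfl⟩ := ha
  obtain ⟨g', hg', rfl⟩ := hb
  refine ⟨g + g', (Polynomial.natDegree_add_le _ _).trans (max_le hg hg'), ?_⟩
  rw [map_add, add_div]

omit hPP in
private lemma fib_sum {ι : Type} (s : Finset ι) (f : ι → RatFunc F)
    (h : ∀ i ∈ s, f i ∈ Tw PP e n) : ∑ i ∈ s, f i ∈ Tw PP e n :=
  Finset.sum_induction f (· ∈ Tw PP e n) (fun _ _ => fib_add e n) (fib_zero e n) h

private lemma fib_poly {p : F[X]} (hp : p.natDegree ≤ n) :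
    algebraMap F[X] (RatFunc F) p ∈ Tw PP e n := by
  refine ⟨p * ∏ P ∈ PP, P ^ e P, ?_, ?_⟩
  · refine Polynomial.natDegree_mul_le.trans ?_
    rw [fib_deg hPP e]
    exact Nat.add_le_add_right hp _
  · rw [map_mul, mul_div_assoc, div_self (fib_N0 hPP e), mul_one]

private lemma fib_frac {P : F[X]} (hP : P ∈ PP) {s : F[X]}
    (hs : s.degree < ((e P * P.natDegree : ℕ) : WithBot ℕ)) :
    algebraMap F[X] (RatFunc F) s / algebraMap F[X] (RatFunc F) P ^ e P ∈ Tw PP e n := by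
  have hN := Finset.mul_prod_erase PP (fun P => P ^ e P) hP
  have hS := Finset.add_sum_erase PP (fun P => e P * P.natDegree) hP
  have hs' : s.natDegree ≤ e P * P.natDegree := by
    rcases eq_or_ne s 0 with rfl | h0
    · simp
    · rw [Polynomial.degree_eq_natDegree h0] at hs
      exact (by exact_mod_cast hs : s.natDegree < e P * P.natDegree).le
  refine ⟨s * ∏ Q ∈ PP.erase P, Q ^ e Q, ?_, ?_⟩
  · refine Polynomial.natDegree_mul_le.trans ?_
    rw [fib_deg (PP := PP.erase P) (fun Q hQ => hPP Q (Finset.mem_of_mem_erase hQ)) e]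
    omega
  · have h0 : algebraMap F[X] (RatFunc F) P ≠ 0 := by
      rw [Ne, FaithfulSMul.algebraMap_eq_zero_iff]
      exact (hPP P hP).2.ne_zero
    have h1 : algebraMap F[X] (RatFunc F) (∏ Q ∈ PP.erase P, Q ^ e Q) ≠ 0 :=
      fib_N0 (fun Q hQ => hPP Q (Finset.mem_of_mem_erase hQ)) e
    rw [← hN, map_mul, map_mul, map_pow]
    field_simp

private lemma fib_Dw (κ : F) (e' : Option PP → ℕ) (h0 : e' none = n)
    (h1 : ∀ P : PP, e' (some P) = e P) (w : Option PP) {D : RatFunc F}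
    (hD : D ∈ Dw κ w (e' w)) : D ∈ Tw PP e n := by
  cases w with
  | none =>
    rw [h0] at hD
    obtain ⟨c, rfl⟩ := hD
    refine fib_add e n (fib_sum e n _ _ fun i hi => ?_) ?_
    · have h2 : RatFunc.C (c i) * RatFunc.X ^ (2 * i + 1) =
          algebraMap F[X] (RatFunc F) (C (c i) * X ^ (2 * i + 1)) := by
        rw [map_mul, map_pow, RatFunc.algebraMap_X, RatFunc.algebraMap_C]
      rw [h2]
      refine fib_poly hPP e n ((Polynomial.natDegree_C_mul_X_pow_le _ _).trans ?_)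
      have := Finset.mem_range.1 hi
      omega
    · split_ifs
      · rw [← RatFunc.algebraMap_C]
        exact fib_poly hPP e n (by simp)
      · exact fib_zero e n
  | some P =>
    rw [h1 P] at hD
    obtain ⟨a, ha, rfl⟩ := hD
    refine fib_sum e n _ _ fun i hi => ?_
    have hi' := Finset.mem_range.1 hi
    have hP0 : algebraMap F[X] (RatFunc F) P.1 ≠ 0 := by
      rw [Ne, FaithfulSMul.algebraMap_eq_zero_iff]
      exact (hPP P.1 P.2).2.ne_zero
    obtain ⟨r, hr⟩ : ∃ r, e P.1 = (2 * i + 1) + r := ⟨e P.1 - (2 * i + 1), by omega⟩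
    have h2 : algebraMap F[X] (RatFunc F) (a i) / algebraMap F[X] (RatFunc F) P.1 ^ (2 * i + 1) =
        algebraMap F[X] (RatFunc F) (a i * P.1 ^ r) / algebraMap F[X] (RatFunc F) P.1 ^ e P.1 := by
      rw [hr, map_mul, map_pow, pow_add]
      field_simp
      ring
    rw [h2]
    refine fib_frac hPP e n P.2 ?_
    rcases eq_or_ne (a i) 0 with h3 | h3
    · rw [h3, zero_mul, Polynomial.degree_zero]
      exact WithBot.bot_lt_coe _
    · have h4 : (a i).natDegree < P.1.natDegree := by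
        have := ha i
        rwa [Polynomial.degree_eq_natDegree h3,
          Polynomial.degree_eq_natDegree (hPP P.1 P.2).2.ne_zero, Nat.cast_lt] at this
      have h5 : a i * P.1 ^ r ≠ 0 := mul_ne_zero h3 (pow_ne_zero _ (hPP P.1 P.2).2.ne_zero)
      rw [Polynomial.degree_eq_natDegree h5, Nat.cast_lt,
        Polynomial.natDegree_mul h3 (pow_ne_zero _ (hPP P.1 P.2).2.ne_zero),
        Polynomial.natDegree_pow, hr]
      nlinarith

private lemma fib_fin [Finite F] : (Tw PP e n).Finite := by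
  have h1 : Finite (Polynomial.degreeLT F (n + ∑ P ∈ PP, e P * P.natDegree + 1)) :=
    Finite.of_equiv _ (Polynomial.degreeLTEquiv F _).symm.toEquiv
  have h2 : ((Polynomial.degreeLT F (n + ∑ P ∈ PP, e P * P.natDegree + 1) : Submodule F F[X]) :
      Set F[X]).Finite := Set.toFinite _
  refine (h2.image fun g => algebraMap F[X] (RatFunc F) g /
    algebraMap F[X] (RatFunc F) (∏ P ∈ PP, P ^ e P)).subset ?_
  rintro _ ⟨g, hg, rfl⟩
  refine ⟨g, ?_, rfl⟩
  rw [SetLike.mem_coe, Polynomial.mem_degreeLT]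
  exact (Polynomial.degree_le_natDegree).trans_lt (by exact_mod_cast Nat.lt_succ_of_le hg)

private lemma fib_AS {D : RatFunc F} (hD : D ∈ Tw PP e n) : D ∈ AS PP := by
  obtain ⟨g, -, rfl⟩ := hD
  refine ⟨∑ P ∈ PP, e P, g * ∏ P ∈ PP, P ^ ((∑ Q ∈ PP, e Q) - e P), ?_⟩
  have h1 : (∏ P ∈ PP, P) ^ (∑ P ∈ PP, e P) =
      (∏ P ∈ PP, P ^ e P) * ∏ P ∈ PP, P ^ ((∑ Q ∈ PP, e Q) - e P) := by
    rw [← Finset.prod_pow, ← Finset.prod_mul_distrib]
    refine Finset.prod_congr rfl fun P hP => ?_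
    rw [← pow_add]
    congr 1
    have := Finset.single_le_sum (f := e) (fun _ _ => Nat.zero_le _) hP
    omega
  rw [h1, map_mul, map_mul, ← mul_assoc, div_mul_cancel₀ _ (fib_N0 hPP e)]

/-- Partial fractions with degrees. -/
private lemma fib_pf {D : RatFunc F} (hD : D ∈ Tw PP e n) : ∃ (q : F[X]) (r : PP → F[X]),
    q.natDegree ≤ n ∧ (∀ P : PP, (r P).degree < ((e P * P.1.natDegree : ℕ) : WithBot ℕ)) ∧
    D = algebraMap F[X] (RatFunc F) q + ∑ P : PP, algebraMap F[X] (RatFunc F) (r P) /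
      algebraMap F[X] (RatFunc F) P.1 ^ e P := by
  obtain ⟨g, hg, rfl⟩ := hD
  have hcop : Set.Pairwise (↑PP : Set F[X]) fun P Q => IsCoprime (P ^ e P) (Q ^ e Q) := by
    intro P hP Q hQ hPQ
    refine IsCoprime.pow ?_
    have h1 := hPP P hP
    have h2 := hPP Q hQ
    refine h1.2.coprime_iff_not_dvd.2 fun h => hPQ ?_
    exact Polynomial.eq_of_monic_of_associated h1.1 h2.1 (h1.2.associated_of_dvd h2.2 h)
  obtain ⟨q, r, hr, hfr⟩ := Polynomial.div_prod_eq_quo_add_sum_rem_div (RatFunc F) g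
    (s := PP) (g := fun P => P ^ e P) (fun P hP => (hPP P hP).1.pow _) hcop
  have hr' : ∀ P : PP, (r P.1).degree < ((e P * P.1.natDegree : ℕ) : WithBot ℕ) := by
    intro P
    have hm := (hPP P.1 P.2).1
    have := hr P.1 P.2
    rwa [Polynomial.degree_eq_natDegree ((hm.pow _).ne_zero), hm.natDegree_pow] at this
  have hS : ∑ P : PP, algebraMap F[X] (RatFunc F) (r P.1) /
      algebraMap F[X] (RatFunc F) P.1 ^ e P = ∑ P ∈ PP, algebraMap F[X] (RatFunc F) (r P) /
        algebraMap F[X] (RatFunc F) (P ^ e P) := by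
    rw [← Finset.sum_attach PP, Finset.univ_eq_attach]
    exact Finset.sum_congr rfl fun P _ => by rw [map_pow]
  rw [← map_prod] at hfr
  have hfr' : algebraMap F[X] (RatFunc F) g /
      algebraMap F[X] (RatFunc F) (∏ P ∈ PP, P ^ e P) = algebraMap F[X] (RatFunc F) q +
        ∑ P : PP, algebraMap F[X] (RatFunc F) (r P.1) /
          algebraMap F[X] (RatFunc F) P.1 ^ e P := by
    rw [hS]
    exact hfr
  refine ⟨q, fun P => r P.1, ?_, hr', hfr'⟩
  -- the degree of `q`
  have h1 : ∑ P : PP, algebraMap F[X] (RatFunc F) (r P.1) /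
      algebraMap F[X] (RatFunc F) P.1 ^ e P ∈ Tw PP e 0 :=
    fib_sum e 0 _ _ fun P _ => fib_frac hPP e 0 P.2 (hr' P)
  obtain ⟨g', hg', h2⟩ := h1
  rw [h2] at hfr'
  have hN0 := fib_N0 hPP e
  have h3 : algebraMap F[X] (RatFunc F) (q * ∏ P ∈ PP, P ^ e P) =
      algebraMap F[X] (RatFunc F) (g - g') := by
    rw [map_mul, map_sub]
    field_simp at hfr'
    rw [hfr']
    ring
  have h4 := FaithfulSMul.algebraMap_injective F[X] (RatFunc F) h3
  rcases eq_or_ne q 0 with rfl | hq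
  · simp
  have hNm : (∏ P ∈ PP, P ^ e P).Monic :=
    Polynomial.monic_prod_of_monic _ _ fun P hP => (hPP P hP).1.pow _
  have h5 : (q * ∏ P ∈ PP, P ^ e P).natDegree ≤ n + ∑ P ∈ PP, e P * P.natDegree := by
    rw [h4]
    refine (Polynomial.natDegree_sub_le _ _).trans (max_le hg (hg'.trans ?_))
    omega
  rw [Polynomial.natDegree_mul hq hNm.ne_zero, fib_deg hPP e] at h5
  omega

end

theorem tFib : S_Fin2 → S_PfP → S_PfI → S_Dgr → S_Asr → S_Off → S_Ids → S_Fib := by
  intro hFin hPfP hPfI _hDgr hAsr _hOff hIds F _ _ _ κ hκ PP hPP A hA e n e' h0 h1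
  refine ⟨fib_fin hPP e n, fun D hD => fib_AS hPP e n hD, ?_⟩
  obtain ⟨hI1, hI2, hI3, -⟩ := hIds F κ hκ PP hPP A hA
  obtain ⟨-, -, -, -, -, -, hAD⟩ := hAsr F κ PP hPP
  have hneg : ∀ a : RatFunc F, -a = a := fun a => by
    linear_combination (-a) * (fib_two (F := F))
  -- elements of the family
  have hmem : ∀ x ∈ (famC κ A).D e', (x : RatFunc F) ∈ Tw PP e n := by
    intro x hx
    obtain ⟨D, hD, hxD⟩ := (hI1 e' x).1 hx
    rw [hxD]
    exact fib_sum e n _ _ fun w _ => fib_Dw hPP e n κ e' h0 h1 w (hD w)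
  set kc : ZMod 2 → RatFunc F := fun c => if c = 0 then 0 else RatFunc.C κ with hkc
  have hkmem : ∀ c, kc c ∈ Tw PP e n := by
    intro c
    simp only [hkc]
    split_ifs
    · exact fib_zero e n
    · rw [← RatFunc.algebraMap_C]
      exact fib_poly hPP e n (by simp)
  have hksub : ∀ c c' : ZMod 2, kc c - kc c' = if c - c' = 0 then 0 else RatFunc.C κ := by
    have h01 : ∀ z : ZMod 2, z = 0 ∨ z = 1 := by decide
    have h2 : (1 : ZMod 2) ≠ 0 := by decide
    have h3 : (0 : ZMod 2) - 1 ≠ 0 := by decide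
    intro c c'
    rcases h01 c with rfl | rfl <;> rcases h01 c' with rfl | rfl <;> simp [hkc, hneg]
  -- surjectivity
  have hsurj : ∀ D ∈ Tw PP e n, ∃ x ∈ (famC κ A).D e', ∃ (c : ZMod 2) (y : RatFunc F),
      D = (x : RatFunc F) + kc c + (y ^ 2 + y) := by
    intro D hD
    obtain ⟨q, r, hq, hr, hDe⟩ := fib_pf hPP e n hD
    have hP : ∀ P : PP, ∃ D ∈ DP P.1 (e P), ∃ s : F[X],
        algebraMap F[X] (RatFunc F) (r P) / algebraMap F[X] (RatFunc F) P.1 ^ e P = D +
          ((algebraMap F[X] (RatFunc F) s / algebraMap F[X] (RatFunc F) P.1 ^ e P) ^ 2 +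
            algebraMap F[X] (RatFunc F) s / algebraMap F[X] (RatFunc F) P.1 ^ e P) := by
      intro P
      obtain ⟨D, hD, s, -, hs⟩ := hPfP F P.1 (hPP P.1 P.2).1 (hPP P.1 P.2).2 (e P) (r P) (hr P)
      exact ⟨D, hD, s, hs⟩
    choose DP' hDP' sP hsP using hP
    obtain ⟨D0, hD0, c, s0, -, hq0⟩ := hPfI F κ n q hq
    obtain ⟨z, hz⟩ := (hFin F).2.2 c κ hκ
    obtain ⟨c', hc'⟩ : ∃ c' : ZMod 2, RatFunc.C c = kc c' + fib_wp F (RatFunc.C z) := by
      rcases hz with h | h
      · refine ⟨0, ?_⟩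
        simp [hkc, fib_wp_apply, h]
      · refine ⟨1, ?_⟩
        have h2 : (1 : ZMod 2) ≠ 0 := by decide
        simp only [hkc, if_neg h2, fib_wp_apply]
        rw [h, map_add, map_add, map_pow]
        ring
    set D' : Option PP → RatFunc F := fun w => match w with
      | none => D0
      | some P => DP' P with hD'
    have hD'm : ∀ w, D' w ∈ Dw κ w (e' w) := by
      intro w
      rcases w with _ | P
      · rw [h0]
        exact hD0
      · rw [h1 P]
        exact hDP' P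
    have hsum : ∑ w, D' w ∈ AS PP := sum_mem fun w _ => hAD w (e' w) _ (hD'm w)
    refine ⟨⟨∑ w, D' w, hsum⟩, (hI1 e' _).2 ⟨D', hD'm, rfl⟩, c',
      algebraMap F[X] (RatFunc F) s0 + RatFunc.C z +
        ∑ P : PP, algebraMap F[X] (RatFunc F) (sP P) / algebraMap F[X] (RatFunc F) P.1 ^ e P, ?_⟩
    rw [← fib_wp_apply, map_add, map_add, map_sum, hDe, hq0, hc']
    have h3 : ∑ P : PP, algebraMap F[X] (RatFunc F) (r P) /
        algebraMap F[X] (RatFunc F) P.1 ^ e P = ∑ P : PP, DP' P + ∑ P : PP,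
        fib_wp F (algebraMap F[X] (RatFunc F) (sP P) / algebraMap F[X] (RatFunc F) P.1 ^ e P) := by
      rw [← Finset.sum_add_distrib]
      exact Finset.sum_congr rfl fun P _ => hsP P
    have h4 : ∑ w, D' w = D0 + ∑ P : PP, DP' P := by
      rw [Fintype.sum_option]
    rw [h3, ← fib_wp_apply]
    show _ = ∑ w, D' w + _ + _
    rw [h4]
    ring
  -- injectivity
  have hinj : ∀ x ∈ (famC κ A).D e', ∀ x' ∈ (famC κ A).D e', ∀ (c c' : ZMod 2)
      (y y' : RatFunc F), (x : RatFunc F) + kc c + (y ^ 2 + y) =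
        (x' : RatFunc F) + kc c' + (y' ^ 2 + y') → x = x' ∧ c = c' := by
    intro x hx x' hx' c c' y y' heq
    obtain ⟨D, hD, hxD⟩ := (hI1 e' (x - x')).1 (sub_mem hx hx')
    have h2 : (∑ w, D w) + (if c - c' = 0 then 0 else RatFunc.C κ) =
        (y' - y) ^ 2 + (y' - y) := by
      rw [← hxD, ← hksub]
      push_cast
      linear_combination heq + (y * y' - y ^ 2) * (fib_two (F := F))
    obtain ⟨h3, h4⟩ := hI2 e' D hD _ _ h2
    refine ⟨?_, sub_eq_zero.1 h4⟩
    have h5 : ((x - x' : AS PP) : RatFunc F) = 0 := by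
      rw [hxD]
      exact Finset.sum_eq_zero fun w _ => h3 w
    have h6 : x - x' = 0 := Subtype.ext h5
    exact sub_eq_zero.1 h6
  -- the fibre
  set Z : Set (RatFunc F) := {z | z ∈ Tw PP e n ∧ ∃ y, z = y ^ 2 + y} with hZ
  have hZf : Z.Finite := (fib_fin hPP e n).subset fun z hz => hz.1
  have hZ0 : (0 : RatFunc F) ∈ Z := ⟨fib_zero e n, 0, by simp⟩
  have key : ∀ G : RatFunc F → Prop, (∀ D y, G D → G (D + (y ^ 2 + y))) →
        {D ∈ Tw PP e n | ¬ G D}.ncard = Z.ncard *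
          ({x : AS PP | x ∈ (famC κ A).D e' ∧ ¬ G (x : RatFunc F)}.ncard +
            {x : AS PP | x ∈ (famC κ A).D e' ∧ ¬ G ((x : RatFunc F) + RatFunc.C κ)}.ncard) := by
    intro G hG
    have hG' : ∀ D y, G (D + (y ^ 2 + y)) ↔ G D := by
      refine fun D y => ⟨fun h => ?_, hG D y⟩
      have h2 := hG _ y h
      have h3 : D + (y ^ 2 + y) + (y ^ 2 + y) = D := by
        linear_combination (y ^ 2 + y) * (fib_two (F := F))
      rwa [h3] at h2
    set B : ZMod 2 → Set (AS PP) := fun c => {x : AS PP | x ∈ (famC κ A).D e' ∧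
      ¬ G ((x : RatFunc F) + kc c)} with hB
    have hBf : ∀ c, (B c).Finite := fun c => (hI3 e').subset fun x hx => hx.1
    set f : ZMod 2 → AS PP × RatFunc F → RatFunc F := fun c p => (p.1 : RatFunc F) + kc c + p.2
      with hf
    have hfi : ∀ c, Set.InjOn (f c) (B c ×ˢ Z) := by
      rintro c ⟨x, z⟩ ⟨hx, hz⟩ ⟨x', z'⟩ ⟨hx', hz'⟩ heq
      obtain ⟨-, y, rfl⟩ := hz
      obtain ⟨-, y', rfl⟩ := hz'
      obtain ⟨rfl, -⟩ := hinj x hx.1 x' hx'.1 c c y y' heq
      simp only [hf] at heq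
      have : y ^ 2 + y = y' ^ 2 + y' := add_left_cancel heq
      rw [Prod.mk.injEq]
      exact ⟨rfl, this⟩
    have hcard : ∀ c, (f c '' (B c ×ˢ Z)).ncard = (B c).ncard * Z.ncard := by
      intro c
      rw [Set.ncard_image_of_injOn (hfi c), Set.ncard_prod]
    have hfin : ∀ c, (f c '' (B c ×ˢ Z)).Finite := fun c => ((hBf c).prod hZf).image _
    have hdis : Disjoint (f 0 '' (B 0 ×ˢ Z)) (f 1 '' (B 1 ×ˢ Z)) := by
      rw [Set.disjoint_left]
      rintro _ ⟨⟨x, z⟩, ⟨hx, hz⟩, rfl⟩ ⟨⟨x', z'⟩, ⟨hx', hz'⟩, heq⟩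
      obtain ⟨-, y, rfl⟩ := hz
      obtain ⟨-, y', rfl⟩ := hz'
      obtain ⟨-, h2⟩ := hinj x' hx'.1 x hx.1 1 0 y' y heq
      exact absurd h2 (by decide)
    have hun : {D ∈ Tw PP e n | ¬ G D} = f 0 '' (B 0 ×ˢ Z) ∪ f 1 '' (B 1 ×ˢ Z) := by
      have hall : ∀ D, D ∈ {D ∈ Tw PP e n | ¬ G D} ↔ ∃ c, D ∈ f c '' (B c ×ˢ Z) := by
        intro D
        constructor
        · rintro ⟨hD, hGD⟩
          obtain ⟨x, hx, c, y, rfl⟩ := hsurj D hD
          rw [hG'] at hGD
          refine ⟨c, ⟨x, y ^ 2 + y⟩, ⟨⟨hx, hGD⟩, ?_, y, rfl⟩, rfl⟩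
          have h2 : y ^ 2 + y = ((x : RatFunc F) + kc c + (y ^ 2 + y)) +
              ((x : RatFunc F) + kc c) := by
            linear_combination (-(x : RatFunc F) - kc c) * (fib_two (F := F))
          show y ^ 2 + y ∈ Tw PP e n
          rw [h2]
          exact fib_add e n hD (fib_add e n (hmem x hx) (hkmem c))
        · rintro ⟨c, ⟨x, z⟩, ⟨hx, hz⟩, rfl⟩
          obtain ⟨hz1, y, rfl⟩ := hz
          refine ⟨fib_add e n (fib_add e n (hmem x hx.1) (hkmem c)) hz1, ?_⟩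
          show ¬ G ((x : RatFunc F) + kc c + (y ^ 2 + y))
          rw [hG']
          exact hx.2
      ext D
      rw [hall D, Set.mem_union]
      constructor
      · rintro ⟨c, hc⟩
        have h01 : ∀ z : ZMod 2, z = 0 ∨ z = 1 := by decide
        rcases h01 c with rfl | rfl
        · exact Or.inl hc
        · exact Or.inr hc
      · rintro (h | h)
        · exact ⟨0, h⟩
        · exact ⟨1, h⟩
    rw [hun, Set.ncard_union_eq hdis (hfin 0) (hfin 1), hcard, hcard, ← add_mul, mul_comm]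
    have hB0 : B 0 = {x : AS PP | x ∈ (famC κ A).D e' ∧ ¬ G (x : RatFunc F)} := by
      simp [hB, hkc]
    have hB1 : B 1 = {x : AS PP | x ∈ (famC κ A).D e' ∧
        ¬ G ((x : RatFunc F) + RatFunc.C κ)} := by
      simp [hB, hkc]
    rw [hB0, hB1]
  refine ⟨Z.ncard, ?_, ?_, key⟩
  · exact (Set.ncard_pos hZf).2 ⟨0, hZ0⟩
  · have h2 := key (fun _ => False) (fun _ _ h => h)
    simp only [not_false_eq_true, and_true, Set.setOf_mem_eq] at h2
    rw [h2]
    have h3 : {x : AS PP | x ∈ (famC κ A).D e'}.ncard = Nat.card ((famC κ A).D e') := rfl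
    rw [h3]
    ring

end Pool.Agent.MP72W
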