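import Pool.Agent.Lib.MP_72e2e6_nt.W2.E.Spec

namespace Pool.Agent.MP72W

open Polynomial IntermediateField WeierstrassCurve

open scoped Classical

private lemma fr1_trans {N : ℕ} {L : Type} [Field L] {a b c : L} (h : EqN N a b)
    (h' : EqN N b c) : EqN N a c := by
  obtain ⟨s, hs, rfl⟩ := h
  obtain ⟨t, ht, rfl⟩ := h'
  exact ⟨t * s, mul_ne_zero ht hs, by rw [mul_pow]; ring⟩

private lemma fr1_symm {N : ℕ} {L : Type} [Field L] {a b : L} (h : EqN N a b) : EqN N b a := by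
  obtain ⟨s, hs, rfl⟩ := h
  refine ⟨s⁻¹, inv_ne_zero hs, ?_⟩
  rw [mul_assoc, ← mul_pow, mul_inv_cancel₀ hs, one_pow, mul_one]

private lemma fr1_cancel {N : ℕ} {L : Type} [Field L] {a b c : L} (h : EqN N a (c * b))
    (h' : EqN N a b) (hb : b ≠ 0) : EqN N c 1 := by
  obtain ⟨s, hs, e⟩ := h
  obtain ⟨t, ht, e'⟩ := h'
  refine ⟨t / s, div_ne_zero ht hs, ?_⟩
  rw [one_mul, div_pow, eq_div_iff (pow_ne_zero _ hs)]
  have : b * (c * s ^ N) = b * t ^ N := by rw [← e', e]; ring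
  exact mul_left_cancel₀ hb this

/-! ### The maps are additive for every instance of decidable equality -/

private lemma fr1_padd {K S L M : Type} [Field K] (W : WeierstrassCurve K) [Field S] [Field L]
    [Field M] [Algebra K S] [Algebra K L] [Algebra K M] [Algebra S L] [Algebra S M]
    [IsScalarTower K S L] [IsScalarTower K S M] (f : L →ₐ[S] M) {dL : DecidableEq L}
    {dM : DecidableEq M} (P Q : (W⁄L).toAffine.Point) :
    pmap W f (P + Q) = pmap W f P + pmap W f Q := by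
  have h1 : dL = fun a b => Classical.propDecidable (a = b) := Subsingleton.elim _ _
  have h2 : dM = fun a b => Classical.propDecidable (a = b) := Subsingleton.elim _ _
  subst h1
  subst h2
  exact map_add (pmap W f) P Q

private lemma fr1_psub {K S L M : Type} [Field K] (W : WeierstrassCurve K) [Field S] [Field L]
    [Field M] [Algebra K S] [Algebra K L] [Algebra K M] [Algebra S L] [Algebra S M]
    [IsScalarTower K S L] [IsScalarTower K S M] (f : L →ₐ[S] M) {dL : DecidableEq L}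
    {dM : DecidableEq M} (P Q : (W⁄L).toAffine.Point) :
    pmap W f (P - Q) = pmap W f P - pmap W f Q := by
  have h1 : dL = fun a b => Classical.propDecidable (a = b) := Subsingleton.elim _ _
  have h2 : dM = fun a b => Classical.propDecidable (a = b) := Subsingleton.elim _ _
  subst h1
  subst h2
  exact map_sub (pmap W f) P Q

section

variable (hFV : S_FV) (hFVh : S_FVh) {K : Type} [Field K] [CharP K 2] (D γ : K)
    (hγ : γ ≠ 0) (L : Type) [Field L] [Algebra K L] {dL : DecidableEq L}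

/-- `Fi` as a homomorphism. -/
private noncomputable def fr1H (dL : DecidableEq L) : Pt D γ 0 L →+ Pt D γ 1 L :=
  AddMonoidHom.mk' (Fi D γ 0) (by
    have h1 : dL = fun a b => Classical.propDecidable (a = b) := Subsingleton.elim _ _
    subst h1
    exact (hFVh K D γ hγ 0 L).1)

include hFVh hγ in
private lemma fr1_Fadd (P Q : Pt D γ 0 L) :
    Fi D γ 0 (P + Q) = (Fi D γ 0 P + Fi D γ 0 Q : Pt D γ 1 L) :=
  (fr1H hFVh D γ hγ L dL).map_add P Q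

include hFVh hγ in
private lemma fr1_Fsub (P Q : Pt D γ 0 L) :
    Fi D γ 0 (P - Q) = (Fi D γ 0 P - Fi D γ 0 Q : Pt D γ 1 L) :=
  (fr1H hFVh D γ hγ L dL).map_sub P Q

include hFVh hγ in
private lemma fr1_Fsmul (n : ℕ) (P : Pt D γ 0 L) :
    Fi D γ 0 (n • P) = (n • Fi D γ 0 P : Pt D γ 1 L) :=
  (fr1H hFVh D γ hγ L dL).map_nsmul n P

end

private lemma fr1_map (hFVh : S_FVh) {K : Type} [Field K] [CharP K 2] (D γ : K)
    (hγ : γ ≠ 0) (L : Type) [Field L] [Algebra K L] (S M : Type) [Field S] [Field M] [Algebra K S]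
    [Algebra K M] [Algebra S L] [Algebra S M] [IsScalarTower K S L] [IsScalarTower K S M]
    (f : L →ₐ[S] M) (P : Pt D γ 0 L) :
    pmap (EE D γ 1) f (Fi D γ 0 P) = Fi D γ 0 (pmap (EE D γ 0) f P) :=
  ((hFVh K D γ hγ 0 L).2.2.2.2 S M f).1 P

private lemma fr1_nat (hFVh : S_FVh) {K : Type} [Field K] [CharP K 2] (D γ : K) (hγ : γ ≠ 0)
    (z : Gal(SeparableClosure K/K) → Pt D γ 0 (SeparableClosure K)) (hz : InSha (EE D γ 0) z) :
    InSha (EE D γ 1) (fun σ => Fi D γ 0 (z σ)) := by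
  refine ⟨⟨IsLocallyConstant.comp hz.1.loc (fun P => Fi D γ 0 P), ?_⟩, ?_⟩
  · intro σ τ
    rw [hz.1.mul, fr1_Fadd hFVh D γ hγ, fr1_map hFVh D γ hγ]
  · intro v hv ι
    obtain ⟨Q, hQ⟩ := hz.2 v hv ι
    refine ⟨Fi D γ 0 Q, ?_⟩
    intro σ τ hστ
    rw [fr1_map hFVh D γ hγ, fr1_map hFVh D γ hγ, hQ σ τ hστ, fr1_Fsub hFVh D γ hγ]

private lemma fr1_comp (hPts : S_Pts) (hMap : S_Map) {K : Type} [Field K] [CharP K 2] (D γ : K)
    (hγ : γ ≠ 0) (j : ℕ) {Ks Kv Kvs : Type} [Field Ks] [Field Kv] [Field Kvs] [Algebra K Ks]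
    [Algebra K Kv] [Algebra Kv Kvs] [Algebra K Kvs] [IsScalarTower K Kv Kvs]
    (ι : Ks →ₐ[K] Kvs) (g : Kvs →ₐ[Kv] Kvs) (σ : Ks →ₐ[K] Ks) (h : ∀ x, g (ι x) = ι (σ x))
    (P : Pt D γ j Ks) :
    pmap (EE D γ j) g (pmap (EE D γ j) ι P) = pmap (EE D γ j) ι (pmap (EE D γ j) σ P) := by
  obtain ⟨hE, -, -, hch, hm⟩ := hMap K D γ hγ j Ks
  obtain ⟨hE', -, -, hch', hm'⟩ := hMap K D γ hγ j Kvs
  rcases (hPts Ks _ hE).1 P with rfl | ⟨x, y, hxy⟩
  · simp only [map_zero]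
  · have h1 := (hm' Kv Kvs g).1 _ _ _ ((hm K Kvs ι).1 P x y hxy)
    have h2 := (hm K Kvs ι).1 _ _ _ ((hm K Ks σ).1 P x y hxy)
    rw [h, h] at h1
    exact (hPts Kvs _ hE').2.2.2.1 _ _ _ _ h1 h2

private lemma fr1_fin (hFV : S_FV) {K : Type} [Field K] [CharP K 2] (D γ : K) (hγ : γ ≠ 0)
    (h : Finite (EE D γ 1).toAffine.Point) : Finite (EE D γ 0).toAffine.Point := by
  have e0 : (EE D γ 0)⁄K = EE D γ 0 := WeierstrassCurve.map_id _
  have e1 : (EE D γ 1)⁄K = EE D γ 1 := WeierstrassCurve.map_id _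
  have h1 : Finite ((EE D γ 1)⁄K).toAffine.Point := by rw [e1]; exact h
  have h2 : Finite ((EE D γ 0)⁄K).toAffine.Point :=
    Finite.of_injective (Fi D γ 0 : Pt D γ 0 K → Pt D γ 1 K)
      (fun P Q h => (hFV K D γ hγ 0 K).2.2.1 P Q h)
  rw [e0] at h2
  exact h2

private lemma fr1_smul {K : Type} [Field K] (D γ : K) {L : Type} [Field L] [Algebra K L]
    {d : DecidableEq L} (k : ℕ) (R : Pt D γ k L) (h : R ≠ 0) : 2 ^ 0 • R ≠ 0 := by
  rw [pow_zero, one_smul]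
  exact h

private lemma fr1_wt {K : Type} [Field K] (D γ : K) {L : Type} [Field L] [Algebra K L]
    {d : DecidableEq L} {k : ℕ} {R : Pt D γ k L} {w : Pt D γ k L → L} (h : IsWt D γ k R w)
    (p q : Pt D γ k L) : EqN (2 ^ k) (w p) (w (p - q) * w q) := by
  have h1 : d = fun a b => Classical.propDecidable (a = b) := Subsingleton.elim _ _
  subst h1
  have h2 := h.add (p - q) q
  rw [sub_add_cancel] at h2
  exact h2

theorem tFr1 (hSep : S_Sep) (hRes : S_Res) (_hTwb : S_Twb) (_hAsr : S_Asr) (hPts : S_Pts)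
    (hMap : S_Map) (hFV : S_FV) (hFVh : S_FVh) (_hFVn : S_FVn) (hWt : S_Wt) (hAdF : S_AdF)
    (hShg : S_Shg) (hAd1 : S_Ad1) : S_Fr1 := by
  intro F _ _ _ PP hPP D γ hD hγA hγi hγ hGd
  haveI : CharP (RatFunc F) 2 :=
    charP_of_injective_algebraMap (algebraMap F (RatFunc F)).injective 2
  obtain ⟨hfin, T₁, hT₁, hT⟩ := hGd
  refine ⟨fr1_fin hFV D γ hγ hfin, ?_⟩
  haveI : Infinite (RatFunc F) := Infinite.of_injective (algebraMap F[X] (RatFunc F))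
    (RatFunc.algebraMap_injective F)
  haveI : Infinite (Kgs F) := Infinite.of_injective (algebraMap (RatFunc F) (Kgs F))
    (algebraMap (RatFunc F) (Kgs F)).injective
  have hASC : ASC (Kgs F) := (hSep (RatFunc F)).2.1
  obtain ⟨hE1, -, ha6, hch, hm1⟩ := hMap (RatFunc F) D γ hγ 1 (Kgs F)
  -- the point R
  obtain ⟨R, hR⟩ : ∃ R : Pt D γ 1 (Kgs F), XY R 0 (algebraMap (RatFunc F) (Kgs F) γ) := by
    refine (hPts (Kgs F) _ hE1).2.2.1 0 _ ?_
    rw [ha6, map_pow]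
    ring
  have hR0 := (hPts (Kgs F) _ hE1).2.1 R _ _ hR
  have hIsR : IsR D γ 1 R := by
    refine ⟨(hFV (RatFunc F) D γ hγ 0 (Kgs F)).2.2.2.2.1 R _ hR, ?_⟩
    intro n hn
    have : n = 0 := by omega
    subst this
    exact fr1_smul D γ 1 R hR0.1
  have hCIn : CIn R (Om (AS PP) (RatFunc F) (Kgs F) : Set (Kgs F)) := by
    constructor
    · rw [hR0.2.1]
      exact zero_mem _
    · rw [hR0.2.2.1]
      exact IntermediateField.algebraMap_mem _ _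
  have hgal : ∀ σ : Gal(Kgs F/RatFunc F),
      pmap (EE D γ 1) (σ : Kgs F →ₐ[RatFunc F] Kgs F) R =
        ((fun _ => 1 : GS PP → ZMod (2 ^ 1)) (rG PP σ)).val • R := by
    intro σ
    have h1 := (hm1 (RatFunc F) (Kgs F) (σ : Kgs F →ₐ[RatFunc F] Kgs F)).1 R _ _ hR
    rw [map_zero, AlgHom.commutes] at h1
    have h2 : ((1 : ZMod (2 ^ 1)).val) = 1 := by decide
    rw [(hPts (Kgs F) _ hE1).2.2.2.1 _ _ _ _ h1 hR]
    change R = (1 : ZMod (2 ^ 1)).val • R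
    rw [h2, one_smul]
  obtain ⟨w, hw⟩ := hWt (RatFunc F) D γ hγ (Kgs F) hASC inferInstance 1 R hIsR
  obtain ⟨G₀, hG₀, hG⟩ := hAd1 F PP hPP
  obtain ⟨-, hadd, hneg, -, -⟩ := hShg (RatFunc F) (EE D γ 0)
  set φ : Pt D γ 0 (Kgs F) → Pt D γ 1 (Kgs F) := fun P => Fi D γ 0 P with hφ
  have hφinj : Function.Injective φ := fun P Q h =>
    (hFV (RatFunc F) D γ hγ 0 (Kgs F)).2.2.1 P Q h
  have hφsub : ∀ P Q : Pt D γ 0 (Kgs F), φ (P - Q) = φ P - φ Q := fun P Q =>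
    fr1_Fsub hFVh D γ hγ (Kgs F) P Q
  have hφmap : ∀ (σ : Gal(Kgs F/RatFunc F)) (P : Pt D γ 0 (Kgs F)),
      pmap (EE D γ 1) (σ : Kgs F →ₐ[RatFunc F] Kgs F) (φ P) =
        φ (pmap (EE D γ 0) (σ : Kgs F →ₐ[RatFunc F] Kgs F) P) := fun σ P =>
    fr1_map hFVh D γ hγ (Kgs F) (RatFunc F) (Kgs F) _ P
  -- choices
  have hZ : ∀ y : Gal(Kgs F/RatFunc F) → Pt D γ 1 (Kgs F), ∃ zy : Gal(Kgs F/RatFunc F) →
      Pt D γ 0 (Kgs F), (∃ z, InSha (EE D γ 0) z ∧ ∃ P' : Pt D γ 1 (Kgs F), ∀ σ,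
        φ (z σ) - y σ = pmap (EE D γ 1) (σ : Kgs F →ₐ[RatFunc F] Kgs F) P' - P') →
      InSha (EE D γ 0) zy ∧ ∃ P' : Pt D γ 1 (Kgs F), ∀ σ,
        φ (zy σ) - y σ = pmap (EE D γ 1) (σ : Kgs F →ₐ[RatFunc F] Kgs F) P' - P' := by
    intro y
    by_cases h : ∃ z, InSha (EE D γ 0) z ∧ ∃ P' : Pt D γ 1 (Kgs F), ∀ σ,
        φ (z σ) - y σ = pmap (EE D γ 1) (σ : Kgs F →ₐ[RatFunc F] Kgs F) P' - P'
    · obtain ⟨z, hz⟩ := h
      exact ⟨z, fun _ => hz⟩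
    · exact ⟨fun _ => 0, fun h' => absurd h' h⟩
  choose Z hZ using hZ
  have hX : ∀ g : Kgs F, ∃ x : Gal(Kgs F/RatFunc F) → Pt D γ 0 (Kgs F),
      (∃ (x : Gal(Kgs F/RatFunc F) → Pt D γ 0 (Kgs F)) (P' : Pt D γ 1 (Kgs F)),
        EqN 2 (w P') g ∧ ∀ σ, φ (x σ) =
          pmap (EE D γ 1) (σ : Kgs F →ₐ[RatFunc F] Kgs F) P' - P') →
      ∃ P' : Pt D γ 1 (Kgs F), EqN 2 (w P') g ∧ ∀ σ, φ (x σ) =
          pmap (EE D γ 1) (σ : Kgs F →ₐ[RatFunc F] Kgs F) P' - P' := by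
    intro g
    by_cases h : ∃ (x : Gal(Kgs F/RatFunc F) → Pt D γ 0 (Kgs F)) (P' : Pt D γ 1 (Kgs F)),
        EqN 2 (w P') g ∧ ∀ σ, φ (x σ) =
          pmap (EE D γ 1) (σ : Kgs F →ₐ[RatFunc F] Kgs F) P' - P'
    · obtain ⟨x, hx⟩ := h
      exact ⟨x, fun _ => hx⟩
    · exact ⟨fun _ => 0, fun h' => absurd h' h⟩
  choose X hX using hX
  refine ⟨(fun q : (Gal(Kgs F/RatFunc F) → Pt D γ 1 (Kgs F)) × Kgs F => fun σ =>
    Z q.1 σ + X q.2 σ) '' (T₁ ×ˢ G₀), (hT₁.prod hG₀).image _, ?_⟩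
  rintro z hz ⟨n, P, hnP⟩
  obtain ⟨y, hy, P1, hP1⟩ := hT (fun σ => φ (z σ)) (fr1_nat hFVh D γ hγ z hz) ⟨n, φ P, by
    intro σ
    change 2 ^ n • φ (z σ) = pmap (EE D γ 1) (σ : Kgs F →ₐ[RatFunc F] Kgs F) (φ P) - φ P
    rw [hφmap, ← hφsub, ← hnP]
    exact (fr1_Fsmul hFVh D γ hγ (Kgs F) (2 ^ n) (z σ)).symm⟩
  obtain ⟨hzy, P2, hP2⟩ := hZ y ⟨z, hz, P1, hP1⟩
  -- u = z - z_y
  have hu : InSha (EE D γ 0) (fun σ => z σ - Z y σ) := by
    have := hadd z _ hz (hneg _ hzy)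
    simp only [← sub_eq_add_neg] at this
    exact this
  have huP : ∀ σ : Gal(Kgs F/RatFunc F), φ (z σ - Z y σ) =
      pmap (EE D γ 1) (σ : Kgs F →ₐ[RatFunc F] Kgs F) (P1 - P2) - (P1 - P2) := by
    intro σ
    have e1 := hP1 σ
    have e2 := hP2 σ
    have e0 : pmap (EE D γ 1) (σ : Kgs F →ₐ[RatFunc F] Kgs F) (P1 - P2) =
        pmap (EE D γ 1) (σ : Kgs F →ₐ[RatFunc F] Kgs F) P1 -
          pmap (EE D γ 1) (σ : Kgs F →ₐ[RatFunc F] Kgs F) P2 := fr1_psub _ _ _ _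
    rw [hφsub, e0]
    have e3 : φ (z σ) = y σ + (pmap (EE D γ 1) (σ : Kgs F →ₐ[RatFunc F] Kgs F) P1 - P1) := by
      rw [← e1]; abel
    have e4 : φ (Z y σ) = y σ + (pmap (EE D γ 1) (σ : Kgs F →ₐ[RatFunc F] Kgs F) P2 - P2) := by
      rw [← e2]; abel
    rw [e3, e4]
    abel
  set P' := P1 - P2 with hP'
  have hSel : SelF D γ 1 P' := by
    constructor
    · intro σ
      refine ⟨z σ - Z y σ, ?_⟩
      change _ = P' + φ (z σ - Z y σ)
      rw [huP]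
      abel
    · intro v hv ι
      obtain ⟨Q, hQ⟩ := hu.2 v hv ι
      refine ⟨Q, ?_⟩
      intro g
      have hr := (hRes (RatFunc F) (Kgs F) v.Completion (Kvs v) ι).2.1 g
      have e1 := hQ (rsH (M := v.Completion) ι g) g hr
      have e2 := fr1_comp hPts hMap D γ hγ 1 ι (g : Kvs v →ₐ[v.Completion] Kvs v)
        ((rsH (M := v.Completion) ι g : Gal(Kgs F/RatFunc F)) : Kgs F →ₐ[RatFunc F] Kgs F) hr P'
      have e3 : pmap (EE D γ 1)
          ((rsH (M := v.Completion) ι g : Gal(Kgs F/RatFunc F)) : Kgs F →ₐ[RatFunc F] Kgs F) P' =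
          P' + φ (z (rsH (M := v.Completion) ι g) - Z y (rsH (M := v.Completion) ι g)) := by
        rw [huP]
        abel
      change pmap (EE D γ 1) (g : Kvs v →ₐ[v.Completion] Kvs v)
        (pmap (EE D γ 1) ι P' - Fi D γ 0 Q) = pmap (EE D γ 1) ι P' - Fi D γ 0 Q
      have e4 : pmap (EE D γ 1) (g : Kvs v →ₐ[v.Completion] Kvs v)
          (pmap (EE D γ 1) ι P' - Fi D γ 0 Q) = pmap (EE D γ 1)
          (g : Kvs v →ₐ[v.Completion] Kvs v) (pmap (EE D γ 1) ι P') - pmap (EE D γ 1)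
          (g : Kvs v →ₐ[v.Completion] Kvs v) (Fi D γ 0 Q) := fr1_psub _ _ _ _
      have e5 : pmap (EE D γ 1) ι (P' + φ (z (rsH (M := v.Completion) ι g) -
          Z y (rsH (M := v.Completion) ι g))) = pmap (EE D γ 1) ι P' +
          pmap (EE D γ 1) ι (φ (z (rsH (M := v.Completion) ι g) -
          Z y (rsH (M := v.Completion) ι g))) := fr1_padd _ _ _ _
      have e6 : pmap (EE D γ 1) ι (φ (z (rsH (M := v.Completion) ι g) -
          Z y (rsH (M := v.Completion) ι g))) = Fi D γ 0 (pmap (EE D γ 0) ι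
          (z (rsH (M := v.Completion) ι g) - Z y (rsH (M := v.Completion) ι g))) :=
        fr1_map hFVh D γ hγ _ _ _ _ _
      rw [e4, e2, e3, e5, e6, fr1_map hFVh D γ hγ, e1, fr1_Fsub hFVh D γ hγ]
      abel
  have hAdm := hAdF F PP hPP D γ hD hγA hγi hγ 1 R hIsR hCIn (fun _ => 1) hgal w hw P' hSel
  obtain ⟨g, hg, hgw⟩ := hG _ hAdm
  obtain ⟨Pg, hPg, hPgx⟩ := hX g ⟨_, P', hgw, huP⟩
  have hker : EqN (2 ^ 1) (w (P' - Pg)) 1 := by
    refine fr1_cancel (fr1_wt D γ hw P' Pg) ?_ (hw.ne Pg)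
    exact fr1_trans hgw (fr1_symm hPg)
  obtain ⟨q, hq⟩ := (hw.ker (P' - Pg)).1 hker
  have hq' : P' - Pg = φ q := hq
  refine ⟨_, ⟨(y, g), ⟨hy, hg⟩, rfl⟩, q, ?_⟩
  intro σ
  apply hφinj
  change φ (z σ - (Z y σ + X g σ)) = _
  have e1 : z σ - (Z y σ + X g σ) = (z σ - Z y σ) - X g σ := by abel
  have e2 : pmap (EE D γ 1) (σ : Kgs F →ₐ[RatFunc F] Kgs F) (P' - Pg) =
      pmap (EE D γ 1) (σ : Kgs F →ₐ[RatFunc F] Kgs F) P' -
        pmap (EE D γ 1) (σ : Kgs F →ₐ[RatFunc F] Kgs F) Pg := fr1_psub _ _ _ _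
  rw [e1, hφsub, huP, hPgx, hφsub, ← hφmap, ← hq', e2]
  abel

end Pool.Agent.MP72W
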