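import Pool.Agent.Lib.MP_72e2e6_nt.W2.E.Spec

/-!
# MP_72e2e6_nt, theorem T3, part E: Fsh, finiteness of the `2`-primary part (helper53)
-/

namespace Pool.Agent.MP72W

open Polynomial IntermediateField WeierstrassCurve

open scoped Classical

section pm

variable {K S L M : Type} [Field K] (W : WeierstrassCurve K) [Field S] [Field L] [Field M]
  [Algebra K S] [Algebra K L] [Algebra K M] [Algebra S L] [Algebra S M]
  [IsScalarTower K S L] [IsScalarTower K S M]

private theorem fm_nsmul (I : DecidableEq L) (J : DecidableEq M) (f : L →ₐ[S] M) (n : ℕ)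
    (P : (W⁄L).toAffine.Point) : pmap W f (n • P) = n • pmap W f P := by
  obtain rfl : I = fun a b => Classical.propDecidable (a = b) := Subsingleton.elim _ _
  obtain rfl : J = fun a b => Classical.propDecidable (a = b) := Subsingleton.elim _ _
  exact map_nsmul (pmap W f) n P

private theorem fm_neg (f : L →ₐ[S] M)
    (P : (W⁄L).toAffine.Point) : pmap W f (-P) = -pmap W f P :=
  map_neg (pmap W f) P

private theorem fm_inj (f : L →ₐ[S] M) : Function.Injective (pmap W f) :=
  Affine.Point.map_injective (W' := W) f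

private theorem fm_fix (f : L →ₐ[S] L) {x y : L} (h : (W⁄L).toAffine.Nonsingular x y)
    (hf : pmap W f (Affine.Point.some x y h) = Affine.Point.some x y h) : f x = x ∧ f y = y := by
  unfold pmap at hf
  rw [Affine.Point.map_some, Affine.Point.some.injEq] at hf
  exact hf

private theorem fm_lift (f : L →ₐ[S] M) (x y : L)
    (h : (W⁄M).toAffine.Nonsingular (f x) (f y)) :
    ∃ P : (W⁄L).toAffine.Point, pmap W f P = Affine.Point.some (f x) (f y) h :=
  ⟨Affine.Point.some x y ((W.toAffine.baseChange_nonsingular f.injective x y).mp h), rfl⟩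

omit [Algebra S L] [IsScalarTower K S L] in
private theorem fm_ofId [Algebra L M] [IsScalarTower K L M] (s : M →ₐ[L] M)
    (P : (W⁄L).toAffine.Point) :
    pmap W s (pmap W (Algebra.ofId L M) P) = pmap W (Algebra.ofId L M) P := by
  cases P with
  | zero => rfl
  | some x y h =>
    unfold pmap
    rw [Affine.Point.map_some, Affine.Point.map_some, Affine.Point.some.injEq]
    exact ⟨s.commutes x, s.commutes y⟩

end pm

/-- points fixed by the Galois group -/
private theorem fsh_desc {K : Type} [Field K] (W : WeierstrassCurve K)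
    (m : (W⁄(SeparableClosure K)).toAffine.Point)
    (hm : ∀ σ : Gal(SeparableClosure K/K),
      pmap W (σ : SeparableClosure K →ₐ[K] SeparableClosure K) m = m) :
    ∃ e : (W⁄K).toAffine.Point, pmap W (Algebra.ofId K (SeparableClosure K)) e = m := by
  cases m with
  | zero => exact ⟨0, rfl⟩
  | some x y h =>
    have hx : x ∈ Set.range (algebraMap K (SeparableClosure K)) :=
      (InfiniteGalois.mem_range_algebraMap_iff_fixed x).2 fun σ => (fm_fix W _ h (hm σ)).1
    have hy : y ∈ Set.range (algebraMap K (SeparableClosure K)) :=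
      (InfiniteGalois.mem_range_algebraMap_iff_fixed y).2 fun σ => (fm_fix W _ h (hm σ)).2
    obtain ⟨x₀, rfl⟩ := hx
    obtain ⟨y₀, rfl⟩ := hy
    exact fm_lift W (Algebra.ofId K (SeparableClosure K)) x₀ y₀ h

private theorem fsh_sym {F : Type} [Field F] (D γ : RatFunc F) (k : ℕ)
    {z z' : Gal(Kgs F/RatFunc F) → Pt D γ 0 (Kgs F)} {p p' : Pt D γ 0 (Kgs F)}
    (h : ZEq D γ k z z' p p') : ZEq D γ k z' z p' p := by
  obtain ⟨m, h1, h2⟩ := h
  refine ⟨-m, fun σ => ?_, ?_⟩
  · rw [fm_neg, ← neg_sub, h1 σ]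
    abel
  · rw [← neg_sub, h2, smul_neg]

theorem tFsh (_ : S_Pts) (_ : S_Map) (hShg : S_Shg) (hCyc : S_Cyc) : S_Fsh := by
  intro F _ _ _ D γ hγ k hk hn
  have hC := hCyc F D γ hγ k hk hn
  obtain ⟨s0, -, -, s3, s4⟩ := hShg (RatFunc F) (EE D γ 0)
  constructor
  · -- a maximal family
    let Pr : ℕ → Prop := fun n => ∃ (z : Fin n → Gal(Kgs F/RatFunc F) → Pt D γ 0 (Kgs F))
      (p : Fin n → Pt D γ 0 (Kgs F)), (∀ i, IsZP D γ k (z i) (p i)) ∧
      (∀ i j, i ≠ j → ¬ ZEq D γ k (z i) (z j) (p i) (p j))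
    have hP0 : Pr 0 := ⟨fun i => i.elim0, fun i => i.elim0, fun i => i.elim0, fun i => i.elim0⟩
    have hPb : ∀ n, Pr n → n ≤ 2 ^ k := by
      rintro n ⟨z, p, h1, h2⟩
      exact (hn n z p h1 h2).le
    obtain ⟨n, hPn, hmax⟩ : ∃ n, Pr n ∧ ∀ m, Pr m → m ≤ n :=
      ⟨Nat.findGreatest Pr (2 ^ k), Nat.findGreatest_spec (Nat.zero_le _) hP0,
        fun m hm => Nat.le_findGreatest (hPb m hm) hm⟩
    obtain ⟨z, p, h1, h2⟩ := hPn
    refine ⟨Set.range z, Set.finite_range z, ?_⟩
    intro y hy hyP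
    -- `2 ^ k • y` is a coboundary
    have claim : ∀ N : ℕ, (∃ P : Pt D γ 0 (Kgs F), ∀ σ, 2 ^ N • y σ =
        pmap (EE D γ 0) (σ : Kgs F →ₐ[RatFunc F] Kgs F) P - P) →
        ∃ P : Pt D γ 0 (Kgs F), IsZP D γ k y P := by
      intro N
      induction N with
      | zero =>
        rintro ⟨P, hP⟩
        refine ⟨2 ^ k • P, hy, fun σ => ?_⟩
        rw [fm_nsmul, ← smul_sub, ← hP σ, pow_zero, one_smul]
      | succ N ih =>
        rintro ⟨P, hP⟩
        by_cases hNk : N + 1 ≤ k
        · refine ⟨2 ^ (k - (N + 1)) • P, hy, fun σ => ?_⟩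
          rw [fm_nsmul, ← smul_sub, ← hP σ, ← mul_smul, ← pow_add, Nat.sub_add_cancel hNk]
        · have hkN : k ≤ N := by omega
          have hz : IsZP D γ k (fun σ => 2 ^ (N + 1 - k) • y σ) P := by
            refine ⟨s3 _ y hy, fun σ => ?_⟩
            rw [← mul_smul, ← pow_add, Nat.add_sub_cancel' (by omega : k ≤ N + 1)]
            exact hP σ
          obtain ⟨m, hm, -⟩ := hC _ _ hz
          refine ih ⟨m, fun σ => ?_⟩
          rw [← hm σ, ← mul_smul, ← pow_add]
          congr 2
          omega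
    obtain ⟨N, hN⟩ := hyP
    obtain ⟨P, hP⟩ := claim N hN
    by_cases hex : ∃ i, ZEq D γ k y (z i) P (p i)
    · obtain ⟨i, m, hm, -⟩ := hex
      exact ⟨z i, ⟨i, rfl⟩, m, hm⟩
    · exfalso
      have hne : ∀ i, ¬ ZEq D γ k y (z i) P (p i) := fun i hi => hex ⟨i, hi⟩
      have h3 : Pr (n + 1) := by
        refine ⟨Fin.cons y z, Fin.cons P p, ?_, ?_⟩
        · intro i
          refine Fin.cases ?_ (fun j => ?_) i
          · exact hP
          · exact h1 j
        · intro i j
          refine Fin.cases ?_ (fun i' => ?_) i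
          · refine Fin.cases ?_ (fun j' => ?_) j
            · exact fun h => absurd rfl h
            · exact fun _ => hne j'
          · refine Fin.cases ?_ (fun j' => ?_) j
            · exact fun _ h => hne i' (fsh_sym D γ k h)
            · exact fun h => h2 i' j' fun e => h (by rw [e])
      exact absurd (hmax _ h3) (by omega)
  · intro e
    have hz : IsZP D γ k (fun _ => 0)
        (pmap (EE D γ 0) (Algebra.ofId (RatFunc F) (Kgs F)) e) := by
      refine ⟨s0, fun σ => ?_⟩
      rw [fm_ofId, sub_self, smul_zero]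
    obtain ⟨m, h1, h2⟩ := hC _ _ hz
    have h3 : ∀ σ : Gal(Kgs F/RatFunc F),
        pmap (EE D γ 0) (σ : Kgs F →ₐ[RatFunc F] Kgs F) m = m := by
      intro σ
      have := h1 σ
      rw [smul_zero] at this
      exact (sub_eq_zero.1 this.symm)
    obtain ⟨e', he'⟩ := fsh_desc (EE D γ 0) m h3
    refine ⟨e', fm_inj (EE D γ 0) (Algebra.ofId (RatFunc F) (Kgs F)) ?_⟩
    rw [fm_nsmul, fm_nsmul, he']
    exact h2

end Pool.Agent.MP72W
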