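import Pool.Agent.Lib.MP_72e2e6_nt.W2.E.Spec

/-!
# MP_72e2e6_nt, theorem T3, E/Hdb: heights and doubling
-/

namespace Pool.Agent.MP72W

open Polynomial IntermediateField WeierstrassCurve

open scoped Classical

/-- degrees -/
private theorem hdb_deg {F : Type} [Field F] {A C g₁ g₂ : F[X]} (hA : A ≠ 0) (hC : C ≠ 0)
    (h₁ : g₁ ≠ 0) (h₂ : g₂ ≠ 0) :
    4 * max A.natDegree C.natDegree ≤ max (g₂ * A ^ 4 + g₁ * C ^ 4).natDegree
      (g₂ * A ^ 2 * C ^ 2).natDegree + (g₁.natDegree + g₂.natDegree) := by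
  have d1 : (g₂ * A ^ 4).natDegree = g₂.natDegree + 4 * A.natDegree := by
    rw [natDegree_mul h₂ (pow_ne_zero 4 hA), natDegree_pow]
  have d2 : (g₁ * C ^ 4).natDegree = g₁.natDegree + 4 * C.natDegree := by
    rw [natDegree_mul h₁ (pow_ne_zero 4 hC), natDegree_pow]
  have d3 : (g₂ * A ^ 2 * C ^ 2).natDegree = g₂.natDegree + 2 * A.natDegree + 2 * C.natDegree := by
    rw [natDegree_mul (mul_ne_zero h₂ (pow_ne_zero 2 hA)) (pow_ne_zero 2 hC),
      natDegree_mul h₂ (pow_ne_zero 2 hA), natDegree_pow, natDegree_pow]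
  rcases lt_trichotomy (g₂ * A ^ 4).natDegree (g₁ * C ^ 4).natDegree with h | h | h
  · have h3 := natDegree_add_eq_right_of_natDegree_lt h
    rw [h3, d2, d3]
    rw [d1, d2] at h
    omega
  · rw [d1, d2] at h
    rw [d3]
    omega
  · have h3 := natDegree_add_eq_left_of_natDegree_lt h
    rw [h3, d1, d3]
    rw [d1, d2] at h
    omega

/-- the height of a quotient -/
private theorem hdb_quot {F : Type} [Field F] {U V G : F[X]} (hV : V ≠ 0) (hG : G ≠ 0)
    (h : ∀ G' : F[X], G' ∣ U → G' ∣ V → G' ∣ G) :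
    max U.natDegree V.natDegree ≤
      rht (algebraMap F[X] (RatFunc F) U / algebraMap F[X] (RatFunc F) V) + G.natDegree := by
  set f := algebraMap F[X] (RatFunc F) U / algebraMap F[X] (RatFunc F) V with hf
  have hnd : algebraMap F[X] (RatFunc F) f.num / algebraMap F[X] (RatFunc F) f.denom = f :=
    RatFunc.num_div_denom f
  have inj := RatFunc.algebraMap_injective F
  have hd : algebraMap F[X] (RatFunc F) f.denom ≠ 0 := fun h0 =>
    RatFunc.denom_ne_zero f ((map_eq_zero_iff _ inj).1 h0)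
  have hV' : algebraMap F[X] (RatFunc F) V ≠ 0 := fun h0 => hV ((map_eq_zero_iff _ inj).1 h0)
  have hcross : f.num * V = U * f.denom := by
    apply inj
    rw [map_mul, map_mul]
    rw [hf, div_eq_div_iff hd hV'] at hnd
    exact hnd
  have hcop : IsCoprime f.num f.denom := RatFunc.isCoprime_num_denom f
  obtain ⟨G', hG'⟩ : f.denom ∣ V := by
    refine hcop.symm.dvd_of_dvd_mul_left ?_
    rw [hcross]
    exact dvd_mul_left _ _
  have hU : U = f.num * G' := by
    have h3 : U * f.denom = f.num * G' * f.denom := by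
      rw [← hcross]
      conv_lhs => rw [hG']
      ring
    exact mul_right_cancel₀ (RatFunc.denom_ne_zero f) h3
  have hG'G : G' ∣ G := h G' ⟨f.num, by rw [mul_comm]; exact hU⟩ ⟨f.denom, by
    rw [mul_comm]; exact hG'⟩
  have hdeg : G'.natDegree ≤ G.natDegree := natDegree_le_of_dvd hG'G hG
  have e1 : U.natDegree ≤ f.num.natDegree + G'.natDegree := by
    conv_lhs => rw [hU]
    exact natDegree_mul_le
  have e2 : V.natDegree ≤ f.denom.natDegree + G'.natDegree := by
    conv_lhs => rw [hG']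
    exact natDegree_mul_le
  unfold rht
  omega

private theorem hdb_rat {F : Type} [Field F] {γ : RatFunc F} (hγ : γ ≠ 0) :
    ∃ B : ℕ, ∀ x : RatFunc F, x ≠ 0 → 4 * rht x ≤ rht (x ^ 2 + γ / x ^ 2) + B := by
  have h₁ : γ.num ≠ 0 := RatFunc.num_ne_zero hγ
  have h₂ : γ.denom ≠ 0 := RatFunc.denom_ne_zero γ
  refine ⟨(γ.num * γ.denom ^ 2).natDegree + (γ.num.natDegree + γ.denom.natDegree), ?_⟩
  intro x hx
  have hA : x.num ≠ 0 := RatFunc.num_ne_zero hx
  have hC : x.denom ≠ 0 := RatFunc.denom_ne_zero x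
  have inj := RatFunc.algebraMap_injective F
  have hx' : algebraMap F[X] (RatFunc F) x.num / algebraMap F[X] (RatFunc F) x.denom = x :=
    RatFunc.num_div_denom x
  have hγ' : algebraMap F[X] (RatFunc F) γ.num / algebraMap F[X] (RatFunc F) γ.denom = γ :=
    RatFunc.num_div_denom γ
  have ne : ∀ p : F[X], p ≠ 0 → algebraMap F[X] (RatFunc F) p ≠ 0 := fun p hp h0 =>
    hp ((map_eq_zero_iff _ inj).1 h0)
  have hval : x ^ 2 + γ / x ^ 2 =
      algebraMap F[X] (RatFunc F) (γ.denom * x.num ^ 4 + γ.num * x.denom ^ 4) /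
        algebraMap F[X] (RatFunc F) (γ.denom * x.num ^ 2 * x.denom ^ 2) := by
    conv_lhs => rw [← hx', ← hγ']
    rw [map_add, map_mul, map_mul, map_mul, map_mul, map_pow, map_pow, map_pow, map_pow]
    have i1 := ne _ hA
    have i2 := ne _ hC
    have i3 := ne _ h₂
    field_simp
  have hV : γ.denom * x.num ^ 2 * x.denom ^ 2 ≠ 0 :=
    mul_ne_zero (mul_ne_zero h₂ (pow_ne_zero 2 hA)) (pow_ne_zero 2 hC)
  have hcop : IsCoprime x.num x.denom := RatFunc.isCoprime_num_denom x
  have key := hdb_quot (U := γ.denom * x.num ^ 4 + γ.num * x.denom ^ 4) hV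
    (G := γ.num * γ.denom ^ 2) (mul_ne_zero h₁ (pow_ne_zero 2 h₂)) (by
      intro G' hU hV
      have i1 : G' ∣ γ.num * x.denom ^ 6 := by
        have h3 : γ.num * x.denom ^ 6 = x.denom ^ 2 * (γ.denom * x.num ^ 4 + γ.num * x.denom ^ 4) -
            x.num ^ 2 * (γ.denom * x.num ^ 2 * x.denom ^ 2) := by ring
        rw [h3]
        exact dvd_sub (hU.mul_left _) (hV.mul_left _)
      have i2 : G' ∣ γ.denom ^ 2 * x.num ^ 6 := by
        have h3 : γ.denom ^ 2 * x.num ^ 6 =
            x.num ^ 2 * γ.denom * (γ.denom * x.num ^ 4 + γ.num * x.denom ^ 4) -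
            γ.num * x.denom ^ 2 * (γ.denom * x.num ^ 2 * x.denom ^ 2) := by ring
        rw [h3]
        exact dvd_sub (hU.mul_left _) (hV.mul_left _)
      obtain ⟨u, v, huv⟩ := (hcop.pow (m := 6) (n := 6))
      have h3 : γ.num * γ.denom ^ 2 = (u * γ.num) * (γ.denom ^ 2 * x.num ^ 6) +
          (v * γ.denom ^ 2) * (γ.num * x.denom ^ 6) := by
        have : γ.num * γ.denom ^ 2 = γ.num * γ.denom ^ 2 * (u * x.num ^ 6 + v * x.denom ^ 6) := by
          rw [huv, mul_one]
        rw [this]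
        ring
      rw [h3]
      exact dvd_add (i2.mul_left _) (i1.mul_left _))
  rw [← hval] at key
  have h4 := hdb_deg hA hC h₁ h₂
  have h5 : rht x = max x.num.natDegree x.denom.natDegree := rfl
  rw [h5]
  omega

private theorem hdb_poly_fin {F : Type} [Field F] [Finite F] (N : ℕ) :
    {p : F[X] | p.natDegree ≤ N}.Finite := by
  have hinj : Set.InjOn (fun (p : F[X]) (i : Fin (N + 1)) => p.coeff i)
      {p : F[X] | p.natDegree ≤ N} := by
    intro p hp q hq hpq
    ext n
    by_cases hn : n < N + 1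
    · exact congrFun hpq ⟨n, hn⟩
    · rw [coeff_eq_zero_of_natDegree_lt (lt_of_le_of_lt hp (by omega)),
        coeff_eq_zero_of_natDegree_lt (lt_of_le_of_lt hq (by omega))]
  exact Set.Finite.of_finite_image (Set.toFinite _) hinj

private theorem hdb_rat_fin {F : Type} [Field F] [Finite F] (N : ℕ) :
    {x : RatFunc F | rht x ≤ N}.Finite := by
  have hinj : Set.InjOn (fun x : RatFunc F => (x.num, x.denom)) {x : RatFunc F | rht x ≤ N} := by
    intro x _ y _ hxy
    have h1 : x.num = y.num := congrArg Prod.fst hxy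
    have h2 : x.denom = y.denom := congrArg Prod.snd hxy
    rw [← RatFunc.num_div_denom x, ← RatFunc.num_div_denom y, h1, h2]
  refine Set.Finite.of_finite_image
    (((hdb_poly_fin N).prod (hdb_poly_fin (F := F) N)).subset ?_) hinj
  rintro _ ⟨x, hx, rfl⟩
  have hx' : max x.num.natDegree x.denom.natDegree ≤ N := hx
  exact ⟨(le_max_left _ _).trans hx', (le_max_right _ _).trans hx'⟩

theorem tHdb (hPts : S_Pts) (hMap : S_Map) : S_Hdb := by
  intro F _ _ _ D γ hγ
  have hK2 : CharP (RatFunc F) 2 := charP_of_injective_algebraMap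
    (algebraMap F (RatFunc F)).injective 2
  obtain ⟨hEc, ha2, ha6, -, -⟩ := hMap (RatFunc F) D γ hγ 0 (RatFunc F)
  obtain ⟨p1, p2, -, -, -, -, p7, p8, p9, -⟩ := hPts (RatFunc F) _ hEc
  have ha6' : ((EE D γ 0)⁄(RatFunc F)).toAffine.a₆ = γ := by
    rw [ha6, pow_zero, pow_one]
    rfl
  have hr0 : rht (0 : RatFunc F) = 0 := by simp [rht]
  have hpx0 : px (0 : Pt D γ 0 (RatFunc F)) = 0 := rfl
  have hfin : ∀ N : ℕ, {P : Pt D γ 0 (RatFunc F) | rht (px P) ≤ N}.Finite := by
    intro N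
    have h1 : {P : Pt D γ 0 (RatFunc F) | rht (px P) ≤ N} =
        (fun P : Pt D γ 0 (RatFunc F) => px P) ⁻¹' {x : RatFunc F | rht x ≤ N} := rfl
    rw [h1]
    refine Set.Finite.preimage' (hdb_rat_fin N) (fun x _ => ?_)
    by_cases hne : ∃ P : Pt D γ 0 (RatFunc F), P ≠ 0 ∧ px P = x
    · obtain ⟨P, hP0, hP⟩ := hne
      refine Set.Finite.subset (Set.toFinite {0, P, -P}) ?_
      intro Q hQ
      have hQ' : px Q = x := hQ
      by_cases hQ0 : Q = 0
      · rw [hQ0]; simp
      · rcases p9 P Q hP0 hQ0 (by rw [hP, hQ']) with h | h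
        · rw [h]; simp
        · rw [h]; simp
    · refine Set.Finite.subset (Set.finite_singleton (0 : Pt D γ 0 (RatFunc F))) ?_
      intro Q hQ
      have hQ' : px Q = x := hQ
      by_contra hQ0
      exact hne ⟨Q, hQ0, hQ'⟩
  refine ⟨?_, hfin, ?_⟩
  · obtain ⟨B, hB⟩ := hdb_rat hγ
    refine ⟨B, fun P => ?_⟩
    by_cases hx : px P = 0
    · rw [hx, hr0, mul_zero]
      exact Nat.zero_le _
    · rcases p1 P with h0 | ⟨x, y, hxy⟩
      · rw [h0] at hx
        exact absurd hpx0 hx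
      · obtain ⟨-, hpx, -, -⟩ := p2 P x y hxy
        rw [hpx] at hx
        obtain ⟨-, h2⟩ := p7 P x y hxy hx
        obtain ⟨-, h3, -, -⟩ := p2 _ _ _ h2
        rw [hpx, h3, ha6']
        exact hB x hx
  · refine (hfin 0).subset ?_
    intro P hP
    have hP' : P + P = 0 := hP
    change rht (px P) ≤ 0
    by_cases hx : px P = 0
    · rw [hx, hr0]
    · rcases p1 P with h0 | ⟨x, y, hxy⟩
      · rw [h0] at hx
        exact absurd hpx0 hx
      · obtain ⟨-, hpx, -, -⟩ := p2 P x y hxy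
        rw [hpx] at hx
        obtain ⟨-, h2⟩ := p7 P x y hxy hx
        obtain ⟨h3, -, -, -⟩ := p2 _ _ _ h2
        exact absurd hP' h3

end Pool.Agent.MP72W
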