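import Pool.Agent.Lib.MP_72e2e6_nt.W2.E.Spec

/-!
# MP_72e2e6_nt, theorem T3, E/Hgt: finitely many rational points
-/

namespace Pool.Agent.MP72W

open Polynomial IntermediateField WeierstrassCurve

open scoped Classical

private theorem hgt_fib {G : Type} [AddCommGroup G] (h2 : {P : G | P + P = 0}.Finite) (n : ℕ)
    (S : Set G) (hS : S.Finite) : {P : G | 2 ^ n • P ∈ S}.Finite := by
  induction n generalizing S with
  | zero =>
    have h : {P : G | 2 ^ 0 • P ∈ S} = S := by
      ext P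
      simp
    rw [h]
    exact hS
  | succ n ih =>
    have h : {P : G | 2 ^ (n + 1) • P ∈ S} = (fun P : G => P + P) ⁻¹' {Q | 2 ^ n • Q ∈ S} := by
      ext P
      simp only [Set.mem_setOf_eq, Set.mem_preimage]
      rw [pow_succ, mul_nsmul', two_nsmul]
    rw [h]
    refine Set.Finite.preimage' (ih S hS) (fun b _ => ?_)
    by_cases hne : ((fun P : G => P + P) ⁻¹' {b}).Nonempty
    · obtain ⟨P₀, hP₀⟩ := hne
      have hP₀' : P₀ + P₀ = b := hP₀
      refine Set.Finite.subset (h2.image (fun Q => Q + P₀)) ?_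
      intro P hP
      have hP' : P + P = b := hP
      refine ⟨P - P₀, ?_, by simp⟩
      change (P - P₀) + (P - P₀) = 0
      have : (P - P₀) + (P - P₀) = (P + P) - (P₀ + P₀) := by abel
      rw [this, hP', hP₀', sub_self]
    · rw [Set.not_nonempty_iff_eq_empty.1 hne]
      exact Set.finite_empty

private theorem hgt_abs {G : Type} [AddCommGroup G] (h : G → ℕ) (B : ℕ)
    (hB : ∀ P, 4 * h P ≤ h (P + P) + B) (hfin : ∀ N, {P | h P ≤ N}.Finite)
    (h2 : {P : G | P + P = 0}.Finite) (k : ℕ) (hk : 1 ≤ k)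
    (hdiv : ∀ e : G, ∃ e' : G, 2 ^ (k - 1) • e = 2 ^ k • e') : Finite G := by
  choose f hf using hdiv
  have hU : (⋃ X ∈ {X : G | h X ≤ B ∧ IsOfFinAddOrder X},
      (AddSubgroup.zmultiples X : Set G)).Finite := by
    refine Set.Finite.biUnion ((hfin B).subset fun X hX => hX.1) (fun X hX => ?_)
    exact finite_zmultiples.2 hX.2
  have hk' : k = (k - 1) + 1 := (Nat.sub_add_cancel hk).symm
  have hmem : ∀ e : G, 2 ^ (k - 1) • e ∈ ⋃ X ∈ {X : G | h X ≤ B ∧ IsOfFinAddOrder X},
      (AddSubgroup.zmultiples X : Set G) := by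
    intro e
    set a : ℕ → G := fun i => 2 ^ (k - 1) • f^[i] e with ha
    have hstep : ∀ i, a i = a (i + 1) + a (i + 1) := by
      intro i
      have h1 : a i = 2 ^ k • f (f^[i] e) := hf _
      have h3 : f (f^[i] e) = f^[i + 1] e := (Function.iterate_succ_apply' f i e).symm
      rw [h1, h3]
      change 2 ^ k • f^[i + 1] e = 2 ^ (k - 1) • f^[i + 1] e + 2 ^ (k - 1) • f^[i + 1] e
      conv_lhs => rw [hk']
      rw [pow_succ, mul_nsmul, two_nsmul, ← smul_add]
    have hh : ∀ i, 4 * h (a (i + 1)) ≤ h (a i) + B := by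
      intro i
      have h1 := hB (a (i + 1))
      rwa [← hstep i] at h1
    have hex : ∀ n i, h (a i) ≤ n → ∃ j, h (a j) ≤ B := by
      intro n
      induction n with
      | zero => intro i hi; exact ⟨i, by omega⟩
      | succ n ih =>
        intro i hi
        by_cases h3 : h (a i) ≤ B
        · exact ⟨i, h3⟩
        · have h4 := hh i
          exact ih (i + 1) (by omega)
    obtain ⟨i₀, hi₀⟩ := hex _ 0 le_rfl
    have hall : ∀ i, h (a (i₀ + i)) ≤ B := by
      intro i
      induction i with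
      | zero => exact hi₀
      | succ i ih =>
        have h4 := hh (i₀ + i)
        rw [← add_assoc]
        omega
    have hpow : ∀ n m, a m = 2 ^ n • a (m + n) := by
      intro n
      induction n with
      | zero => intro m; simp
      | succ n ih =>
        intro m
        rw [ih m, hstep (m + n), ← two_nsmul, ← mul_nsmul', ← pow_succ, add_assoc]
    have hfinB : Finite {P : G | h P ≤ B} := hfin B
    obtain ⟨i, j, hij, heq⟩ := Finite.exists_ne_map_eq_of_infinite
      (fun i : ℕ => (⟨a (i₀ + i), hall i⟩ : {P : G | h P ≤ B}))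
    have heq' : a (i₀ + i) = a (i₀ + j) := congrArg Subtype.val heq
    have key : ∀ i j : ℕ, i < j → a (i₀ + i) = a (i₀ + j) →
        IsOfFinAddOrder (a (i₀ + j)) := by
      intro i j hij heq
      rw [isOfFinAddOrder_iff_nsmul_eq_zero]
      refine ⟨2 ^ (j - i) - 1, ?_, ?_⟩
      · have : 2 ≤ 2 ^ (j - i) := by
          calc 2 = 2 ^ 1 := rfl
            _ ≤ 2 ^ (j - i) := Nat.pow_le_pow_right (by norm_num) (by omega)
        omega
      · have h1 := hpow (j - i) (i₀ + i)
        rw [show i₀ + i + (j - i) = i₀ + j by omega, heq] at h1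
        have h3 : (2 ^ (j - i) - 1 + 1) • a (i₀ + j) = a (i₀ + j) := by
          rw [Nat.sub_add_cancel (Nat.one_le_two_pow), ← h1]
        rw [succ_nsmul] at h3
        exact add_eq_right.1 h3
    obtain ⟨j, hj⟩ : ∃ j, IsOfFinAddOrder (a (i₀ + j)) := by
      rcases lt_or_gt_of_ne hij with h3 | h3
      · exact ⟨j, key i j h3 heq'⟩
      · exact ⟨i, key j i h3 heq'.symm⟩
    have h5 : 2 ^ (k - 1) • e = 2 ^ (i₀ + j) • a (i₀ + j) := by
      have h6 := hpow (i₀ + j) 0
      rw [zero_add] at h6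
      exact h6
    rw [h5]
    refine Set.mem_biUnion (show a (i₀ + j) ∈ {X : G | h X ≤ B ∧ IsOfFinAddOrder X} from
      ⟨hall j, hj⟩) ?_
    exact AddSubgroup.nsmul_mem_zmultiples (a (i₀ + j)) (2 ^ (i₀ + j))
  have hfinal := hgt_fib h2 (k - 1) _ hU
  have huniv : {P : G | 2 ^ (k - 1) • P ∈ ⋃ X ∈ {X : G | h X ≤ B ∧ IsOfFinAddOrder X},
      (AddSubgroup.zmultiples X : Set G)} = Set.univ := Set.eq_univ_of_forall hmem
  rw [huniv] at hfinal
  exact Set.finite_univ_iff.1 hfinal

theorem tHgt (hHdb : S_Hdb) : S_Hgt := by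
  intro F _ _ _ D γ hγ k hk hdiv
  obtain ⟨⟨B, hB⟩, hfin, h2⟩ := hHdb F D γ hγ
  exact hgt_abs (fun P => rht (px P)) B hB hfin h2 k hk hdiv

end Pool.Agent.MP72W
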