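import Pool.Agent.Lib.MP_72e2e6_nt.W2.E.Spec

/-!
# MP_72e2e6_nt, theorem T3, part E: the family as a direct sum
-/

namespace Pool.Agent.MP72W

open Polynomial IntermediateField WeierstrassCurve

open scoped Classical

/-! ### Counting -/

private theorem ids_count {S X : Type} [Fintype S] [DecidableEq S] [Nonempty S] (T T' : S → Finset X) (ε : ℝ)
    (hT : ∀ w, (Fintype.card S : ℝ) * (T' w).card ≤ ε * (T w).card) :
    (((Fintype.piFinset T).filter (fun D => ∃ w, D w ∈ T' w)).card : ℝ) ≤
      ε * (Fintype.piFinset T).card := by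
  have hn : (0 : ℝ) < Fintype.card S := by
    exact_mod_cast Fintype.card_pos
  have hone : ∀ w : S, (Fintype.card S : ℝ) *
      ((Fintype.piFinset T).filter (fun D => D w ∈ T' w)).card ≤
      ε * (Fintype.piFinset T).card := by
    intro w
    have hsub : (Fintype.piFinset T).filter (fun D => D w ∈ T' w) ⊆
        Fintype.piFinset (Function.update T w (T' w)) := by
      intro D hD
      rw [Finset.mem_filter, Fintype.mem_piFinset] at hD
      rw [Fintype.mem_piFinset]
      intro w'
      by_cases h : w' = w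
      · subst h
        rw [Function.update_self]
        exact hD.2
      · rw [Function.update_of_ne h]
        exact hD.1 w'
    have h1 : (Fintype.piFinset (Function.update T w (T' w))).card =
        (T' w).card * ∏ x ∈ Finset.univ \ {w}, (T x).card := by
      rw [Fintype.card_piFinset, ← Finset.mul_prod_erase Finset.univ _ (Finset.mem_univ w),
        Function.update_self]
      congr 1
      rw [Finset.sdiff_singleton_eq_erase]
      refine Finset.prod_congr rfl fun x hx => ?_
      rw [Function.update_of_ne (Finset.ne_of_mem_erase hx)]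
    have h2 : (Fintype.piFinset T).card =
        (T w).card * ∏ x ∈ Finset.univ \ {w}, (T x).card := by
      rw [Fintype.card_piFinset, ← Finset.mul_prod_erase Finset.univ _ (Finset.mem_univ w),
        Finset.sdiff_singleton_eq_erase]
    have h3 : (((Fintype.piFinset T).filter (fun D => D w ∈ T' w)).card : ℝ) ≤
        ((T' w).card * ∏ x ∈ Finset.univ \ {w}, (T x).card : ℕ) := by
      rw [← h1]
      exact_mod_cast Finset.card_le_card hsub
    rw [h2]
    push_cast at h3 ⊢
    calc (Fintype.card S : ℝ) * ((Fintype.piFinset T).filter (fun D => D w ∈ T' w)).card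
        ≤ (Fintype.card S : ℝ) * ((T' w).card * ∏ x ∈ Finset.univ \ {w}, ((T x).card : ℝ)) :=
          mul_le_mul_of_nonneg_left h3 hn.le
      _ = ((Fintype.card S : ℝ) * (T' w).card) * ∏ x ∈ Finset.univ \ {w}, ((T x).card : ℝ) := by
          ring
      _ ≤ (ε * (T w).card) * ∏ x ∈ Finset.univ \ {w}, ((T x).card : ℝ) := by
          refine mul_le_mul_of_nonneg_right (hT w) ?_
          exact Finset.prod_nonneg fun x _ => Nat.cast_nonneg _
      _ = ε * ((T w).card * ∏ x ∈ Finset.univ \ {w}, ((T x).card : ℝ)) := by ring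
  have hsub : (Fintype.piFinset T).filter (fun D => ∃ w, D w ∈ T' w) ⊆
      Finset.univ.biUnion fun w => (Fintype.piFinset T).filter (fun D => D w ∈ T' w) := by
    intro D hD
    rw [Finset.mem_filter] at hD
    obtain ⟨hD, w, hw⟩ := hD
    rw [Finset.mem_biUnion]
    exact ⟨w, Finset.mem_univ _, Finset.mem_filter.2 ⟨hD, hw⟩⟩
  have hle : (((Fintype.piFinset T).filter (fun D => ∃ w, D w ∈ T' w)).card : ℝ) ≤
      ∑ w, (((Fintype.piFinset T).filter (fun D => D w ∈ T' w)).card : ℝ) := by
    exact_mod_cast (Finset.card_le_card hsub).trans Finset.card_biUnion_le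
  have hmul : (Fintype.card S : ℝ) *
      ((Fintype.piFinset T).filter (fun D => ∃ w, D w ∈ T' w)).card ≤
      Fintype.card S * (ε * (Fintype.piFinset T).card) := by
    refine (mul_le_mul_of_nonneg_left hle hn.le).trans ?_
    rw [Finset.mul_sum]
    refine (Finset.sum_le_sum fun w _ => hone w).trans ?_
    rw [Finset.sum_const, Finset.card_univ, nsmul_eq_mul]
  exact le_of_mul_le_mul_left hmul hn

/-! ### The sets `Dw` -/

section basics

variable {F : Type} [Field F] [Finite F] [CharP F 2] {κ : F} {PP : Finset F[X]}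

omit [Finite F] [CharP F 2] in
private theorem ids_unb {P : F[X]} (hP : P.Monic) (hi : Irreducible P)
    (hfin : ∀ e, (DP P e).Finite) (B : ℕ) : ∃ e, B ≤ (DP P e).ncard := by
  refine ⟨2 * B, ?_⟩
  have hdeg : 0 < P.natDegree := hi.natDegree_pos
  have hP0 : algebraMap F[X] (RatFunc F) P ≠ 0 := by
    rw [Ne, FaithfulSMul.algebraMap_eq_zero_iff]
    exact hP.ne_zero
  refine Set.le_ncard_of_inj_on_range
    (fun i => 1 / algebraMap F[X] (RatFunc F) P ^ (2 * i + 1)) ?_ ?_ (hfin _)
  · intro i hi'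
    refine ⟨fun j => if j = i then 1 else 0, ?_, ?_⟩
    · intro j
      have hd : (0 : WithBot ℕ) < P.degree := by
        rw [Polynomial.degree_eq_natDegree hP.ne_zero]
        exact_mod_cast hdeg
      by_cases hj : j = i
      · show (if j = i then (1 : F[X]) else 0).degree < P.degree
        rw [if_pos hj, Polynomial.degree_one]
        exact hd
      · show (if j = i then (1 : F[X]) else 0).degree < P.degree
        rw [if_neg hj, Polynomial.degree_zero]
        exact lt_of_le_of_lt bot_le hd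
    · rw [Finset.sum_eq_single i]
      · show _ = algebraMap F[X] (RatFunc F) (if i = i then (1 : F[X]) else 0) / _
        rw [if_pos rfl, map_one]
      · intro j _ hj
        show algebraMap F[X] (RatFunc F) (if j = i then (1 : F[X]) else 0) / _ = 0
        rw [if_neg hj, map_zero, zero_div]
      · intro hni
        exact absurd (Finset.mem_range.2 (by omega)) hni
  · intro i _ j _ hij
    have h1 : algebraMap F[X] (RatFunc F) P ^ (2 * i + 1) =
        algebraMap F[X] (RatFunc F) P ^ (2 * j + 1) := by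
      have h2 := congrArg (fun z => z⁻¹) hij
      simpa using h2
    rw [← map_pow, ← map_pow] at h1
    have h2 : P ^ (2 * i + 1) = P ^ (2 * j + 1) :=
      FaithfulSMul.algebraMap_injective F[X] (RatFunc F) h1
    have h3 := congrArg Polynomial.natDegree h2
    rw [hP.natDegree_pow, hP.natDegree_pow] at h3
    have h4 := Nat.eq_of_mul_eq_mul_right hdeg h3
    omega

private theorem ids_Dw (h : S_Dgr) (hPP : ∀ P ∈ PP, P.Monic ∧ Irreducible P) (w : Option PP) :
    (∀ e, (0 : RatFunc F) ∈ Dw κ w e ∧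
      (∀ f ∈ Dw κ w e, ∀ g ∈ Dw κ w e, f + g ∈ Dw κ w e) ∧ (Dw κ w e).Finite) ∧
    (∀ e e', e ≤ e' → Dw κ w e ⊆ Dw κ w e') ∧ ∀ B : ℕ, ∃ e, B ≤ (Dw κ w e).ncard := by
  match w with
  | none =>
    obtain ⟨h1, h2, h3⟩ := h F κ X monic_X irreducible_X
    exact ⟨fun e => (h1 e).2, fun e e' he => (h2 e e' he).2, h3⟩
  | some P =>
    obtain ⟨h1, h2, -⟩ := h F κ P.1 (hPP _ P.2).1 (hPP _ P.2).2
    exact ⟨fun e => (h1 e).1, fun e e' he => (h2 e e' he).1,
      ids_unb (hPP _ P.2).1 (hPP _ P.2).2 fun e => (h1 e).1.2.2⟩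

/-- The elements of the family. -/
private theorem ids_mem (h : S_Dgr) (hPP : ∀ P ∈ PP, P.Monic ∧ Irreducible P) (A : Dat F PP)
    (has : ∀ (w : Option PP) (e : ℕ), ∀ D ∈ Dw κ w e, D ∈ AS PP)
    (hoff : ∀ (w : Option PP) (e : ℕ) (x : AS PP),
      x ∈ (famC κ A).𝔇 w e ↔ (x : RatFunc F) ∈ Dw κ w e)
    (e : Option PP → ℕ) (x : AS PP) : x ∈ (famC κ A).D e ↔
      ∃ D : Option PP → RatFunc F, (∀ w, D w ∈ Dw κ w (e w)) ∧ (x : RatFunc F) = ∑ w, D w := by
  constructor
  · intro hx
    refine AddSubgroup.iSup_induction (fun w => (famC κ A).𝔇 w (e w))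
      (C := fun x : AS PP => ∃ D : Option PP → RatFunc F, (∀ w, D w ∈ Dw κ w (e w)) ∧
        (x : RatFunc F) = ∑ w, D w) hx ?_ ?_ ?_
    · intro w y hy
      have hy' := (hoff w (e w) y).1 hy
      refine ⟨fun w' => if w' = w then (y : RatFunc F) else 0, ?_, ?_⟩
      · intro w'
        by_cases hw : w' = w
        · subst hw
          show (if w' = w' then (y : RatFunc F) else 0) ∈ Dw κ w' (e w')
          rw [if_pos rfl]
          exact hy'
        · show (if w' = w then (y : RatFunc F) else 0) ∈ Dw κ w' (e w')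
          rw [if_neg hw]
          exact ((ids_Dw h hPP w').1 _).1
      · rw [Finset.sum_eq_single w]
        · rw [if_pos rfl]
        · intro w' _ hw
          rw [if_neg hw]
        · intro hni
          exact absurd (Finset.mem_univ w) hni
    · refine ⟨fun _ => 0, fun w => ((ids_Dw h hPP w).1 _).1, ?_⟩
      rw [Finset.sum_const_zero]
      rfl
    · rintro y z ⟨D, hD, hy⟩ ⟨D', hD', hz⟩
      refine ⟨fun w => D w + D' w, fun w => ((ids_Dw h hPP w).1 _).2.1 _ (hD w) _ (hD' w), ?_⟩
      rw [Finset.sum_add_distrib, ← hy, ← hz]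
      rfl
  · rintro ⟨D, hD, hx⟩
    have hxe : x = ∑ w, (⟨D w, has w _ _ (hD w)⟩ : AS PP) := by
      apply Subtype.ext
      rw [hx]
      exact (map_sum (AS PP).subtype (fun w => (⟨D w, has w _ _ (hD w)⟩ : AS PP))
        Finset.univ).symm
    rw [hxe]
    refine AddSubgroup.sum_mem _ fun w _ => ?_
    exact AddSubgroup.mem_iSup_of_mem w ((hoff w (e w) _).2 (hD w))

/-- Uniqueness. -/
private theorem ids_uniq (h4 : S_Hlo) (h5 : S_Off) (hκ : eps κ = 1)
    (hPP : ∀ P ∈ PP, P.Monic ∧ Irreducible P) (A : Dat F PP) (hA : A.Ok κ)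
    (has : ∀ (w : Option PP) (e : ℕ), ∀ D ∈ Dw κ w e, D ∈ AS PP)
    (hasC : ∀ c : F, RatFunc.C c ∈ AS PP)
    (e : Option PP → ℕ) (D : Option PP → RatFunc F) (hD : ∀ w, D w ∈ Dw κ w (e w))
    (c : ZMod 2) (y : RatFunc F)
    (hy : (∑ w, D w) + (if c = 0 then 0 else RatFunc.C κ) = y ^ 2 + y) :
    (∀ w, D w = 0) ∧ c = 0 := by
  obtain ⟨-, l2, l3, -, -, l6⟩ := h4 F PP hPP
  obtain ⟨o1, o2, -⟩ := h5 F κ hκ PP hPP A hA
  have H0 : ∀ g, (famC κ A).h 0 g = 0 := by
    intro g
    have h1 := l2 0 0 g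
    have h2 : ((0 : AS PP) : RatFunc F) + ((0 : AS PP) : RatFunc F) = ((0 : AS PP) : RatFunc F) := by
      rw [ZeroMemClass.coe_zero, add_zero]
    rw [h2] at h1
    exact left_eq_add.1 h1
  have Hadd : ∀ (x z : AS PP) g, (famC κ A).h (x + z) g = (famC κ A).h x g + (famC κ A).h z g :=
    fun x z g => l2 x z g
  have Hs : ∀ (s : Finset (Option PP)) (X : Option PP → AS PP) g,
      (famC κ A).h (∑ w ∈ s, X w) g = ∑ w ∈ s, (famC κ A).h (X w) g := by
    intro s X g
    induction s using Finset.induction_on with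
    | empty => rw [Finset.sum_empty, Finset.sum_empty, H0]
    | insert a s ha ih => rw [Finset.sum_insert ha, Finset.sum_insert ha, Hadd, ih]
  obtain ⟨X, hX⟩ : ∃ X : Option PP → AS PP, ∀ w, (X w : RatFunc F) = D w :=
    ⟨fun w => ⟨D w, has w _ _ (hD w)⟩, fun w => rfl⟩
  obtain ⟨Kx, hKx⟩ : ∃ Kx : AS PP, (Kx : RatFunc F) = if c = 0 then 0 else RatFunc.C κ := by
    refine ⟨⟨if c = 0 then 0 else RatFunc.C κ, ?_⟩, rfl⟩
    split_ifs
    · exact zero_mem _
    · exact hasC κ
  have hsum : ((∑ w, X w : AS PP) : RatFunc F) = ∑ w, D w := by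
    refine (map_sum (AS PP).subtype X Finset.univ).trans ?_
    exact Finset.sum_congr rfl fun w _ => hX w
  have htot : ∀ g, (famC κ A).h (∑ w, X w + Kx) g = 0 := by
    refine (l6 _).2 ⟨y, ?_⟩
    rw [← hy, ← hsum, ← hKx]
    rfl
  have hKW : ∀ w, ∀ g ∈ (famC κ A).W w, (famC κ A).h Kx g = 0 := by
    intro w g hg
    by_cases hc : c = 0
    · have h1 : Kx = 0 := by
        apply Subtype.ext
        rw [hKx, if_pos hc]
        rfl
      rw [h1, H0]
    · rw [if_neg hc] at hKx
      exact (o2 Kx hKx).1 w g hg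
  have hD0 : ∀ w, D w = 0 := by
    intro w
    refine hA.un w (e w) (D w) (hD w) fun g hg => ?_
    have hg' : rOm (PP := PP) (A.emb w) g ∈ (famC κ A).W w := Subgroup.mem_map_of_mem _ hg
    have h1 := htot (rOm (PP := PP) (A.emb w) g)
    rw [Hadd, Hs, hKW w _ hg', add_zero, Finset.sum_eq_single w] at h1
    · have h2 := (l3 (A.av w) (A.emb w)).2.2 (X w) g
      rw [hX w] at h2
      rw [← h2, ← hX w]
      exact h1
    · intro w' _ hw
      exact ((o1 w' (e w') (D w') (hD w') (X w') (hX w')).1 w (Ne.symm hw)).1 _ hg'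
    · intro hni
      exact absurd (Finset.mem_univ w) hni
  refine ⟨hD0, ?_⟩
  by_contra hc
  have h1 : ∑ w, D w = 0 := Finset.sum_eq_zero fun w _ => hD0 w
  rw [h1, zero_add, if_neg hc] at hy
  have h2 := (l6 ⟨RatFunc.C κ, hasC κ⟩).2 ⟨y, hy.symm⟩ ((famC κ A).φ none)
  have h3 := (o2 ⟨RatFunc.C κ, hasC κ⟩ rfl).2
  have h4' : (0 : ZMod 2) = 1 := h2.symm.trans h3
  exact zero_ne_one h4'

end basics

theorem tIds (h1 : S_Dgr) (h2 : S_Asr) (_h3 : S_Pfs) (h4 : S_Hlo) (h5 : S_Off) (_h6 : S_Uex) :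
    S_Ids := by
  intro F _ _ _ κ hκ PP hPP A hA
  obtain ⟨-, -, -, -, -, hasC, has⟩ := h2 F κ PP hPP
  have hmem := ids_mem h1 hPP A has (h5 F κ hκ PP hPP A hA).2.2
  have huni := ids_uniq h4 h5 hκ hPP A hA has hasC
  -- the map from the product
  obtain ⟨T, hT⟩ : ∃ T : (e : Option PP → ℕ) → Option PP → Finset (RatFunc F),
      ∀ e w x, x ∈ T e w ↔ x ∈ Dw κ w (e w) :=
    ⟨fun e w => ((ids_Dw h1 hPP w).1 (e w)).2.2.toFinset, fun e w x => Set.Finite.mem_toFinset _⟩
  have hpi : ∀ e D, D ∈ Fintype.piFinset (T e) ↔ ∀ w, D w ∈ Dw κ w (e w) := by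
    intro e D
    rw [Fintype.mem_piFinset]
    exact forall_congr' fun w => hT e w _
  have hval : ∀ e, (Subtype.val '' ((famC κ A).D e : Set (AS PP)) : Set (RatFunc F)) =
      ((Fintype.piFinset (T e)).image (fun D => ∑ w, D w) : Finset (RatFunc F)) := by
    intro e
    ext x
    rw [Finset.coe_image, Set.mem_image, Set.mem_image]
    constructor
    · rintro ⟨z, hz, rfl⟩
      obtain ⟨D, hD, hzD⟩ := (hmem e z).1 hz
      exact ⟨D, Finset.mem_coe.2 ((hpi e D).2 hD), hzD.symm⟩
    · rintro ⟨D, hD, rfl⟩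
      have hD' := (hpi e D).1 (Finset.mem_coe.1 hD)
      refine ⟨⟨∑ w, D w, Subring.sum_mem _ fun w _ => has w _ _ (hD' w)⟩, ?_, rfl⟩
      exact (hmem e _).2 ⟨D, hD', rfl⟩
  refine ⟨hmem, huni, ?_, ?_⟩
  · intro e
    have h6 : (Subtype.val '' ((famC κ A).D e : Set (AS PP)) : Set (RatFunc F)).Finite := by
      rw [hval e]
      exact Finset.finite_toSet _
    exact h6.of_finite_image Subtype.val_injective.injOn
  · intro m ε hε
    -- choice of `e₀`
    have hex : ∀ w : Option PP, ∃ e₁ : ℕ, (Fintype.card (Option PP) : ℝ) * (Dw κ w m).ncard ≤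
        ε * (Dw κ w e₁).ncard := by
      intro w
      obtain ⟨e₁, he₁⟩ := (ids_Dw h1 hPP w).2.2
        ⌈(Fintype.card (Option PP) : ℝ) * (Dw κ w m).ncard / ε⌉₊
      refine ⟨e₁, ?_⟩
      have h6 : (Fintype.card (Option PP) : ℝ) * (Dw κ w m).ncard / ε ≤ (Dw κ w e₁).ncard :=
        (Nat.le_ceil _).trans (by exact_mod_cast he₁)
      rw [div_le_iff₀ hε] at h6
      linarith
    choose e₁ he₁ using hex
    refine ⟨∑ w, e₁ w, ?_⟩
    intro e he
    have hcount := ids_count (T e) (fun w => T (fun _ => m) w) ε (by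
      intro w
      have h6 : (T (fun _ => m) w).card = (Dw κ w m).ncard := by
        rw [← Set.ncard_coe_finset]
        congr 1
        ext x
        exact hT (fun _ => m) w x
      have h7 : (T e w).card = (Dw κ w (e w)).ncard := by
        rw [← Set.ncard_coe_finset]
        congr 1
        ext x
        exact hT e w x
      rw [h6, h7]
      refine (he₁ w).trans ?_
      have h8 : (Dw κ w (e₁ w)).ncard ≤ (Dw κ w (e w)).ncard := by
        refine Set.ncard_le_ncard ((ids_Dw h1 hPP w).2.1 _ _ ?_) ((ids_Dw h1 hPP w).1 _).2.2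
        exact (Finset.single_le_sum (fun _ _ => Nat.zero_le _) (Finset.mem_univ w)).trans (he w)
      exact mul_le_mul_of_nonneg_left (by exact_mod_cast h8) hε.le)
    have hleft : {x : AS PP | x ∈ (famC κ A).D e ∧ ∃ D : Option PP → RatFunc F,
        (∀ w, D w ∈ Dw κ w (e w)) ∧ (x : RatFunc F) = ∑ w, D w ∧
          ∃ w, D w ∈ Dw κ w m}.ncard ≤
        ((Fintype.piFinset (T e)).filter (fun D => ∃ w, D w ∈ T (fun _ => m) w)).card := by
      rw [← Set.ncard_image_of_injective _ Subtype.val_injective]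
      refine le_trans ?_ (Finset.card_image_le (f := fun D : Option PP → RatFunc F => ∑ w, D w))
      rw [← Set.ncard_coe_finset]
      refine Set.ncard_le_ncard ?_ (Finset.finite_toSet _)
      rintro x ⟨z, ⟨-, D, hD, hzD, w, hw⟩, rfl⟩
      rw [Finset.coe_image, Set.mem_image]
      refine ⟨D, Finset.mem_coe.2 (Finset.mem_filter.2 ⟨(hpi e D).2 hD, w, ?_⟩), hzD.symm⟩
      exact (hT (fun _ => m) w _).2 hw
    have hright : (Fintype.piFinset (T e)).card = Nat.card ((famC κ A).D e) := by
      have h6 : Nat.card ((famC κ A).D e) = ((famC κ A).D e : Set (AS PP)).ncard := rfl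
      rw [h6, ← Set.ncard_image_of_injective _ Subtype.val_injective, hval e,
        Set.ncard_coe_finset]
      refine (Finset.card_image_of_injOn ?_).symm
      intro D hD D' hD' hDD
      have h7 := (hpi e D).1 (Finset.mem_coe.1 hD)
      have h8 := (hpi e D').1 (Finset.mem_coe.1 hD')
      have h9 := huni e (fun w => D w + D' w)
        (fun w => ((ids_Dw h1 hPP w).1 _).2.1 _ (h7 w) _ (h8 w)) 0 0 (by
          have h10 : ∑ w, D w = ∑ w, D' w := hDD
          rw [if_pos rfl, Finset.sum_add_distrib, h10, CharTwo.add_self_eq_zero]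
          ring)
      funext w
      exact CharTwo.add_eq_zero.1 (h9.1 w)
    rw [← hright]
    exact (Nat.cast_le.2 hleft).trans hcount

end Pool.Agent.MP72W
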