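import Pool.Agent.Lib.MP_72e2e6_nt.W2.E.Spec

/-!
# MP_72e2e6_nt, theorem T3, E/Itg: integrality of the coefficients of the normal form
-/

namespace Pool.Agent.MP72W

open Polynomial IntermediateField WeierstrassCurve

open scoped Classical

theorem tItg (hAsr : S_Asr) : S_Itg := by
  intro F _ _ _ E hΔ ha1 PP hPP h
  obtain ⟨-, -, hiff, -, -, -, -⟩ := hAsr F 0 PP hPP
  have m1 : E.a₁ ∈ AS PP := (hiff _).2 fun P hm hi hP => (h P hm hi hP).1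
  have m2 : E.a₂ ∈ AS PP := (hiff _).2 fun P hm hi hP => (h P hm hi hP).2.1
  have m3 : E.a₃ ∈ AS PP := (hiff _).2 fun P hm hi hP => (h P hm hi hP).2.2.1
  have m4 : E.a₄ ∈ AS PP := (hiff _).2 fun P hm hi hP => (h P hm hi hP).2.2.2.1
  have m6 : E.a₆ ∈ AS PP := (hiff _).2 fun P hm hi hP => (h P hm hi hP).2.2.2.2.1
  have inv_mem : ∀ f : RatFunc F, f ≠ 0 →
      (∀ P : F[X], P.Monic → Irreducible P → P ∉ PP → ¬ P ∣ f.num) → f⁻¹ ∈ AS PP := by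
    intro f hf hnum
    exact (hiff _).2 fun P hm hi hP hd => hnum P hm hi hP (hd.trans (RatFunc.denom_inv_dvd hf))
  have i1 : E.a₁⁻¹ ∈ AS PP := inv_mem _ ha1 fun P hm hi hP => (h P hm hi hP).2.2.2.2.2.1
  have iΔ : E.Δ⁻¹ ∈ AS PP := inv_mem _ hΔ fun P hm hi hP => (h P hm hi hP).2.2.2.2.2.2
  have mΔ : E.Δ ∈ AS PP := by
    let E' : WeierstrassCurve (AS PP) := ⟨⟨_, m1⟩, ⟨_, m2⟩, ⟨_, m3⟩, ⟨_, m4⟩, ⟨_, m6⟩⟩
    have h1 : E'.map (AS PP).subtype = E := rfl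
    rw [← h1, map_Δ]
    exact E'.Δ.2
  refine ⟨?_, ?_, ?_, ?_⟩
  · rw [div_eq_mul_inv, ← inv_pow]
    exact mul_mem (add_mem (mul_mem m1 m2) m3) (pow_mem i1 3)
  · rw [div_eq_mul_inv, ← inv_pow]
    exact mul_mem mΔ (pow_mem i1 12)
  · rw [inv_div, div_eq_mul_inv]
    exact mul_mem (pow_mem m1 12) iΔ
  · exact div_ne_zero hΔ (pow_ne_zero 12 ha1)

end Pool.Agent.MP72W
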