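import Pool.Agent.Lib.MP_72e2e6_nt.W2.E.Spec
import Pool.Agent.Lib.MP_72e2e6_nt.W2.C.Dgr
import Pool.Agent.Lib.MP_72e2e6_nt.W2.C.Fin2

/-!
# MP_72e2e6_nt, theorem T3, E/Man: the main counting theorem for the curves `EE D (β ^ 2) 0`
-/

set_option autoImplicit false

namespace Pool.Agent.MP72W

open Polynomial IntermediateField WeierstrassCurve

open scoped Classical

private theorem man_l (ε : ℝ) (hε : 0 < ε) :
    ∃ l : ℕ, 1 ≤ l ∧ (2 * (l : ℝ) + 2) * 2 ≤ ε / 4 * 2 ^ l := by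
  have h1 := tendsto_pow_const_mul_const_pow_of_lt_one 1 (by norm_num : (0 : ℝ) ≤ 1 / 2)
    (by norm_num)
  have h2 := tendsto_pow_atTop_nhds_zero_of_lt_one (by norm_num : (0 : ℝ) ≤ 1 / 2) (by norm_num)
  have h3 := h1.eventually_lt_const (show (0 : ℝ) < ε / 32 by positivity)
  have h4 := h2.eventually_lt_const (show (0 : ℝ) < ε / 32 by positivity)
  obtain ⟨l, ⟨h5, h6⟩, h7⟩ := ((h3.and h4).and (Filter.eventually_ge_atTop 1)).exists
  refine ⟨l, h7, ?_⟩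
  rw [pow_one] at h5
  have h8 : (0 : ℝ) < 2 ^ l := by positivity
  rw [one_div, inv_pow] at h5 h6
  have h9 : (l : ℝ) < ε / 32 * 2 ^ l := by
    rw [← div_lt_iff₀ h8, div_eq_mul_inv]
    exact h5
  have h10 : 1 < ε / 32 * 2 ^ l := by
    rw [← div_lt_iff₀ h8, one_div]
    exact h6
  linarith

/-- Markov's inequality -/
private theorem man_markov {α : Type} (S : Set α) (hS : S.Finite) (f : α → ℕ) (T : ℕ) (B : ℝ)
    (h : ∑ᶠ x ∈ S, (f x : ℝ) ≤ B) : ({x | x ∈ S ∧ T ≤ f x}.ncard : ℝ) * T ≤ B := by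
  refine le_trans ?_ h
  rw [finsum_mem_eq_finite_toFinset_sum _ hS]
  have h1 : {x | x ∈ S ∧ T ≤ f x} = ((hS.toFinset.filter fun x => T ≤ f x : Finset α) : Set α) := by
    ext x
    simp
  rw [h1, Set.ncard_coe_finset, ← nsmul_eq_mul, ← Finset.sum_const]
  refine (Finset.sum_le_sum fun x hx => ?_).trans
    (Finset.sum_le_sum_of_subset_of_nonneg (Finset.filter_subset _ _) fun _ _ _ => by positivity)
  exact_mod_cast (Finset.mem_filter.1 hx).2

private theorem man_sg (n : ℕ) (x y : ZMod 2) : sg n (x + y) = sg n x * sg n y := by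
  have h : ∀ z : ZMod 2, z = 0 ∨ z = 1 := by decide
  have h1 : (1 : ZMod 2) ≠ 0 := by decide
  have h2 : (1 : ZMod 2) + 1 = 0 := by decide
  rcases h x with rfl | rfl <;> rcases h y with rfl | rfl
  · simp [sg]
  · simp [sg]
  · simp [sg]
  · simp [sg, h2]

private theorem man_tw {G : Type} [Group G] [TopologicalSpace G] {n : ℕ} {ψ : G → ZMod (2 ^ n)}
    (hψ : Chr ψ) {h : G → ZMod 2} (hh : Hom2 h) : Chr (tw ψ h) where
  loc := by
    have h1 := (hψ.loc.prodMk hh.loc).comp fun p => p.1 * sg n p.2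
    exact h1
  one := by
    have h1 : h 1 = 0 := by
      have h2 := hh.add 1 1
      rw [one_mul] at h2
      exact left_eq_add.1 h2
    show ψ 1 * sg n (h 1) = 1
    rw [hψ.one, h1]
    simp [sg]
  mul a b := by
    show ψ (a * b) * sg n (h (a * b)) = (ψ a * sg n (h a)) * (ψ b * sg n (h b))
    rw [hψ.mul, hh.add, man_sg]
    ring

private theorem man_C {F : Type} [Field F] (PP : Finset F[X]) (c : ZMod 2) (κ : F) :
    (if c = 0 then 0 else RatFunc.C κ : RatFunc F) ∈ AS PP := by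
  by_cases hc : c = 0
  · rw [if_pos hc]
    exact zero_mem _
  · rw [if_neg hc]
    exact ⟨0, C κ, by rw [pow_zero, map_one, mul_one, RatFunc.algebraMap_C]⟩

theorem tMan (hHlo : S_Hlo) (hGoo : S_Goo) (hPsi : S_Psi) (hThA : S_ThA) (hIds : S_Ids)
    (hDpp : S_Dpp) (hOne : S_One) : S_Man := by
  intro F _ _ _ κ hκ PP hPP A hA a₀ β ha₀ hβ hβi hβ0 ε hε
  obtain ⟨l, hl, hle⟩ := man_l ε hε
  obtain ⟨hadd, huniq, hfin, hsmall⟩ := hIds F κ hκ PP hPP A hA
  obtain ⟨hHom, hHadd, -, -, -, -⟩ := hHlo F PP hPP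
  obtain ⟨ψ, hψ, hψ4, hψQ⟩ := hPsi F PP hPP β hβ hβ0 (2 * l)
  -- the twisted characters
  set b : ZMod 2 → AS PP := fun c =>
    ⟨a₀ + (if c = 0 then 0 else RatFunc.C κ), add_mem ha₀ (man_C PP c κ)⟩ with hb
  set ψ' : ZMod 2 → GS PP → ZMod (2 ^ (2 * l + 1)) := fun c =>
    tw ψ (hAS (RatFunc F) (Om (AS PP) (RatFunc F) (Kgs F)) (b c : RatFunc F)) with hψ'
  have hchr : ∀ c, Chr (ψ' c) := fun c => man_tw hψ (hHom (b c))
  have hcomp : ∀ (c : ZMod 2) (x : AS PP),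
      tw ψ (hAS (RatFunc F) (Om (AS PP) (RatFunc F) (Kgs F))
        (a₀ + ((x : RatFunc F) + (if c = 0 then 0 else RatFunc.C κ)))) =
        tw (ψ' c) ((famC κ A).h x) := by
    intro c x
    funext g
    have h1 : a₀ + ((x : RatFunc F) + (if c = 0 then 0 else RatFunc.C κ)) =
        (b c : RatFunc F) + (x : RatFunc F) := by
      show _ = a₀ + (if c = 0 then 0 else RatFunc.C κ) + (x : RatFunc F)
      ring
    rw [h1]
    show ψ g * sg _ (hAS _ _ ((b c : RatFunc F) + (x : RatFunc F)) g) =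
      (ψ g * sg _ (hAS _ _ (b c : RatFunc F) g)) * sg _ (hAS _ _ (x : RatFunc F) g)
    rw [hHadd, man_sg]
    ring
  -- part A
  have hA' : ∀ c, ∃ e₀ : ℕ, ∀ e : Option PP → ℕ, (∀ w, e₀ ≤ e w) →
      ∑ᶠ D ∈ ((famC κ A).D e : Set (AS PP)),
        (XX (famC κ A).W (famC κ A).φ (tw (ψ' c) ((famC κ A).h D)) : ℝ) ≤
        (((2 * l + 1 : ℕ) : ℝ) + 1) * 2 ^ (Fintype.card PP + (2 * l + 1)) *
          Nat.card ((famC κ A).D e) := fun c =>
    hThA (GS PP) PP (AS PP) (famC κ A) (hGoo F κ hκ PP hPP A hA) (2 * l + 1) (by omega) (ψ' c)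
      (hchr c) 1 one_pos
  choose e₁ he₁ using hA'
  -- deep twists
  set M : ℝ := 2 + ∑ w : Option PP, ∑ j ∈ Finset.range (2 * l + 1), A.av w (β ^ 2 ^ j) with hM
  have hMnn : ∀ w : Option PP, 0 ≤ ∑ j ∈ Finset.range (2 * l + 1), A.av w (β ^ 2 ^ j) :=
    fun w => Finset.sum_nonneg fun j _ => (A.av w).nonneg _
  have hM1 : 1 < M := by
    have h1 := Finset.sum_nonneg fun w (_ : w ∈ (Finset.univ : Finset (Option PP))) => hMnn w
    rw [hM]
    linarith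
  have hM2 : ∀ (w : Option PP), ∀ j ≤ 2 * l, A.av w (β ^ 2 ^ j) < M := by
    intro w j hj
    have h1 : A.av w (β ^ 2 ^ j) ≤ ∑ j ∈ Finset.range (2 * l + 1), A.av w (β ^ 2 ^ j) :=
      Finset.single_le_sum (f := fun j => A.av w (β ^ 2 ^ j)) (fun j _ => (A.av w).nonneg _)
        (Finset.mem_range.2 (by omega))
    have h2 : ∑ j ∈ Finset.range (2 * l + 1), A.av w (β ^ 2 ^ j) ≤
        ∑ w : Option PP, ∑ j ∈ Finset.range (2 * l + 1), A.av w (β ^ 2 ^ j) :=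
      Finset.single_le_sum (f := fun w : Option PP =>
        ∑ j ∈ Finset.range (2 * l + 1), A.av w (β ^ 2 ^ j)) (fun w _ => hMnn w) (Finset.mem_univ w)
    rw [hM]
    linarith
  obtain ⟨m, hm⟩ := hDpp F κ hκ PP hPP A hA a₀ ha₀ M
  obtain ⟨e₂, he₂⟩ := hsmall m (ε / 2) (by positivity)
  refine ⟨max (max (e₁ 0) (e₁ 1)) e₂, fun e he c => ?_⟩
  have hec : ∀ w, e₁ c ≤ e w := by
    intro w
    have h : ∀ z : ZMod 2, z = 0 ∨ z = 1 := by decide
    have h1 := he w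
    rcases h c with rfl | rfl
    · exact ((le_max_left _ _).trans (le_max_left _ _)).trans h1
    · exact ((le_max_right _ _).trans (le_max_left _ _)).trans h1
  have he2 : ∀ w, e₂ ≤ e w := fun w => (le_max_right _ _).trans (he w)
  set S : Set (AS PP) := ((famC κ A).D e : Set (AS PP)) with hS
  set N : ℝ := (Nat.card ((famC κ A).D e) : ℝ) with hN
  have hN0 : 0 ≤ N := Nat.cast_nonneg _
  -- Markov
  have hB1 : ({x : AS PP | x ∈ S ∧
      2 ^ (3 * l + PP.card) ≤ XX (famC κ A).W (famC κ A).φ (tw (ψ' c) ((famC κ A).h x))}.ncard : ℝ)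
        ≤ ε / 4 * N := by
    have h1 := man_markov S (hfin e) (fun x => XX (famC κ A).W (famC κ A).φ
      (tw (ψ' c) ((famC κ A).h x))) (2 ^ (3 * l + PP.card)) _ (he₁ c e hec)
    have h2 : (0 : ℝ) < 2 ^ (3 * l + PP.card) := by positivity
    refine le_of_mul_le_mul_right ?_ h2
    push_cast at h1
    refine h1.trans ?_
    rw [Fintype.card_coe]
    have h3 : (2 * (l : ℝ) + 1 + 1) * 2 ^ (PP.card + (2 * l + 1)) =
        ((2 * (l : ℝ) + 2) * 2) * 2 ^ (PP.card + 2 * l) := by ring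
    have h4 : ε / 4 * N * 2 ^ (3 * l + PP.card) = (ε / 4 * 2 ^ l) * 2 ^ (PP.card + 2 * l) * N := by
      rw [show 3 * l + PP.card = l + (PP.card + 2 * l) by ring, pow_add]
      ring
    rw [h3, h4]
    exact mul_le_mul_of_nonneg_right (mul_le_mul_of_nonneg_right hle (by positivity)) hN0
  have hB2 := he₂ e he2
  -- the inclusion
  have hsub : {x : AS PP | x ∈ (famC κ A).D e ∧
      ¬ Gd (EE (a₀ + ((x : RatFunc F) + (if c = 0 then 0 else RatFunc.C κ))) (β ^ 2) 0)} ⊆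
      {x : AS PP | x ∈ S ∧
        2 ^ (3 * l + PP.card) ≤ XX (famC κ A).W (famC κ A).φ (tw (ψ' c) ((famC κ A).h x))} ∪
      {x : AS PP | x ∈ (famC κ A).D e ∧ ∃ D : Option PP → RatFunc F,
        (∀ w, D w ∈ Dw κ w (e w)) ∧ (x : RatFunc F) = ∑ w, D w ∧ ∃ w, D w ∈ Dw κ w m} := by
    rintro x ⟨hx, hnG⟩
    by_contra hcon
    rw [Set.mem_union, not_or] at hcon
    obtain ⟨h1, h2⟩ := hcon
    obtain ⟨D, hD, hxD⟩ := (hadd e x).1 hx
    have hDm : ∀ w, D w ∉ Dw κ w m := fun w hw => h2 ⟨hx, D, hD, hxD, w, hw⟩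
    have hXX : XX (famC κ A).W (famC κ A).φ (tw (ψ' c) ((famC κ A).h x)) <
        2 ^ (3 * l + PP.card) := by
      by_contra h3
      exact h1 ⟨hx, not_lt.1 h3⟩
    have hDe : ∀ w, D w ∈ Dw κ w (Finset.univ.sup e) := by
      intro w
      have h3 : e w ≤ Finset.univ.sup e := Finset.le_sup (Finset.mem_univ w)
      rcases w with _ | P
      · exact ((tDgr tFin2 F κ X monic_X irreducible_X).2.1 _ _ h3).2 (hD none)
      · exact ((tDgr tFin2 F κ P.1 (hPP _ P.2).1 (hPP _ P.2).2).2.1 _ _ h3).1 (hD (some P))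
    have hD' : a₀ + ((x : RatFunc F) + (if c = 0 then 0 else RatFunc.C κ)) ∈ AS PP :=
      add_mem ha₀ (add_mem x.2 (man_C PP c κ))
    obtain ⟨Q, hQ, hQσ⟩ := hψQ _ hD'
    refine hnG (hOne F κ hκ PP hPP A hA _ β hD' hβ hβi hβ0 (2 * l) (by omega) ψ hψ hψ4 Q hQ hQσ
      ?_ ?_)
    · intro w
      refine ⟨M, hM1, hM2 w, fun y => ?_⟩
      rw [hxD]
      exact hm _ D hDe hDm c w y
    · rw [hcomp]
      calc XX (famC κ A).W (famC κ A).φ (tw (ψ' c) ((famC κ A).h x)) ^ 2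
          < (2 ^ (3 * l + PP.card)) ^ 2 := Nat.pow_lt_pow_left hXX two_ne_zero
        _ = 2 ^ (6 * l + 2 * PP.card) := by rw [← pow_mul]; congr 1; ring
        _ ≤ 2 ^ (3 * (2 * l) + 1 + 2 * PP.card) := Nat.pow_le_pow_right (by norm_num) (by omega)
  have hfinU : ({x : AS PP | x ∈ S ∧
        2 ^ (3 * l + PP.card) ≤ XX (famC κ A).W (famC κ A).φ (tw (ψ' c) ((famC κ A).h x))} ∪
      {x : AS PP | x ∈ (famC κ A).D e ∧ ∃ D : Option PP → RatFunc F,
        (∀ w, D w ∈ Dw κ w (e w)) ∧ (x : RatFunc F) = ∑ w, D w ∧ ∃ w, D w ∈ Dw κ w m}).Finite := by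
    refine (hfin e).subset ?_
    rintro x (hx | hx)
    · exact hx.1
    · exact hx.1
  have h5 := (Set.ncard_le_ncard hsub hfinU).trans (Set.ncard_union_le _ _)
  have h6 : ({x : AS PP | x ∈ (famC κ A).D e ∧
      ¬ Gd (EE (a₀ + ((x : RatFunc F) + (if c = 0 then 0 else RatFunc.C κ))) (β ^ 2) 0)}.ncard : ℝ)
      ≤ ({x : AS PP | x ∈ S ∧
        2 ^ (3 * l + PP.card) ≤ XX (famC κ A).W (famC κ A).φ
          (tw (ψ' c) ((famC κ A).h x))}.ncard : ℝ) +
      ({x : AS PP | x ∈ (famC κ A).D e ∧ ∃ D : Option PP → RatFunc F,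
        (∀ w, D w ∈ Dw κ w (e w)) ∧ (x : RatFunc F) = ∑ w, D w ∧
          ∃ w, D w ∈ Dw κ w m}.ncard : ℝ) := by
    exact_mod_cast h5
  refine h6.trans ((add_le_add hB1 hB2).trans ?_)
  nlinarith

end Pool.Agent.MP72W
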