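import Pool.Agent.Lib.MP_72e2e6_nt.W2.E.Spec

/-!
# MP_72e2e6_nt, theorem T3, E/Nf: normal forms in characteristic two
-/

namespace Pool.Agent.MP72W

open Polynomial IntermediateField WeierstrassCurve

open scoped Classical

private theorem nf_disc {K : Type} [Field K] [CharP K 2] (E : WeierstrassCurve K) :
    E.Δ = E.a₁ ^ 6 * E.a₆ + E.a₁ ^ 5 * E.a₃ * E.a₄ + E.a₁ ^ 4 * E.a₂ * E.a₃ ^ 2 +
      E.a₁ ^ 3 * E.a₃ ^ 3 + E.a₁ ^ 4 * E.a₄ ^ 2 + E.a₃ ^ 4 := by
  have h2 : (2 : K) = 0 := CharTwo.two_eq_zero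
  have h4 : (4 : K) = 0 := by linear_combination 2 * h2
  have h8 : (8 : K) = 0 := by linear_combination 4 * h2
  have h9 : (9 : K) = 1 := by linear_combination 4 * h2
  have h27 : (27 : K) = 1 := by linear_combination 13 * h2
  simp only [WeierstrassCurve.Δ, b₂, b₄, b₆, b₈, h2, h4, h8, h9, h27, zero_mul, zero_add, add_zero,
    one_mul, CharTwo.sub_eq_add, CharTwo.neg_eq]
  ring

theorem tNf (hCov : S_Cov) (hInv : S_Inv) : S_Nf := by
  intro K _ _
  have h2 : (2 : K) = 0 := CharTwo.two_eq_zero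
  have hsymm : ∀ W W' : WeierstrassCurve K, PtIso W W' → PtIso W' W := fun W W' =>
    (hInv K W W' W).1
  have hp2 : ∀ D γ c : K, PtIso (EE D γ 0) (EE (D + (c ^ 2 + c)) γ 0) := by
    intro D γ c
    have h1 := hCov K (EE D γ 0) ⟨1, 0, c, 0⟩
    have h3 : (⟨1, 0, c, 0⟩ : WeierstrassCurve.VariableChange K) • (EE D γ 0) =
        EE (D + (c ^ 2 + c)) γ 0 := by
      ext
      · rw [variableChange_a₁]
        simp only [EE, inv_one, Units.val_one, one_mul]
        linear_combination c * h2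
      · rw [variableChange_a₂]
        simp only [EE, inv_one, Units.val_one, one_pow, one_mul, pow_zero, pow_one]
        linear_combination (-c - c ^ 2) * h2
      · rw [variableChange_a₃]
        simp only [EE, inv_one, Units.val_one]
        ring
      · rw [variableChange_a₄]
        simp only [EE, inv_one, Units.val_one]
        ring
      · rw [variableChange_a₆]
        simp only [EE, inv_one, Units.val_one]
        ring
    rw [h3] at h1
    exact hsymm _ _ h1
  refine ⟨?_, hp2, ?_⟩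
  · intro E hΔ ha1 D
    have h1 := hCov K (twist E D) ⟨Units.mk0 E.a₁ ha1, E.a₃ / E.a₁, 0,
      (E.a₁ ^ 2 * E.a₄ + E.a₃ ^ 2) / E.a₁ ^ 3⟩
    have h3 : (⟨Units.mk0 E.a₁ ha1, E.a₃ / E.a₁, 0,
        (E.a₁ ^ 2 * E.a₄ + E.a₃ ^ 2) / E.a₁ ^ 3⟩ : WeierstrassCurve.VariableChange K) •
        (twist E D) = EE ((E.a₁ * E.a₂ + E.a₃) / E.a₁ ^ 3 + D) (E.Δ / E.a₁ ^ 12) 0 := by
      rw [nf_disc E]
      ext
      · rw [variableChange_a₁]
        simp only [EE, twist, Units.val_inv_eq_inv_val, Units.val_mk0, mul_zero, add_zero]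
        exact inv_mul_cancel₀ ha1
      · rw [variableChange_a₂]
        simp only [EE, twist, Units.val_inv_eq_inv_val, Units.val_mk0, pow_zero, pow_one]
        field_simp
        linear_combination E.a₃ * h2
      · rw [variableChange_a₃]
        simp only [EE, twist, Units.val_inv_eq_inv_val, Units.val_mk0]
        rw [div_mul_cancel₀ _ ha1, h2, zero_mul, add_zero, CharTwo.add_self_eq_zero, mul_zero]
      · rw [variableChange_a₄]
        simp only [EE, twist, Units.val_inv_eq_inv_val, Units.val_mk0]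
        field_simp
        linear_combination
          (E.a₁ * (E.a₁ * E.a₃ * (E.a₂ + E.a₁ ^ 2 * D) + E.a₃ ^ 2)) * h2
      · rw [variableChange_a₆]
        simp only [EE, twist, Units.val_inv_eq_inv_val, Units.val_mk0, pow_zero, pow_one]
        field_simp
        linear_combination (E.a₁ ^ 6 * D * E.a₃ ^ 2 - E.a₁ ^ 5 * E.a₃ * E.a₄ -
          E.a₁ ^ 3 * E.a₃ ^ 3 - E.a₁ ^ 4 * E.a₄ ^ 2 - E.a₁ ^ 2 * E.a₄ * E.a₃ ^ 2 - E.a₃ ^ 4) * h2
    rw [h3] at h1
    exact hsymm _ _ h1
  · intro D γ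
    have h1 := hp2 D (γ ^ 2) D
    have h3 : EE (D + (D ^ 2 + D)) (γ ^ 2) 0 = EE D γ 1 := by
      simp only [EE, pow_zero, pow_one]
      have h4 : D + (D ^ 2 + D) = D ^ 2 := by linear_combination D * h2
      rw [h4]
    rw [h3] at h1
    exact h1

end Pool.Agent.MP72W
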