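import Pool.Agent.Lib.MP_72e2e6_nt.W2.E.Spec

/-!
# MP_72e2e6_nt, theorem T3, module One: one curve with a small number of solutions
-/

namespace Pool.Agent.MP72W

open Polynomial IntermediateField WeierstrassCurve

open scoped Classical

private lemma one_sg_mul (n : ℕ) : ∀ x y : ZMod 2, sg n (x + y) = sg n x * sg n y := by
  intro x y
  have h01 : ∀ z : ZMod 2, z = 0 ∨ z = 1 := by decide
  have hx := h01 x
  have hy := h01 y
  have h10 : (1 : ZMod 2) ≠ 0 := by decide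
  have h11 : (1 : ZMod 2) + 1 = 0 := by decide
  rcases hx with rfl | rfl <;> rcases hy with rfl | rfl <;> simp [sg, h11]

private lemma one_chr {G : Type*} [Group G] [TopologicalSpace G] {n : ℕ} {ψ : G → ZMod (2 ^ n)}
    {h : G → ZMod 2} (hψ : Chr ψ) (hh : Hom2 h) : Chr (tw ψ h) := by
  refine ⟨?_, ?_, ?_⟩
  · have h1 : IsLocallyConstant fun g => (ψ g, h g) := hψ.loc.prodMk hh.loc
    exact h1.comp (fun p : ZMod (2 ^ n) × ZMod 2 => p.1 * sg n p.2)
  · have h1 : h 1 = 0 := by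
      have := hh.add 1 1
      rw [mul_one] at this
      exact left_eq_add.mp this
    simp [tw, hψ.one, h1, sg]
  · intro a b
    simp only [tw]
    rw [hψ.mul, hh.add, one_sg_mul]
    ring

private lemma one_val_smul {k : ℕ} {M : Type*} [AddMonoid M] (R : M) (hR : 2 ^ k • R = 0)
    (a : ZMod (2 ^ (k + 1))) : (rdK k a).val • R = a.val • R := by
  have h1 : rdK k a = ((a.val : ℕ) : ZMod (2 ^ k)) := by
    conv_lhs => rw [← ZMod.natCast_zmod_val a]
    rw [map_natCast]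
  rw [h1, ZMod.val_natCast]
  conv_rhs => rw [← Nat.div_add_mod a.val (2 ^ k)]
  rw [add_nsmul, mul_comm, mul_nsmul', hR, nsmul_zero, zero_add]

private lemma one_base {K : Type} [Field K] (W : WeierstrassCurve K) : (W⁄K) = W := by
  ext <;> simp [WeierstrassCurve.baseChange]

attribute [-instance] Subtype.instDecidableEq in
theorem tOne : S_LfP → S_LfI → S_Fr → S_Hlo → S_Rgo → S_Pts → S_Map → S_FVn → S_Tq → S_FS →
    S_VS → S_Dsc → S_Fsh → S_Hgt → S_One := by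
  intro hLfP hLfI hFr hHlo hRgo _hPts _hMap hFVn hTq hFS hVS hDsc hFsh hHgt
  intro F _ _ _ κ hκ PP hPP A hA D β hD hβ hβi hβ0 k hk ψ hψ hψ4 Q hQ hQσ hM hX
  have hde : (fun a b : Kgs F => Subtype.instDecidableEq a b) =
      fun a b => Classical.propDecidable (a = b) := Subsingleton.elim _ _
  rw [hde] at hQσ
  -- the Frobenius elements
  have hg : ∀ w : Option PP, ∃ g : Gal(Kvs (A.av w)/(A.av w).Completion),
      IsFro (Nat.card F) (Nat.card F ^ dgP (w.map Subtype.val)) g := by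
    intro w
    have hpl := hA.pl w
    cases w with
    | none =>
      obtain ⟨R, hR⟩ := hLfI F (A.av none) hpl
      exact (hFr F (A.av none) _ _ R hR).1
    | some P =>
      obtain ⟨R, hR⟩ := hLfP F P.1 (A.av (some P)) hpl
      exact (hFr F (A.av (some P)) _ _ R hR).1
  choose g₀ hg₀ using hg
  obtain ⟨hH1, hH2, hH3, hH4, hH5, hH6⟩ := hHlo F PP hPP
  obtain ⟨hR1, hR2, hR3, hR4⟩ := hRgo F PP hPP
  have hγ0 : β ^ 2 ≠ 0 := pow_ne_zero 2 hβ0
  obtain ⟨hT1, -⟩ := hTq (RatFunc F) D β hβ0 (Kgs F) k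
  obtain ⟨hR, -⟩ := hT1 Q hQ
  obtain ⟨-, -, -, -, -, -, -, hV8, -, -⟩ := hFVn (RatFunc F) D (β ^ 2) hγ0 (Kgs F)
  have hord : addOrderOf (Q + Q) = 2 ^ k := (hV8 k (Q + Q) hR).1
  have hRz : 2 ^ k • (Q + Q) = 0 := by rw [← hord]; exact addOrderOf_nsmul_eq_zero _
  set h := hAS (RatFunc F) (Om (AS PP) (RatFunc F) (Kgs F)) D with hh
  have hh2 : Hom2 h := hH1 ⟨D, hD⟩
  set χ : GS PP → ZMod (2 ^ (k + 1)) := tw ψ h with hχ
  have hChr : Chr χ := one_chr hψ hh2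
  -- an element with `χ g = -1 + 4 m`
  have hnp : ¬ ∃ y : RatFunc F, y ^ 2 + y = D := by
    rintro ⟨y, hy⟩
    obtain ⟨M, hM1, -, hM3⟩ := hM none
    have h1 := hM3 (algebraMap (RatFunc F) (A.av none).Completion y)
    rw [← map_pow, ← map_add, ← map_add, hy] at h1
    have h2 : D + D = 0 := CharTwo.add_self_eq_zero D
    rw [h2, map_zero, norm_zero] at h1
    linarith
  have hneg : ∃ g m, χ g = -1 + 4 * m := by
    have h1 : ¬ ∀ g, h g = 0 := fun hall => hnp ((hH6 ⟨D, hD⟩).1 hall)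
    push_neg at h1
    obtain ⟨g, hg1⟩ := h1
    obtain ⟨m, hm⟩ := hψ4 g
    refine ⟨g, -m, ?_⟩
    simp only [hχ, tw, sg, if_neg hg1, hm]
    ring
  have hVS' := hVS F κ hκ PP hPP A hA D β hD hβ hβi hβ0 k hk Q hQ χ hChr
  rw [hde] at hVS'
  replace hVS' := hVS' hQσ hneg hM
  have hFS' := hFS F κ hκ PP hPP A hA g₀ hg₀ D β hD hβ hβi hβ0 k Q hQ χ hChr
  rw [hde] at hFS'
  replace hFS' := hFS' hQσ
  -- the descent
  have hloc : IsLocallyConstant (fun σ : Gal(Kgs F/RatFunc F) => rdK k (χ (rG PP σ))) := by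
    have h1 : IsLocallyConstant (fun σ : Gal(Kgs F/RatFunc F) => χ (rG PP σ)) :=
      hChr.loc.comp_continuous hR1
    exact h1.comp (rdK k)
  have hgal : ∀ σ : Gal(Kgs F/RatFunc F),
      pmap (EE D (β ^ 2) k) (σ : Kgs F →ₐ[RatFunc F] Kgs F) (Q + Q) =
        ((fun g => rdK k (χ g)) (rG PP σ)).val • (Q + Q) := by
    intro σ
    show _ = (rdK k (χ (rG PP σ))).val • (Q + Q)
    rw [one_val_smul _ hRz, map_add, hQσ σ, nsmul_add]
  have hD0 := hDsc F PP hPP D (β ^ 2) hγ0 k (Q + Q) hR (fun g => rdK k (χ g)) hloc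
  rw [hde] at hD0
  have hD1 := hD0 hgal (2 ^ (k - 1) * 2 ^ (PP.card + 1)) (2 ^ (k + 1 + PP.card))
    (XX (famC κ A).W (famC κ A).φ χ)
    (fun n c h1 h2 => by
      have := hVS' n c h1 h2
      rwa [mul_assoc] at this)
    (fun n p h1 h2 => hFS' n p h1 h2)
  have hab : 2 ^ (k - 1) * 2 ^ (PP.card + 1) * 2 ^ (k + 1 + PP.card) =
      2 ^ (2 * k + 1 + 2 * PP.card) := by
    rw [← pow_add, ← pow_add]
    congr 1
    omega
  have hsmall : ∀ (n : ℕ) (z : Fin n → Gal(Kgs F/RatFunc F) → Pt D (β ^ 2) 0 (Kgs F))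
      (p : Fin n → Pt D (β ^ 2) 0 (Kgs F)), (∀ i, IsZP D (β ^ 2) k (z i) (p i)) →
      (∀ i j, i ≠ j → ¬ ZEq D (β ^ 2) k (z i) (z j) (p i) (p j)) → n < 2 ^ k := by
    intro n z p h1 h2
    have h3 := hD1 n z p h1 h2
    rw [hab] at h3
    have h4 : n * 2 ^ (2 * k + 1 + 2 * PP.card) < 2 ^ k * 2 ^ (2 * k + 1 + 2 * PP.card) := by
      calc n * 2 ^ (2 * k + 1 + 2 * PP.card) ≤ _ := h3
        _ < 2 ^ (3 * k + 1 + 2 * PP.card) := hX
        _ = 2 ^ k * 2 ^ (2 * k + 1 + 2 * PP.card) := by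
          rw [← pow_add]
          congr 1
          omega
    exact lt_of_mul_lt_mul_right h4 (Nat.zero_le _)
  obtain ⟨hS1, hS2⟩ := hFsh F D (β ^ 2) hγ0 k hk hsmall
  have hfin := hHgt F D (β ^ 2) hγ0 k hk hS2
  refine ⟨?_, hS1⟩
  have h5 : Finite ((EE D (β ^ 2) 0)⁄(RatFunc F)).toAffine.Point := hfin
  rw [one_base] at h5
  exact h5

end Pool.Agent.MP72W
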