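import Pool.Agent.Lib.MP_72e2e6_nt.W2.E.Spec

/-!
# MP_72e2e6_nt, theorem T3, part E: Shg, the group of the crossed homomorphisms `InSha` (helper53)
-/

namespace Pool.Agent.MP72W

open Polynomial IntermediateField WeierstrassCurve

open scoped Classical

section pm

variable {K S L M : Type} [Field K] (W : WeierstrassCurve K) [Field S] [Field L] [Field M]
  [Algebra K S] [Algebra K L] [Algebra K M] [Algebra S L] [Algebra S M]
  [IsScalarTower K S L] [IsScalarTower K S M]

private theorem pm_add (I : DecidableEq L) (J : DecidableEq M) (f : L →ₐ[S] M)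
    (P Q : (W⁄L).toAffine.Point) : pmap W f (P + Q) = pmap W f P + pmap W f Q := by
  obtain rfl : I = fun a b => Classical.propDecidable (a = b) := Subsingleton.elim _ _
  obtain rfl : J = fun a b => Classical.propDecidable (a = b) := Subsingleton.elim _ _
  exact map_add (pmap W f) P Q

private theorem pm_zero (f : L →ₐ[S] M) : pmap W f (0 : (W⁄L).toAffine.Point) = 0 := rfl

private theorem pm_neg (f : L →ₐ[S] M)
    (P : (W⁄L).toAffine.Point) : pmap W f (-P) = -pmap W f P :=
  map_neg (pmap W f) P

private theorem pm_sub (I : DecidableEq L) (J : DecidableEq M) (f : L →ₐ[S] M)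
    (P Q : (W⁄L).toAffine.Point) : pmap W f (P - Q) = pmap W f P - pmap W f Q := by
  obtain rfl : I = fun a b => Classical.propDecidable (a = b) := Subsingleton.elim _ _
  obtain rfl : J = fun a b => Classical.propDecidable (a = b) := Subsingleton.elim _ _
  exact map_sub (pmap W f) P Q

private theorem pm_congr (f g : L →ₐ[K] M) {x y : L} (h : (W⁄L).toAffine.Nonsingular x y)
    (hx : f x = g x) (hy : f y = g y) :
    pmap W f (Affine.Point.some x y h) = pmap W g (Affine.Point.some x y h) := by
  unfold pmap
  rw [Affine.Point.map_some, Affine.Point.map_some, Affine.Point.some.injEq]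
  exact ⟨hx, hy⟩

omit [Algebra S L] [IsScalarTower K S L] in
private theorem pm_sq (f : L →ₐ[K] M) (s : L →ₐ[K] L) (t : M →ₐ[S] M)
    (hst : ∀ x, t (f x) = f (s x)) (P : (W⁄L).toAffine.Point) :
    pmap W f (pmap W s P) = pmap W t (pmap W f P) := by
  cases P with
  | zero => rfl
  | some x y h =>
    unfold pmap
    rw [Affine.Point.map_some, Affine.Point.map_some, Affine.Point.map_some,
      Affine.Point.map_some, Affine.Point.some.injEq]
    exact ⟨(hst x).symm, (hst y).symm⟩

end pm

private theorem alg1 {G : Type} [AddCommGroup G] (a b c d : G) :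
    (a - b) + (c - d) = (a + c) - (b + d) := by abel

private theorem alg2 {G : Type} [AddCommGroup G] (a b : G) : -(a - b) = -a - -b := by abel

/-- the instance of decidable equality used in the definitions -/
private noncomputable abbrev ins1 (K : Type) [Field K] : DecidableEq (SeparableClosure K) :=
  inferInstance

section sha

variable {K : Type} [Field K] (W : WeierstrassCurve K)

private theorem sha_iff (I : DecidableEq (SeparableClosure K))
    (J : ∀ v : AbsoluteValue K ℝ, DecidableEq (SeparableClosure v.Completion))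
    (z : Gal(SeparableClosure K/K) → (W⁄(SeparableClosure K)).toAffine.Point) :
    InSha W z ↔ (IsLocallyConstant z ∧ ∀ σ τ, z (σ * τ) =
      z σ + pmap W (σ : SeparableClosure K →ₐ[K] SeparableClosure K) (z τ)) ∧
      ∀ v : AbsoluteValue K ℝ, v.IsNontrivial →
        ∀ ι : SeparableClosure K →ₐ[K] SeparableClosure v.Completion,
          ∃ Q : (W⁄(SeparableClosure v.Completion)).toAffine.Point,
            ∀ (σ : Gal(SeparableClosure K/K))
              (τ : Gal(SeparableClosure v.Completion/v.Completion)),
              (∀ x, τ (ι x) = ι (σ x)) → pmap W ι (z σ) =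
                pmap W (τ : SeparableClosure v.Completion →ₐ[v.Completion]
                  SeparableClosure v.Completion) Q - Q := by
  obtain rfl : I = ins1 K := Subsingleton.elim _ _
  obtain rfl : J = fun v : AbsoluteValue K ℝ => ins1 v.Completion :=
    funext fun v => Subsingleton.elim _ _
  exact ⟨fun h => ⟨⟨h.1.loc, h.1.mul⟩, h.2⟩, fun h => ⟨⟨h.1.1, h.1.2⟩, h.2⟩⟩

private theorem loc_pt (P : (W⁄(SeparableClosure K)).toAffine.Point) :
    IsLocallyConstant fun σ : Gal(SeparableClosure K/K) =>
      pmap W (σ : SeparableClosure K →ₐ[K] SeparableClosure K) P := by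
  have hop : ∀ (σ : Gal(SeparableClosure K/K)) (x : SeparableClosure K),
      IsOpen {τ : Gal(SeparableClosure K/K) | τ x = σ x} := by
    intro σ x
    have h1 : IsOpen (MulAction.stabilizer Gal(SeparableClosure K/K) x :
        Set Gal(SeparableClosure K/K)) := stabilizer_isOpen_of_isIntegral x
    have h2 := h1.preimage (continuous_const_mul σ⁻¹)
    have h3 : {τ : Gal(SeparableClosure K/K) | τ x = σ x} = (fun τ => σ⁻¹ * τ) ⁻¹'
        (MulAction.stabilizer Gal(SeparableClosure K/K) x : Set Gal(SeparableClosure K/K)) := by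
      ext τ
      rw [Set.mem_preimage, SetLike.mem_coe, MulAction.mem_stabilizer_iff, mul_smul,
        inv_smul_eq_iff]
      exact Iff.rfl
    rw [h3]
    exact h2
  rw [IsLocallyConstant.iff_exists_open]
  intro σ
  cases P with
  | zero => exact ⟨Set.univ, isOpen_univ, trivial, fun τ _ => rfl⟩
  | some x y h =>
    refine ⟨{τ | τ x = σ x} ∩ {τ | τ y = σ y}, (hop σ x).inter (hop σ y), ⟨rfl, rfl⟩, ?_⟩
    rintro τ ⟨hx, hy⟩
    have hx' : τ x = σ x := hx
    have hy' : τ y = σ y := hy
    exact pm_congr W (τ : SeparableClosure K →ₐ[K] SeparableClosure K)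
      (σ : SeparableClosure K →ₐ[K] SeparableClosure K) h hx' hy'

end sha

theorem tShg : S_Shg := by
  intro K _ W
  have key : ∀ I : DecidableEq (SeparableClosure K),
      InSha W (fun _ => 0) ∧
      (∀ z z', InSha W z → InSha W z' → InSha W (fun σ => z σ + z' σ)) ∧
      (∀ z, InSha W z → InSha W (fun σ => - z σ)) ∧
      (∀ (n : ℕ) z, InSha W z → InSha W (fun σ => n • z σ)) ∧
      ∀ P : (W⁄(SeparableClosure K)).toAffine.Point, InSha W (fun σ =>
        pmap W (σ : SeparableClosure K →ₐ[K] SeparableClosure K) P - P) := by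
    intro I
    let J : ∀ v : AbsoluteValue K ℝ, DecidableEq (SeparableClosure v.Completion) :=
      fun v a b => Classical.propDecidable (a = b)
    have hJ := sha_iff W I J
    have h0 : InSha W (fun _ => 0) := by
      rw [hJ]
      refine ⟨⟨IsLocallyConstant.const 0, fun σ τ => ?_⟩, fun v _ ι => ⟨0, fun σ τ _ => ?_⟩⟩
      · rw [pm_zero, add_zero]
      · rw [pm_zero, pm_zero, sub_zero]
    have hadd : ∀ z z', InSha W z → InSha W z' → InSha W (fun σ => z σ + z' σ) := by
      intro z z' h h'
      rw [hJ] at h h' ⊢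
      obtain ⟨⟨l1, m1⟩, t1⟩ := h
      obtain ⟨⟨l2, m2⟩, t2⟩ := h'
      refine ⟨⟨l1.comp₂ l2 (fun a b => a + b), fun σ τ => ?_⟩, fun v hv ι => ?_⟩
      · rw [m1, m2, pm_add W I I]
        abel
      · obtain ⟨Q, hQ⟩ := t1 v hv ι
        obtain ⟨Q', hQ'⟩ := t2 v hv ι
        refine ⟨@HAdd.hAdd _ _ _ (@instHAdd _ (@Affine.Point.instAdd _ _ _ (J v))) Q Q',
          fun σ τ hst => ?_⟩
        rw [pm_add W I (J v), pm_add W (J v) (J v), hQ σ τ hst, hQ' σ τ hst]
        exact alg1 _ _ _ _
    have hneg : ∀ z, InSha W z → InSha W (fun σ => - z σ) := by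
      intro z h
      rw [hJ] at h ⊢
      obtain ⟨⟨l1, m1⟩, t1⟩ := h
      refine ⟨⟨l1.comp (fun a => -a), fun σ τ => ?_⟩, fun v hv ι => ?_⟩
      · rw [m1, pm_neg W]
        abel
      · obtain ⟨Q, hQ⟩ := t1 v hv ι
        refine ⟨-Q, fun σ τ hst => ?_⟩
        rw [pm_neg W, pm_neg W, hQ σ τ hst]
        exact alg2 _ _
    refine ⟨h0, hadd, hneg, ?_, ?_⟩
    · intro n z h
      induction n with
      | zero =>
        have e : (fun σ => (0 : ℕ) • z σ) = fun _ => 0 := funext fun σ => zero_smul ℕ (z σ)
        rw [e]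
        exact h0
      | succ n ih =>
        have e : (fun σ => (n + 1) • z σ) = fun σ => n • z σ + z σ :=
          funext fun σ => succ_nsmul (z σ) n
        rw [e]
        exact hadd _ _ ih h
    · intro P
      rw [hJ]
      refine ⟨⟨(loc_pt W P).comp (fun a => a - P), fun σ τ => ?_⟩, fun v hv ι => ?_⟩
      · have e : pmap W ((σ * τ : Gal(SeparableClosure K/K)) :
            SeparableClosure K →ₐ[K] SeparableClosure K) P =
            pmap W (σ : SeparableClosure K →ₐ[K] SeparableClosure K)
              (pmap W (τ : SeparableClosure K →ₐ[K] SeparableClosure K) P) := by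
          cases P <;> rfl
        rw [e, pm_sub W I I]
        abel
      · refine ⟨pmap W ι P, fun σ τ hst => ?_⟩
        rw [pm_sub W I (J v)]
        have e : pmap W ι (pmap W (σ : SeparableClosure K →ₐ[K] SeparableClosure K) P) =
            pmap W (τ : SeparableClosure v.Completion →ₐ[v.Completion]
                  SeparableClosure v.Completion) (pmap W ι P) := by
          exact pm_sq W ι _ _ hst P
        rw [e]
  exact key _

end Pool.Agent.MP72W
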