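import Pool.Agent.Lib.MP_72e2e6_nt.W2.E.Spec

/-!
# MP_72e2e6_nt, theorem T3, part E: the theorem
-/

namespace Pool.Agent.MP72W

open Polynomial IntermediateField WeierstrassCurve

open scoped Classical

theorem tT3 (h1 : S_Fin2) (h2 : S_Dat) (h3 : S_Inv) (h4 : S_Nf) (h5 : S_Itg) (h6 : S_Fr1)
    (h7 : S_Asr) (h8 : S_Man) (h9 : S_Fib) : S_T3 := by
  intro F _ _ _ E hΔ ha1 PP hPP hbad ε hε
  obtain ⟨_, ⟨κ, hκ⟩, _⟩ := h1 F
  obtain ⟨A, hA⟩ := h2 F κ PP hPP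
  obtain ⟨ha0, hγ, hγi, hγ0⟩ := h5 F E hΔ ha1 PP hPP hbad
  set a₀ : RatFunc F := (E.a₁ * E.a₂ + E.a₃) / E.a₁ ^ 3 with ha₀
  set γ : RatFunc F := E.Δ / E.a₁ ^ 12 with hγd
  obtain ⟨_, _, _, _, _, hC, _⟩ := h7 F κ PP hPP
  obtain ⟨hn1, hn2, hn3⟩ := h4 (RatFunc F)
  have hchar : CharP (RatFunc F) 2 := inferInstance
  -- the property
  let G : RatFunc F → Prop := fun D => Gd (twist E D)
  have hsymm : ∀ W W' : WeierstrassCurve (RatFunc F), PtIso W W' → PtIso W' W :=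
    fun W W' h => (h3 (RatFunc F) W W' W').1 h
  have htrans : ∀ W W' W'' : WeierstrassCurve (RatFunc F), PtIso W W' → PtIso W' W'' →
      PtIso W W'' := fun W W' W'' h h' => (h3 (RatFunc F) W W' W'').2.1 h h'
  have hgd : ∀ W W' : WeierstrassCurve (RatFunc F), PtIso W W' → Gd W → Gd W' :=
    fun W W' h => (h3 (RatFunc F) W W' W').2.2.2 h
  have hE : ∀ D, PtIso (twist E D) (EE (a₀ + D) γ 0) := hn1 E hΔ ha1
  have hGinv : ∀ D y, G D → G (D + (y ^ 2 + y)) := by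
    intro D y hD
    refine hgd _ _ ?_ hD
    refine htrans _ _ _ (hE D) ?_
    refine htrans _ _ _ (hn2 (a₀ + D) γ y) ?_
    have := hsymm _ _ (hE (D + (y ^ 2 + y)))
    rwa [← add_assoc] at this
  have hGd : ∀ D ∈ AS PP, Gd (EE (a₀ + D) (γ ^ 2) 0) → G D := by
    intro D hD hg
    have g1 : Gd (EE (a₀ + D) γ 1) := hgd _ _ (hn3 (a₀ + D) γ) hg
    have g2 : Gd (EE (a₀ + D) γ 0) :=
      h6 F PP hPP (a₀ + D) γ ((AS PP).add_mem ha0 hD) hγ hγi hγ0 g1
    exact hgd _ _ (hsymm _ _ (hE D)) g2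
  obtain ⟨e₀, he₀⟩ := h8 F κ hκ PP hPP A hA a₀ γ ha0 hγ hγi hγ0 ε hε
  refine ⟨e₀, fun e n he hn => ?_⟩
  let e' : Option PP → ℕ := fun w => match w with
    | none => n
    | some P => e P
  have he' : ∀ w, e₀ ≤ e' w := by
    intro w
    cases w with
    | none => exact hn
    | some P => exact he P P.2
  obtain ⟨hfin, hAS, N, hN, hcard, hcount⟩ := h9 F κ hκ PP hPP A hA e n e' rfl (fun P => rfl)
  have hcG := hcount G hGinv
  -- the family is finite
  have hTne : (Tw PP e n).Nonempty := ⟨0, 0, by simp, by simp⟩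
  have hTpos : 0 < (Tw PP e n).ncard := (Set.ncard_pos hfin).2 hTne
  have hDpos : Nat.card ((famC κ A).D e') ≠ 0 := by
    intro h
    rw [hcard, h] at hTpos
    simp at hTpos
  have hDfin : Finite ((famC κ A).D e') := Nat.finite_of_card_ne_zero hDpos
  have hDset : ∀ Q : AS PP → Prop, {x : AS PP | x ∈ (famC κ A).D e' ∧ Q x}.Finite := by
    intro Q
    refine Set.Finite.subset (s := ((famC κ A).D e' : Set (AS PP))) (Set.toFinite _) ?_
    intro x hx
    exact hx.1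
  have hb0 : ({x : AS PP | x ∈ (famC κ A).D e' ∧ ¬ G (x : RatFunc F)}.ncard : ℝ) ≤
      ε * Nat.card ((famC κ A).D e') := by
    refine le_trans ?_ (he₀ e' he' 0)
    refine Nat.cast_le.2 (Set.ncard_le_ncard ?_ (hDset _))
    rintro x ⟨hx, hxG⟩
    refine ⟨hx, fun hg => hxG (hGd x x.2 ?_)⟩
    simpa using hg
  have hb1 : ({x : AS PP | x ∈ (famC κ A).D e' ∧ ¬ G ((x : RatFunc F) + RatFunc.C κ)}.ncard : ℝ) ≤
      ε * Nat.card ((famC κ A).D e') := by
    refine le_trans ?_ (he₀ e' he' 1)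
    refine Nat.cast_le.2 (Set.ncard_le_ncard ?_ (hDset _))
    rintro x ⟨hx, hxG⟩
    refine ⟨hx, fun hg => hxG (hGd _ ((AS PP).add_mem x.2 (hC κ)) ?_)⟩
    simpa using hg
  -- the count
  have hsum : ({D ∈ Tw PP e n | G D}.ncard : ℝ) + ({D ∈ Tw PP e n | ¬ G D}.ncard : ℝ) =
      ((Tw PP e n).ncard : ℝ) := by
    rw [← Nat.cast_add]
    congr 1
    rw [← Set.ncard_union_eq ?_ (hfin.subset fun x hx => hx.1) (hfin.subset fun x hx => hx.1)]
    · congr 1
      ext x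
      constructor
      · rintro (hx | hx)
        · exact hx.1
        · exact hx.1
      · intro hx
        by_cases hG : G x
        · exact Or.inl ⟨hx, hG⟩
        · exact Or.inr ⟨hx, hG⟩
    · rw [Set.disjoint_left]
      intro x hx hx'
      exact hx'.2 hx.2
  have hbadc : ({D ∈ Tw PP e n | ¬ G D}.ncard : ℝ) ≤ ε * ((Tw PP e n).ncard : ℝ) := by
    rw [hcG, hcard]
    push_cast
    have hN0 : (0 : ℝ) ≤ N := Nat.cast_nonneg N
    have := mul_le_mul_of_nonneg_left (add_le_add hb0 hb1) hN0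
    nlinarith
  have hgoal : (1 - ε) * ((Tw PP e n).ncard : ℝ) ≤ ({D ∈ Tw PP e n | G D}.ncard : ℝ) := by
    linarith
  exact hgoal

end Pool.Agent.MP72W
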