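import Pool.Agent.Lib.MP_72e2e6_nt.W2.E.Defs
import Pool.Agent.Lib.MP_72e2e6_nt.W2.D.Spec
import Pool.Agent.Lib.MP_72e2e6_nt.W2.A.Spec

/-!
# MP_72e2e6_nt, theorem T3, part E: descent, counting, heights, reductions, the theorem

The proofs are complete in the docstrings; every module is independent (used statements are
hypotheses): file `W2/E/<Name>.lean` (import this file only) with `theorem t<Name> : S_<Name>` or
`theorem t<Name> (h1 : S_X) (h2 : S_Y) .. : S_<Name>` (in the order of the docstring), namespace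
`Pool.Agent.MP72W`, other declarations `private`. Use `open scoped Classical`. For a point `P`
`∂P` denotes the crossed homomorphism `σ ↦ σ P - P`. `℘(x) = x ^ 2 + x`, `s = #PP + 1`.
-/

namespace Pool.Agent.MP72W

open Polynomial IntermediateField WeierstrassCurve

open scoped Classical

/-- **Shg** (100 lines). The crossed homomorphisms in `InSha` form a group containing the
coboundaries.

Proof. Sums, negatives, multiples: `pmap` is additive; in `LocTriv` take the sum of the points `Q`.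
Coboundaries: `σ ↦ σ P - P` is locally constant (the coordinates of `P` are algebraic, stabilizers are
open), a crossed homomorphism, and locally `Q = ι P`: `ι (σ P) = τ (ι P)` if `τ ι = ι σ` on `K^s`. -/
def S_Shg : Prop :=
  ∀ (K : Type) [Field K] (W : WeierstrassCurve K),
    InSha W (fun _ => 0) ∧
    (∀ z z', InSha W z → InSha W z' → InSha W (fun σ => z σ + z' σ)) ∧
    (∀ z, InSha W z → InSha W (fun σ => - z σ)) ∧
    (∀ (n : ℕ) z, InSha W z → InSha W (fun σ => n • z σ)) ∧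
    ∀ P : (W⁄(SeparableClosure K)).toAffine.Point, InSha W (fun σ =>
      pmap W (σ : SeparableClosure K →ₐ[K] SeparableClosure K) P - P)

/-- **Dsc** (300 lines, uses `S_Sep`, `S_Res`, `S_Pts`, `S_Map`, `S_FV`, `S_FVh`, `S_FVn`, `S_Vsu`). The
descent: the number of the pairs `(z, p)` is bounded by the product of the two Selmer bounds.

Proof. (i) For every `i` choose `p' i ∈ E_k(K^s)` with `Vn (p' i) = p i` (`S_Vsu` (4), `S_Sep` (2)). For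
`σ ∈ Gal(K^s/K)`: `Fn (z i σ) - (σ (p' i) - p' i)` is in `ker Vn` (`Vn Fn = 2 ^ k`), so it is
`(c i σ).val • R` with a unique `c i σ ∈ ZMod (2 ^ k)` (`S_FVn` (8)). `c i` is locally constant and
`c i (σ τ) = c i σ + χ (rG σ) c i τ` (`σ R = (χ (rG σ)).val • R`). Local condition: let `v`, `ι` be given, and
`Q_i ∈ E_0(Kvs)` the point of `LocTriv (EE D γ 0) (z i) v.Completion` for `ι`; `X = Fn Q_i - ι (p' i)`:
for `g`, `σ = rsH ι g` (`g ι = ι σ` by `S_Res`): `g X - X = Fn (ι (z i σ)) - ι (σ (p' i) - p' i) =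
(c i σ).val • ι R`. So `SelV R χ (c i)`.
(ii) `i ~ j` if `c i - c j = m (χ ∘ rG - 1)` for some `m`: an equivalence relation on `Fin n`. The number
`n_V` of the classes satisfies `n_V * a ≤ X` (hypothesis `hV` for a system of representatives).
(iii) Let `i₀` be in a class `C`. For `i ∈ C` let `c i - c i₀ = m_i (χ ∘ rG - 1)` (`m_{i₀} = 0`) and
`s i = p' i - p' i₀ + m_i.val • R`. As `∂(m • R) σ = (m (χ (rG σ) - 1)).val • R`:
`Fn (z i σ - z i₀ σ) = σ (s i) - s i`, and `Vn (s i) = p i - p i₀`. `SelF (s i)`: the first condition is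
this equation; locally with `q = Q_i - Q_{i₀}`: `g (ι (s i)) - ι (s i) = Fn (ι (z i σ - z i₀ σ)) = g (Fn q) - Fn q`.
If `s i - s j = Fn m`, then `Fn (z i σ - z j σ) = Fn (σ m - m)`, so `z i - z j = ∂m` (`Fn` is injective) and
`p i - p j = Vn (Fn m) = 2 ^ k • m`: `ZEq`, so `i = j`. So `#C * b ≤ X` by `hF`. Sum over the classes:
`n * b ≤ n_V * X`, and `n * (a * b) ≤ n_V * a * X ≤ X ^ 2`. -/
def S_Dsc : Prop :=
  ∀ (F : Type) [Field F] [Finite F] [CharP F 2] (PP : Finset F[X]),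
    (∀ P ∈ PP, P.Monic ∧ Irreducible P) → ∀ (D γ : RatFunc F), γ ≠ 0 → ∀ (k : ℕ)
    (R : Pt D γ k (Kgs F)), IsR D γ k R →
    ∀ χ : GS PP → ZMod (2 ^ k), IsLocallyConstant (fun σ => χ (rG PP σ)) →
    (∀ σ : Gal(Kgs F/RatFunc F),
      pmap (EE D γ k) (σ : Kgs F →ₐ[RatFunc F] Kgs F) R = (χ (rG PP σ)).val • R) →
    ∀ a b X : ℕ,
    (∀ (n : ℕ) (c : Fin n → Gal(Kgs F/RatFunc F) → ZMod (2 ^ k)),
      (∀ i, SelV D γ k R χ (c i)) →
      (∀ i j, i ≠ j → ¬ ∃ m, ∀ σ, c i σ - c j σ = m * (χ (rG PP σ) - 1)) → n * a ≤ X) →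
    (∀ (n : ℕ) (p : Fin n → Pt D γ k (Kgs F)), (∀ i, SelF D γ k (p i)) →
      (∀ i j, i ≠ j → ¬ ∃ q, p i - p j = Fn D γ k q) → n * b ≤ X) →
    ∀ (n : ℕ) (z : Fin n → Gal(Kgs F/RatFunc F) → Pt D γ 0 (Kgs F))
      (p : Fin n → Pt D γ 0 (Kgs F)), (∀ i, IsZP D γ k (z i) (p i)) →
      (∀ i j, i ≠ j → ¬ ZEq D γ k (z i) (z j) (p i) (p j)) → n * (a * b) ≤ X ^ 2

/-- **Cyc** (150 lines, uses `S_Shg`). A small group has a small exponent.

Proof. Let `IsZP z p`. The pairs `(j z, j p)`, `0 ≤ j < 2 ^ k`, satisfy `IsZP` (`S_Shg`); by hypothesis they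
are not pairwise inequivalent (`n = 2 ^ k`), so for some `i < j < 2 ^ k` `(j - i) (z, p) ~ 0`. The set of the
integers `a` with `a (z, p) ~ 0` is a subgroup of `ℤ` which contains `2 ^ k` (take `m = p`) and `j - i`, so
also their greatest common divisor `2 ^ e` with `e ≤ k - 1`, and `2 ^ (k - 1)`. -/
def S_Cyc : Prop :=
  ∀ (F : Type) [Field F] [Finite F] [CharP F 2] (D γ : RatFunc F), γ ≠ 0 → ∀ (k : ℕ), 1 ≤ k →
    (∀ (n : ℕ) (z : Fin n → Gal(Kgs F/RatFunc F) → Pt D γ 0 (Kgs F))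
      (p : Fin n → Pt D γ 0 (Kgs F)), (∀ i, IsZP D γ k (z i) (p i)) →
      (∀ i j, i ≠ j → ¬ ZEq D γ k (z i) (z j) (p i) (p j)) → n < 2 ^ k) →
    ∀ z p, IsZP D γ k z p → ∃ m : Pt D γ 0 (Kgs F),
      (∀ σ, 2 ^ (k - 1) • z σ = pmap (EE D γ 0) (σ : Kgs F →ₐ[RatFunc F] Kgs F) m - m) ∧
      2 ^ (k - 1) • p = 2 ^ k • m

/-- **Fsh** (200 lines, uses `S_Pts`, `S_Map`, `S_Shg`, `S_Cyc`). Finiteness of the `2`-primary part of
the Tate-Shafarevich group, and divisibility.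

Proof. (1) Let `e ∈ E_0(K)`, `e₁` its image in `E_0(K^s)`, fixed by the Galois group; `IsZP 0 e₁`. By `S_Cyc`
there is `m` with `σ m = m` for all `σ` and `2 ^ (k - 1) e₁ = 2 ^ k m`; `m` comes from a point `e'` over `K`.
(2) Choose `n` maximal such that there are `n` pairwise inequivalent pairs `(z_i, p_i)` with `IsZP`
(`n < 2 ^ k`), `T = {z_i}`. Let `z` be `InSha`, `2 ^ N z = ∂P`. Claim: `2 ^ k z = ∂P'` for some `P'`. If `N ≤ k`
take `P' = 2 ^ (k - N) P`. If `N > k`: `IsZP (2 ^ (N - k) z) P`, so by `S_Cyc` `2 ^ (k - 1) 2 ^ (N - k) z = ∂m`,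
i.e. `2 ^ (N - 1) z = ∂m`; induction on `N`. So `IsZP z P'`, and by maximality `(z, P')` is equivalent to some
`(z_i, p_i)`, so `z - z_i = ∂m`. -/
def S_Fsh : Prop :=
  ∀ (F : Type) [Field F] [Finite F] [CharP F 2] (D γ : RatFunc F), γ ≠ 0 → ∀ (k : ℕ), 1 ≤ k →
    (∀ (n : ℕ) (z : Fin n → Gal(Kgs F/RatFunc F) → Pt D γ 0 (Kgs F))
      (p : Fin n → Pt D γ 0 (Kgs F)), (∀ i, IsZP D γ k (z i) (p i)) →
      (∀ i j, i ≠ j → ¬ ZEq D γ k (z i) (z j) (p i) (p j)) → n < 2 ^ k) →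
    ShaTwoFin (EE D γ 0) ∧
    ∀ e : Pt D γ 0 (RatFunc F), ∃ e' : Pt D γ 0 (RatFunc F), 2 ^ (k - 1) • e = 2 ^ k • e'

/-- **Hdb** (200 lines, uses `S_Pts`, `S_Map`). Heights and doubling.

Proof. `x(2 P) = x ^ 2 + γ / x ^ 2`. Let `x = A / C` (lowest terms, `A ≠ 0`), `γ = g₁ / g₂`;
`x(2P) = U / V`, `U = g₂ A ^ 4 + g₁ C ^ 4`, `V = g₂ A ^ 2 C ^ 2`. Let `G` be the greatest common divisor of `U`
and `V`. `C ^ 2 U + A ^ 2 V = g₁ C ^ 6` and `A ^ 2 g₂ U + g₁ C ^ 2 V = g₂ ^ 2 A ^ 6`, so `G` divides `g₁ C ^ 6` and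
`g₂ ^ 2 A ^ 6`, hence `g₁ g₂ ^ 2` (as `C ^ 6`, `A ^ 6` are coprime), and `deg G ≤ B = deg (g₁ g₂ ^ 2)`. Degrees:
if `deg (g₂ A ^ 4) ≠ deg (g₁ C ^ 4)` then `deg U ≥ 4 max(deg A, deg C)`. If they are equal, then
`4 |deg A - deg C| ≤ B` and `deg V ≥ 2 deg A + 2 deg C ≥ 4 max(deg A, deg C) - B`. So
`rht (x(2P)) ≥ 4 rht x - 2 B`. (2) There are finitely many polynomials of bounded degree over a finite
field, and at most two `y` for every `x`. (3) `2 P = O` iff `P = O` or `px P = 0`. -/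
def S_Hdb : Prop :=
  ∀ (F : Type) [Field F] [Finite F] [CharP F 2] (D γ : RatFunc F), γ ≠ 0 →
    (∃ B : ℕ, ∀ P : Pt D γ 0 (RatFunc F), 4 * rht (px P) ≤ rht (px (P + P)) + B) ∧
    (∀ N : ℕ, {P : Pt D γ 0 (RatFunc F) | rht (px P) ≤ N}.Finite) ∧
    {P : Pt D γ 0 (RatFunc F) | P + P = 0}.Finite

/-- **Hgt** (200 lines, uses `S_Hdb`). Finitely many rational points.

Proof. Abstract: `G` an abelian group, `h : G → ℕ` with `4 h P ≤ h (2 P) + B`, finite sets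
`{h ≤ N}`, finite `G[2]` (so all `G[2 ^ n]` are finite: induction), and `2 ^ (k - 1) G ⊆ 2 ^ k G`. Let
`G' = 2 ^ (k - 1) G`; `G' = 2 G'`. Let `P ∈ G'`; choose `P_0 = P`, `P_i = 2 P_{i + 1}`, `P_i ∈ G'`.
`h P_{i + 1} ≤ (h P_i + B) / 4`, so `h P_i ≤ B + 1` for all large `i`. By the pigeonhole principle there are
`i < j` with `P_i = P_j = X`, `h X ≤ B + 1`: `X = 2 ^ (j - i) X` has finite order, and `P = 2 ^ i X`. So `G'` is
contained in the union of the finite cyclic groups generated by the `X` of finite order with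
`h X ≤ B + 1`: finite. `G → G'`, `P ↦ 2 ^ (k - 1) P`, has finite fibres (the kernel is `G[2 ^ (k - 1)]`). -/
def S_Hgt : Prop :=
  ∀ (F : Type) [Field F] [Finite F] [CharP F 2] (D γ : RatFunc F), γ ≠ 0 → ∀ (k : ℕ), 1 ≤ k →
    (∀ e : Pt D γ 0 (RatFunc F), ∃ e' : Pt D γ 0 (RatFunc F), 2 ^ (k - 1) • e = 2 ^ k • e') →
    Finite (Pt D γ 0 (RatFunc F))

/-- **Cov** (250 lines). Change of variables.

Proof. `C = (u, r, s, t)`, `W' = C • W`. The map `(x', y') ↦ (u ^ 2 x' + r, u ^ 3 y' + u ^ 2 s x' + t)` is a bijection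
`W'(L) → W(L)` (equation and nonsingularity: `WeierstrassCurve.variableChange_a₁` etc., `field_simp`, `ring`;
everything over `L` via `algebraMap`; the curve `(C • W)⁄L` has the coefficients of `(C mapped to L) • (W⁄L)`),
`O ↦ O`. It is additive: `negY` is compatible; the slopes satisfy `λ = u λ' + s`, and the formulas `addX`,
`addY` are compatible (cases `x₁ ≠ x₂`, `P = Q`, `Q = -P`). Naturality: compare coordinates (`f` is the
identity on `K`). Take the inverse if necessary (`PtIso` is symmetric). -/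
def S_Cov : Prop :=
  ∀ (K : Type) [Field K] (W : WeierstrassCurve K) (C : WeierstrassCurve.VariableChange K),
    PtIso (C • W) W

/-- **Inv** (200 lines). Invariance under `PtIso`.

Proof. `PtIso` is symmetric (`φ.symm`) and transitive. (2) `(W⁄K) = W` as curves (`WeierstrassCurve.map_id`,
coefficients), so `W.toAffine.Point ≃ (W⁄K).toAffine.Point ≃ (W'⁄K) ..`. (3) Transport `z` to
`σ ↦ φ (z σ)`: `IsCoc`, `LocTriv` (for `M`: the point `φ_{M^s} Q`; naturality for `ι` with `S = K` and for `τ` with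
`S = M`), coboundaries and the finite set `T`. -/
def S_Inv : Prop :=
  ∀ (K : Type) [Field K] (W W' W'' : WeierstrassCurve K),
    (PtIso W W' → PtIso W' W) ∧ (PtIso W W' → PtIso W' W'' → PtIso W W'') ∧ PtIso W W ∧
    (PtIso W W' → Gd W → Gd W')

/-- **Nf** (150 lines, uses `S_Cov`, `S_Inv`). Normal forms in characteristic two.

Proof. (1) `x = a₁ ^ 2 X + a₃ / a₁`, `y = a₁ ^ 3 Y + (a₁ ^ 2 a₄ + a₃ ^ 2) / a₁ ^ 3` (variable change
`u = a₁`, `r = a₃ / a₁`, `s = 0`, `t = (a₁ ^ 2 a₄ + a₃ ^ 2) / a₁ ^ 3`; compare Mathlib `NormalForms.lean`,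
characteristic two) transforms `E` into `Y ^ 2 + X Y = X ^ 3 + a X ^ 2 + b` with
`a = (a₁ a₂ + a₃) / a₁ ^ 3`, `b = Δ / a₁ ^ 12`. For `twist E D` the coefficients are `a₁`, `a₂ + D a₁ ^ 2`, `a₃`,
`a₄`, `a₆ + D a₃ ^ 2`, so `a` becomes `a + D`, and the discriminant is unchanged (in characteristic two
`Δ` is a polynomial; verify `Δ (twist E D) = Δ E` with `ring` modulo `2`). (2) `u = 1`, `s = c`:
`(x, y) ↦ (x, y + c x)`. (3) `EE D γ 1 = (1, D ^ 2, 0, 0, γ ^ 2)`, `EE D (γ ^ 2) 0 = (1, D, 0, 0, γ ^ 2)`, (2) with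
`c = D`. -/
def S_Nf : Prop :=
  ∀ (K : Type) [Field K] [CharP K 2],
    (∀ E : WeierstrassCurve K, E.Δ ≠ 0 → E.a₁ ≠ 0 → ∀ D : K,
      PtIso (twist E D) (EE ((E.a₁ * E.a₂ + E.a₃) / E.a₁ ^ 3 + D) (E.Δ / E.a₁ ^ 12) 0)) ∧
    (∀ D γ c : K, PtIso (EE D γ 0) (EE (D + (c ^ 2 + c)) γ 0)) ∧
    ∀ D γ : K, PtIso (EE D (γ ^ 2) 0) (EE D γ 1)

/-- **Itg** (80 lines, uses `S_Asr`). Integrality of the coefficients of the normal form.

Proof. By `S_Asr` (3) the `a_i` are in the ring `AS PP`, `a₁⁻¹` and `Δ⁻¹` too: the denominator of `f⁻¹` is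
associated to the numerator of `f` (`Δ ∈ AS PP` is a polynomial in the `a_i`). -/
def S_Itg : Prop :=
  ∀ (F : Type) [Field F] [Finite F] [CharP F 2] (E : WeierstrassCurve (RatFunc F)),
    E.Δ ≠ 0 → E.a₁ ≠ 0 → ∀ PP : Finset F[X], (∀ P ∈ PP, P.Monic ∧ Irreducible P) →
    (∀ P : F[X], P.Monic → Irreducible P → P ∉ PP →
      ¬ P ∣ E.a₁.denom ∧ ¬ P ∣ E.a₂.denom ∧ ¬ P ∣ E.a₃.denom ∧ ¬ P ∣ E.a₄.denom ∧
        ¬ P ∣ E.a₆.denom ∧ ¬ P ∣ E.a₁.num ∧ ¬ P ∣ E.Δ.num) →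
    (E.a₁ * E.a₂ + E.a₃) / E.a₁ ^ 3 ∈ AS PP ∧ E.Δ / E.a₁ ^ 12 ∈ AS PP ∧
      (E.Δ / E.a₁ ^ 12)⁻¹ ∈ AS PP ∧ E.Δ / E.a₁ ^ 12 ≠ 0

/-- **Ad1** (150 lines, uses `S_Av`, `S_LfP`, `S_Lc1`, `S_Lc2`, `S_Nr`, `S_H90`). Finitely many classes
modulo squares.

Proof. As in the proof of `S_Adm` (i), (ii) with `K + 1 = 1`: `σ u = u * s_σ ^ 2`, `s_σ = σ y / y` by `S_H90`
(`E = ⊥`), `g = u / y ^ 2 ∈ K`, and `v g = v P ^ (2 n)` for every place `v` of a `P ∉ PP`. So for `P ∉ PP` the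
multiplicity of `P` in the numerator minus the one in the denominator is even, and
`g = c * ∏_{P ∈ I} P * h ^ 2` with `I ⊆ PP`, `c ∈ F` a square. `G₀` is the set of the images of the
`∏_{P ∈ I} P`. -/
def S_Ad1 : Prop :=
  ∀ (F : Type) [Field F] [Finite F] [CharP F 2] (PP : Finset F[X]),
    (∀ P ∈ PP, P.Monic ∧ Irreducible P) → ∃ G₀ : Set (Kgs F), G₀.Finite ∧
      ∀ u : Kgs F, Adm PP 1 (fun _ => 1) u → ∃ g ∈ G₀, EqN 2 u g

/-- **Fr1** (250 lines, uses `S_Sep`, `S_Res`, `S_Twb`, `S_Asr`, `S_Pts`, `S_Map`, `S_FV`, `S_FVh`, `S_FVn`,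
`S_Wt`, `S_AdF`, `S_Shg`, `S_Ad1`). From `E_1` to `E_0`.

Proof. (1) `Fi : E_0(K) → E_1(K)` is injective (`Pt D γ 0 (RatFunc F)` and `(EE D γ 0).toAffine.Point` are
identified as `(W⁄K) = W`). (2) Let `T₁` be the finite set for `E_1`. Let `R = (0, γ) ∈ E_1(K^s)`: `IsR 1 R`,
coordinates in `K`, `σ R = R = (1 : ZMod (2 ^ 1)).val • R`; `w` as in `S_Wt` for `k = 1`. For `y ∈ T₁` choose, if
possible, `z_y ∈ InSha (EE D γ 0)` with `Fi ∘ z_y - y` a coboundary. Let `z` be `InSha` with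
`2 ^ n z = ∂P`. `Fi ∘ z` is `InSha (EE D γ 1)` (naturality), `2 ^ n (Fi ∘ z) = ∂(Fi P)`, so
`Fi ∘ z - y` is a coboundary for some `y ∈ T₁`, and `Fi ∘ (z - z_y) = ∂P'`, `P' ∈ E_1(K^s)`. `SelF D γ 1 P'`
(`Fn D γ 1 q = Fi q`): `σ P' - P' = Fi (..)`; locally `z - z_y = ∂q` over `Kvs` and
`g (ι P') - ι P' = Fi (g q - q)` (as in `S_Dsc`). By `S_AdF` `Adm PP 1 1 (w P')`. By `S_Ad1` the classes
`w P'` modulo squares are finite in number, so there are finitely many `P'_1, ..., P'_r` such that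
`w P' ≡ w P'_i` for some `i`, i.e. `w (P' - P'_i) ≡ 1` and `P' - P'_i = Fi q` (`IsWt.ker`). For every `i` choose, if
possible, `x_i : Gal → E_0(K^s)` with `Fi ∘ x_i = ∂P'_i`. Then
`Fi ∘ (z - z_y - ∂q) = ∂P'_i = Fi ∘ x_i`, so `z = z_y + x_i + ∂q`. `T = {z_y + x_i}`. -/
def S_Fr1 : Prop :=
  ∀ (F : Type) [Field F] [Finite F] [CharP F 2] (PP : Finset F[X]),
    (∀ P ∈ PP, P.Monic ∧ Irreducible P) → ∀ (D γ : RatFunc F), D ∈ AS PP → γ ∈ AS PP →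
    γ⁻¹ ∈ AS PP → γ ≠ 0 → Gd (EE D γ 1) → Gd (EE D γ 0)

/-- **Ids** (200 lines, uses `S_Dgr`, `S_Asr`, `S_Pfs`, `S_Hlo`, `S_Off`, `S_Uex`). The family as a direct
sum.

Proof. `(famC κ A).D e` is the sum of the subgroups `𝔇 w (e w) = {x | x ∈ Dw κ w (e w)}` (`S_Off` (3)), so its
elements are the sums `∑ w, x w`. Uniqueness: if `∑ w, D w + c κ = ℘(y)`, `D w ∈ Dw κ w (e w)`, then
`hAS (∑ D w + c κ) = 0`, so on `(famC κ A).W w` `hAS (D w) = 0` (`S_Off`) and `D w = 0` by `A.Ok.un`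
(`S_Hlo` (3)); then `c = 0` at `φ none` (as in the proof of `S_Uex`). (3), (4): the map
`(x w)_w ↦ ∑ x w` is a bijection of the product of the finite sets `Dw κ w (e w)` with the family
(`S_Dgr`); the number of the elements of the product with `x w₀ ∈ Dw κ w₀ m` is
`#Dw κ w₀ m * ∏_{w ≠ w₀} #Dw κ w (e w)`. `#Dw κ w e` tends to infinity with `e` (for `w = some P`: the elements
`a / P ^ (2 i + 1)`, `a ∈ {0, 1}`). -/
def S_Ids : Prop :=
  ∀ (F : Type) [Field F] [Finite F] [CharP F 2] (κ : F), eps κ = 1 → ∀ (PP : Finset F[X]),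
    (∀ P ∈ PP, P.Monic ∧ Irreducible P) → ∀ A : Dat F PP, A.Ok κ →
    (∀ (e : Option PP → ℕ) (x : AS PP), x ∈ (famC κ A).D e ↔
      ∃ D : Option PP → RatFunc F, (∀ w, D w ∈ Dw κ w (e w)) ∧ (x : RatFunc F) = ∑ w, D w) ∧
    (∀ (e : Option PP → ℕ) (D : Option PP → RatFunc F), (∀ w, D w ∈ Dw κ w (e w)) →
      ∀ (c : ZMod 2) (y : RatFunc F), (∑ w, D w) + (if c = 0 then 0 else RatFunc.C κ) =
        y ^ 2 + y → (∀ w, D w = 0) ∧ c = 0) ∧
    (∀ e, ((famC κ A).D e : Set (AS PP)).Finite) ∧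
    ∀ (m : ℕ) (ε : ℝ), 0 < ε → ∃ e₀ : ℕ, ∀ e : Option PP → ℕ, (∀ w, e₀ ≤ e w) →
      ({x : AS PP | x ∈ (famC κ A).D e ∧ ∃ D : Option PP → RatFunc F,
        (∀ w, D w ∈ Dw κ w (e w)) ∧ (x : RatFunc F) = ∑ w, D w ∧
          ∃ w, D w ∈ Dw κ w m}.ncard : ℝ) ≤ ε * Nat.card ((famC κ A).D e)

/-- **Dpp** (200 lines, uses `S_LfP`, `S_LfI`, `S_Lc1`, `S_Dgr`, `S_Drg`, `S_Pfs`). Deep twists.

Proof. Write `a₀ = ∑ A w + c₀ κ + ℘(y₀)`, `A w ∈ Dw κ w e₁` (`S_Pfs`). First: an element `D` of `Dw κ w e` with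
`v D ≤ 2 ^ m` is in `Dw κ w m` (for `DP P e`: if `a i` is the last nonzero coefficient then `v D = 2 ^ (2 i + 1)`;
for `DI` similarly, `v` the place of `w`). Let `m ≥ e₁` with `M ≤ 2 ^ m`. Let `x w ∉ Dw κ w m`; then
`A w + x w ∉ Dw κ w m` (it is a group, monotone in `e`), so `v (A w + x w) > 2 ^ m`, and it is
`2 ^ (2 i + 1)` (`S_Drg`). At the place `w` the other `A w'`, `x w'` and `κ` are integral (`S_Drg`), so
`a₀ + ∑ x w' + c κ + ℘(y) = (A w + x w) + (integral) + ℘(y₀ + y)`. If `z = y₀ + y` has `‖z‖ ≤ 1`, the norm is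
`2 ^ (2 i + 1) ≥ M`. If `‖z‖ > 1`, `‖℘(z)‖ = ‖z‖ ^ 2` is an even power of `2` (`S_Lc1` (4)), so it is different
from `2 ^ (2 i + 1)` and the norm is the maximum. -/
def S_Dpp : Prop :=
  ∀ (F : Type) [Field F] [Finite F] [CharP F 2] (κ : F), eps κ = 1 → ∀ (PP : Finset F[X]),
    (∀ P ∈ PP, P.Monic ∧ Irreducible P) → ∀ A : Dat F PP, A.Ok κ →
    ∀ (a₀ : RatFunc F), a₀ ∈ AS PP → ∀ M : ℝ, ∃ m : ℕ,
    ∀ (e : ℕ) (D : Option PP → RatFunc F), (∀ w, D w ∈ Dw κ w e) → (∀ w, D w ∉ Dw κ w m) →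
    ∀ (c : ZMod 2) (w : Option PP) (y : (A.av w).Completion),
      M ≤ ‖algebraMap (RatFunc F) (A.av w).Completion
        (a₀ + ((∑ w, D w) + (if c = 0 then 0 else RatFunc.C κ))) + (y ^ 2 + y)‖

/-- **One** (250 lines, uses `S_LfP`, `S_LfI`, `S_Fr`, `S_Hlo`, `S_Rgo`, `S_Pts`, `S_Map`, `S_FVn`, `S_Tq`,
`S_FS`, `S_VS`, `S_Dsc`, `S_Fsh`, `S_Hgt`). One curve with a small number of solutions.

Proof. `g₀` exists by `S_Fr` (1). `R = Q + Q`, `IsR` (`S_Tq`), `χ̄ = rdK k ∘ χ`,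
`σ R = (χ̄ (rG σ)).val • R` (`2 ^ k • R = 0`). `D ∉ ℘(K)` by the hypothesis on the norms (`M > 1 > ‖0‖`), so
`hAS D g = 1` for some `g ∈ GS PP` (`S_Hlo` (6)), and `χ g = ψ g * (-1) = -1 + 4 m'`. Apply `S_VS`
(`a = 2 ^ (k - 1) * 2 ^ (#PP + 1)`), `S_FS` (`b = 2 ^ (k + 1 + #PP)`) and `S_Dsc` with
`X = XX ..`: for `n` inequivalent pairs `n * a * b ≤ X ^ 2 < 2 ^ (3 k + 1 + 2 #PP) = 2 ^ k * a * b`, so
`n < 2 ^ k`. By `S_Fsh` and `S_Hgt` `Gd (EE D (β ^ 2) 0)` (`Pt D γ 0 (RatFunc F)` and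
`(EE D γ 0).toAffine.Point` are identified, `(W⁄K) = W`). -/
def S_One : Prop :=
  ∀ (F : Type) [Field F] [Finite F] [CharP F 2] (κ : F), eps κ = 1 → ∀ (PP : Finset F[X]),
    (∀ P ∈ PP, P.Monic ∧ Irreducible P) → ∀ A : Dat F PP, A.Ok κ →
    ∀ (D β : RatFunc F), D ∈ AS PP → β ∈ AS PP → β⁻¹ ∈ AS PP → β ≠ 0 → ∀ (k : ℕ), 1 ≤ k →
    ∀ ψ : GS PP → ZMod (2 ^ (k + 1)), Chr ψ → (∀ g, ∃ m, ψ g = 1 + 4 * m) →
    ∀ Q : Pt D (β ^ 2) k (Kgs F), IsQ D β k Q → (∀ σ : Gal(Kgs F/RatFunc F),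
      pmap (EE D (β ^ 2) k) (σ : Kgs F →ₐ[RatFunc F] Kgs F) Q =
        (tw ψ (hAS (RatFunc F) (Om (AS PP) (RatFunc F) (Kgs F)) D) (rG PP σ)).val • Q) →
    (∀ w : Option PP, ∃ M : ℝ, 1 < M ∧ (∀ j ≤ k, A.av w (β ^ 2 ^ j) < M) ∧
      ∀ y : (A.av w).Completion, M ≤ ‖algebraMap (RatFunc F) _ D + (y ^ 2 + y)‖) →
    XX (famC κ A).W (famC κ A).φ
        (tw ψ (hAS (RatFunc F) (Om (AS PP) (RatFunc F) (Kgs F)) D)) ^ 2 <
      2 ^ (3 * k + 1 + 2 * PP.card) →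
    Gd (EE D (β ^ 2) 0)

/-- **Man** (250 lines, uses `S_Hlo`, `S_Goo`, `S_Psi`, `S_ThA`, `S_Ids`, `S_Dpp`, `S_One`). The main
counting theorem for the curves `EE D (β ^ 2) 0`.

Proof. Let `ε > 0`. Choose `k ≥ 1` even with `(k + 2) * 2 ^ ((1 - k) / 2) ≤ ε / 4` (real exponents; e.g.
`k = 2 l`, threshold `X ≥ 2 ^ (3 l + #PP)`, so that `X < 2 ^ (3 l + #PP)` implies
`X ^ 2 < 2 ^ (6 l + 2 #PP) < 2 ^ (3 k + 1 + 2 #PP)`, and the proportion of the `D` with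
`X ≥ 2 ^ (3 l + #PP)` is at most `(k + 2) 2 ^ (#PP + k + 1 - 3 l - #PP) = (2 l + 2) 2 ^ (1 - l)`). Let `ψ` be as in
`S_Psi`; for `c ∈ ZMod 2` let `b_c = a₀ + (c κ)`, `ψ_c = tw ψ (hAS b_c)`, a `Chr`. For `D` in the family
`tw ψ (hAS (b_c + D)) = tw ψ_c (h D)` (additivity, `S_Hlo` (2), `sg` is multiplicative). By `S_ThA` (`n = k + 1`,
`ε = 1`) for `ψ_0`, `ψ_1` and Markov's inequality the proportion of the `D` in `(famC κ A).D e` for which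
`XX (tw ψ_c (h D)) ≥ 2 ^ (3 l + #PP)` is at most `(k + 2) 2 ^ (1 - l)` for each `c`. Let `M` be greater than `1`
and all `A.av w (β ^ (2 ^ j))`, `j ≤ k`, `m` as in `S_Dpp`; by `S_Ids` (4) the proportion of the `D` with
a component in `Dw κ w m` is small. For the other `D` and both `c` apply `S_One` to `D' = a₀ + (D + c κ)`
(use `m` for the components; the components are in `Dw κ w (max e)` by monotonicity, `S_Dgr`; or the
bound in `S_Dpp` for `e` the maximum). -/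
def S_Man : Prop :=
  ∀ (F : Type) [Field F] [Finite F] [CharP F 2] (κ : F), eps κ = 1 → ∀ (PP : Finset F[X]),
    (∀ P ∈ PP, P.Monic ∧ Irreducible P) → ∀ A : Dat F PP, A.Ok κ →
    ∀ (a₀ β : RatFunc F), a₀ ∈ AS PP → β ∈ AS PP → β⁻¹ ∈ AS PP → β ≠ 0 →
    ∀ ε : ℝ, 0 < ε → ∃ e₀ : ℕ, ∀ e : Option PP → ℕ, (∀ w, e₀ ≤ e w) → ∀ c : ZMod 2,
      ({x : AS PP | x ∈ (famC κ A).D e ∧
        ¬ Gd (EE (a₀ + ((x : RatFunc F) + (if c = 0 then 0 else RatFunc.C κ))) (β ^ 2) 0)}.ncard :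
          ℝ) ≤ ε * Nat.card ((famC κ A).D e)

/-- **Fib** (300 lines, uses `S_Fin2`, `S_PfP`, `S_PfI`, `S_Dgr`, `S_Asr`, `S_Off`, `S_Ids`). The functions
with bounded poles and the family.

Proof. Let `e' none = n`, `e' (some P) = e P`. `Tw PP e n` is a finite additive group (numerators of
bounded degree; `F` finite). (a) Every `D ∈ Tw PP e n` is `D' + c κ + ℘(y)` with `D' ∈ (famC κ A).D e'`:
decomposition of fractions `g / ∏ P ^ (e P) = p₀ + ∑ g_P / P ^ (e P)`, `deg p₀ ≤ n`, `deg g_P < e P deg P`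
(`Polynomial.div_eq_quo_add_sum_rem_div` or `div_prod_eq_quo_add_sum_rem_div`), then `S_PfP` (`k = e P`),
`S_PfI` (`k = n`), `S_Fin2` for the constant, `S_Ids` (1). (b) `D'`, `c` are unique (`S_Ids` (2): the
difference of two such representations). (c) `D' + c κ ∈ Tw PP e n`: the elements of `DP P (e P)` are
`g / P ^ (e P)` with `deg g < e P deg P`, those of `DI κ n` polynomials of degree at most `n`. So the map
`D ↦ (D', c)` from `Tw PP e n` to `(famC κ A).D e' × ZMod 2` is surjective and its fibres are the cosets of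
`Tw PP e n ∩ ℘(K)`, a finite group with `N ≥ 1` elements. As the property `G` depends only on
the class modulo `℘(K)`, the number of the `D ∈ Tw PP e n` with `¬ G D` is `N` times the number of the
pairs `(D', c)` with `¬ G (D' + c κ)`. -/
def S_Fib : Prop :=
  ∀ (F : Type) [Field F] [Finite F] [CharP F 2] (κ : F), eps κ = 1 → ∀ (PP : Finset F[X]),
    (∀ P ∈ PP, P.Monic ∧ Irreducible P) → ∀ A : Dat F PP, A.Ok κ →
    ∀ (e : F[X] → ℕ) (n : ℕ) (e' : Option PP → ℕ), e' none = n →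
      (∀ P : PP, e' (some P) = e P) →
    (Tw PP e n).Finite ∧ (∀ D ∈ Tw PP e n, D ∈ AS PP) ∧ ∃ N : ℕ, 1 ≤ N ∧
      (Tw PP e n).ncard = N * (2 * Nat.card ((famC κ A).D e')) ∧
      ∀ G : RatFunc F → Prop, (∀ D y, G D → G (D + (y ^ 2 + y))) →
        {D ∈ Tw PP e n | ¬ G D}.ncard = N *
          ({x : AS PP | x ∈ (famC κ A).D e' ∧ ¬ G (x : RatFunc F)}.ncard +
            {x : AS PP | x ∈ (famC κ A).D e' ∧ ¬ G ((x : RatFunc F) + RatFunc.C κ)}.ncard)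

/-- **T3** (200 lines, uses `S_Fin2`, `S_Dat`, `S_Inv`, `S_Nf`, `S_Itg`, `S_Fr1`, `S_Asr`, `S_Man`,
`S_Fib`). THE THEOREM.

Proof. Let `E`, `PP`, `ε` be given; `a₀ = (a₁ a₂ + a₃) / a₁ ^ 3`, `γ = Δ / a₁ ^ 12` (`S_Itg`), `κ` with
`eps κ = 1` (`S_Fin2`), `A` from `S_Dat`. Let `G D = Gd (twist E D)`. `G` is invariant under `D ↦ D + ℘(y)`:
`twist E D ≅ EE (a₀ + D) γ 0 ≅ EE (a₀ + D + ℘(y)) γ 0 ≅ twist E (D + ℘(y))` (`S_Nf`, `S_Inv`). For `D ∈ AS PP`: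
`Gd (EE (a₀ + D) (γ ^ 2) 0)` implies `Gd (EE (a₀ + D) γ 1)` (`S_Nf` (3)), `Gd (EE (a₀ + D) γ 0)` (`S_Fr1`) and
`G D`. Let `e₀` be as in `S_Man` for `β = γ` and `ε`. For `e`, `n` with `e P ≥ e₀`, `n ≥ e₀` let `e'` be as in
`S_Fib`. So `#{D ∈ Tw | ¬ G D} ≤ N * (ε #𝔇 + ε #𝔇) = ε #Tw` (`𝔇 = (famC κ A).D e'`), which gives the claim
(`#{D | G D} = #Tw - #{D | ¬ G D}`). -/
def S_T3 : Prop := T3

end Pool.Agent.MP72W
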