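import Pool.Agent.Lib.MP_72e2e6_nt.W2.D.Defs

/-!
# MP_72e2e6_nt, theorem T3, part E (descent, counting, reductions): definitions
-/

namespace Pool.Agent.MP72W

open Polynomial IntermediateField WeierstrassCurve

open scoped Classical

section

variable {F : Type} [Field F] (D γ : RatFunc F) (k : ℕ)

/-- The pairs `(z, p)`: `z` defines an element of the Tate-Shafarevich group of `E_0` and
`2 ^ k z` is the coboundary of `p`. -/
structure IsZP (z : Gal(Kgs F/RatFunc F) → Pt D γ 0 (Kgs F)) (p : Pt D γ 0 (Kgs F)) : Prop where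
  sha : InSha (EE D γ 0) z
  mul : ∀ σ, 2 ^ k • z σ = pmap (EE D γ 0) (σ : Kgs F →ₐ[RatFunc F] Kgs F) p - p

/-- Equivalence of the pairs `(z, p)`. -/
def ZEq (z z' : Gal(Kgs F/RatFunc F) → Pt D γ 0 (Kgs F)) (p p' : Pt D γ 0 (Kgs F)) : Prop :=
  ∃ m : Pt D γ 0 (Kgs F),
    (∀ σ, z σ - z' σ = pmap (EE D γ 0) (σ : Kgs F →ₐ[RatFunc F] Kgs F) m - m) ∧
    p - p' = 2 ^ k • m

end

/-- Isomorphic groups of points over all extensions of `K`, compatible with homomorphisms. -/
def PtIso {K : Type} [Field K] (W W' : WeierstrassCurve K) : Prop :=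
  ∃ φ : ∀ (L : Type) [Field L] [Algebra K L], (W⁄L).toAffine.Point ≃+ (W'⁄L).toAffine.Point,
    ∀ (S L M : Type) [Field S] [Field L] [Field M] [Algebra K S] [Algebra K L] [Algebra K M]
      [Algebra S L] [Algebra S M] [IsScalarTower K S L] [IsScalarTower K S M] (f : L →ₐ[S] M)
      (P : (W⁄L).toAffine.Point), φ M (pmap W f P) = pmap W' f (φ L P)

/-- The height of a rational function. -/
noncomputable def rht {F : Type} [Field F] (f : RatFunc F) : ℕ :=
  max f.num.natDegree f.denom.natDegree

/-- The property considered in the theorem: finitely many rational points and a finite `2`-primary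
part of the Tate-Shafarevich group. -/
def Gd {K : Type} [Field K] (W : WeierstrassCurve K) : Prop :=
  Finite W.toAffine.Point ∧ ShaTwoFin W

end Pool.Agent.MP72W
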