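import Pool.Agent.Lib.MP_72e2e6_nt.W2.E.Spec

/-!
# MP_72e2e6_nt, theorem T3, E/Inv: invariance under `PtIso`

The group structure on the points of a curve over a separable closure uses another (equal)
decidable equality than the one over a general field; `inv_ex` transfers isomorphisms.
-/

namespace Pool.Agent.MP72W

open Polynomial IntermediateField WeierstrassCurve

open scoped Classical

private theorem inv_ex {L : Type} [Field L] {W₁ W₂ : WeierstrassCurve.Affine L}
    (e : W₁.Point ≃+ W₂.Point) (d : DecidableEq L) :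
    ∃ e' : @AddEquiv W₁.Point W₂.Point (@Affine.Point.instAdd L _ W₁ d)
      (@Affine.Point.instAdd L _ W₂ d), ∀ P, e' P = e P := by
  have h : d = fun a b => Classical.propDecidable (a = b) := Subsingleton.elim _ _
  subst h
  exact ⟨e, fun _ => rfl⟩

private theorem inv_sha {K : Type} [Field K] {W W' : WeierstrassCurve K}
    (φ : ∀ (L : Type) [Field L] [Algebra K L], (W⁄L).toAffine.Point ≃+ (W'⁄L).toAffine.Point)
    (hφ : ∀ (S L M : Type) [Field S] [Field L] [Field M] [Algebra K S] [Algebra K L] [Algebra K M]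
      [Algebra S L] [Algebra S M] [IsScalarTower K S L] [IsScalarTower K S M] (f : L →ₐ[S] M)
      (P : (W⁄L).toAffine.Point), φ M (pmap W f P) = pmap W' f (φ L P))
    (z : Gal(SeparableClosure K/K) → (W⁄(SeparableClosure K)).toAffine.Point)
    (hz : InSha W z) : InSha W' (fun σ => φ (SeparableClosure K) (z σ)) := by
  obtain ⟨⟨hl, hm⟩, hloc⟩ := hz
  refine ⟨⟨hl.comp _, ?_⟩, ?_⟩
  · intro σ τ
    obtain ⟨e, he⟩ := inv_ex (φ (SeparableClosure K)) inferInstance
    have h1 := congrArg e (hm σ τ)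
    rw [map_add e] at h1
    simp only [he] at h1
    rw [hφ K (SeparableClosure K) (SeparableClosure K)] at h1
    exact h1
  · intro v hv ι
    obtain ⟨Q, hQ⟩ := hloc v hv ι
    refine ⟨φ (SeparableClosure v.Completion) Q, ?_⟩
    intro σ τ hστ
    obtain ⟨e, he⟩ := inv_ex (φ (SeparableClosure v.Completion)) inferInstance
    have h1 := congrArg e (hQ σ τ hστ)
    rw [map_sub e] at h1
    simp only [he] at h1
    rw [hφ K (SeparableClosure K) (SeparableClosure v.Completion) ι,
      hφ v.Completion (SeparableClosure v.Completion) (SeparableClosure v.Completion)] at h1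
    exact h1

private theorem inv_psi {K : Type} [Field K] {W W' : WeierstrassCurve K}
    (φ : ∀ (L : Type) [Field L] [Algebra K L], (W⁄L).toAffine.Point ≃+ (W'⁄L).toAffine.Point)
    (hφ : ∀ (S L M : Type) [Field S] [Field L] [Field M] [Algebra K S] [Algebra K L] [Algebra K M]
      [Algebra S L] [Algebra S M] [IsScalarTower K S L] [IsScalarTower K S M] (f : L →ₐ[S] M)
      (P : (W⁄L).toAffine.Point), φ M (pmap W f P) = pmap W' f (φ L P)) :
    ∃ ψ : ∀ (L : Type) [Field L] [Algebra K L],
      (W'⁄L).toAffine.Point ≃+ (W⁄L).toAffine.Point,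
      (∀ (S L M : Type) [Field S] [Field L] [Field M] [Algebra K S] [Algebra K L] [Algebra K M]
      [Algebra S L] [Algebra S M] [IsScalarTower K S L] [IsScalarTower K S M] (f : L →ₐ[S] M)
      (P : (W'⁄L).toAffine.Point), ψ M (pmap W' f P) = pmap W f (ψ L P)) ∧
      ∀ (L : Type) [Field L] [Algebra K L] (x : (W'⁄L).toAffine.Point), φ L (ψ L x) = x := by
  refine ⟨fun L _ _ => (φ L).symm, ?_, ?_⟩
  · intro S L M _ _ _ _ _ _ _ _ _ _ f P
    apply (φ M).injective
    rw [AddEquiv.apply_symm_apply, hφ S L M f, AddEquiv.apply_symm_apply]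
  · intro L _ _ x
    exact AddEquiv.apply_symm_apply _ _

private theorem inv_symm {K : Type} [Field K] {W W' : WeierstrassCurve K} (h : PtIso W W') :
    PtIso W' W := by
  obtain ⟨φ, hφ⟩ := h
  obtain ⟨ψ, hψ, -⟩ := inv_psi φ hφ
  exact ⟨ψ, hψ⟩

private theorem inv_gd {K : Type} [Field K] {W W' : WeierstrassCurve K} (h : PtIso W W')
    (hG : Gd W) : Gd W' := by
  obtain ⟨φ, hφ⟩ := h
  obtain ⟨ψ, hψ, hinv⟩ := inv_psi φ hφ
  obtain ⟨hfin, T, hT, hT'⟩ := hG
  have hW : ∀ V : WeierstrassCurve K, (V⁄K) = V := fun V => V.map_id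
  constructor
  · have h1 : Finite (W⁄K).toAffine.Point := by
      rw [hW W]
      exact hfin
    have h2 : Finite (W'⁄K).toAffine.Point := Finite.of_equiv _ (φ K).toEquiv
    rw [hW W'] at h2
    exact h2
  · refine ⟨(fun z σ => φ (SeparableClosure K) (z σ)) '' T, hT.image _, ?_⟩
    intro z' hz' ⟨n, P', hP'⟩
    have h1 : InSha W (fun σ => ψ (SeparableClosure K) (z' σ)) := inv_sha ψ hψ z' hz'
    obtain ⟨e, he⟩ := inv_ex (φ (SeparableClosure K)) inferInstance
    obtain ⟨e', he'⟩ := inv_ex (ψ (SeparableClosure K)) inferInstance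
    obtain ⟨y, hy, P, hP⟩ := hT' (fun σ => ψ (SeparableClosure K) (z' σ)) h1
      ⟨n, ψ (SeparableClosure K) P', by
        intro σ
        have h2 := congrArg e' (hP' σ)
        rw [map_nsmul e', map_sub e'] at h2
        simp only [he'] at h2
        rw [hψ K (SeparableClosure K) (SeparableClosure K)] at h2
        exact h2⟩
    refine ⟨fun σ => φ (SeparableClosure K) (y σ), ⟨y, hy, rfl⟩, φ (SeparableClosure K) P, ?_⟩
    intro σ
    have h2 := congrArg e (hP σ)
    rw [map_sub e, map_sub e] at h2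
    simp only [he] at h2
    rw [hφ K (SeparableClosure K) (SeparableClosure K), hinv] at h2
    exact h2

theorem tInv : S_Inv := by
  intro K _ W W' W''
  refine ⟨inv_symm, ?_, ?_, inv_gd⟩
  · rintro ⟨φ, hφ⟩ ⟨ψ, hψ⟩
    refine ⟨fun L _ _ => (φ L).trans (ψ L), ?_⟩
    intro S L M _ _ _ _ _ _ _ _ _ _ f P
    rw [AddEquiv.trans_apply, AddEquiv.trans_apply, hφ S L M f, hψ S L M f]
  · refine ⟨fun L _ _ => AddEquiv.refl _, ?_⟩
    intro S L M _ _ _ _ _ _ _ _ _ _ f P
    rfl

end Pool.Agent.MP72W
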